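import Pool.Agent.Lib.MP_4f0d88_nt.Core

/-! From equal power sums to equal multisets over `ZMod p`, and the consequence for sparse
polynomials with a zero of high order at `1`. -/

set_option autoImplicit false

open Polynomial

namespace Pool.Agent.Lib.MP_4f0d88_nt

theorem esymm_eq_of_psum {p : ℕ} [Fact p.Prime] {N : ℕ} (hN : N ≤ p) (a b : Fin N → ZMod p)
    (h : ∀ k, 1 ≤ k → k < N → ∑ i, a i ^ k = ∑ i, b i ^ k) :
    ∀ k, k < N → (Finset.univ.val.map a).esymm k = (Finset.univ.val.map b).esymm k := by
  intro k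
  induction k using Nat.strong_induction_on with
  | _ k IH =>
    intro hk
    rcases Nat.eq_zero_or_pos k with rfl | hk0
    · simp [Multiset.esymm]
    have hk' : (k : ZMod p) ≠ 0 := natCast_ne_zero_of_lt hk0 (by omega)
    have e := MvPolynomial.mul_esymm_eq_sum (Fin N) (ZMod p) k
    have ea := congrArg (MvPolynomial.aeval a) e
    have eb := congrArg (MvPolynomial.aeval b) e
    simp only [map_mul, map_natCast, map_pow, map_neg, map_one, map_sum,
      MvPolynomial.aeval_esymm_eq_multiset_esymm, MvPolynomial.psum, MvPolynomial.aeval_X] at ea eb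
    apply mul_left_cancel₀ hk'
    rw [ea, eb]
    congr 1
    refine Finset.sum_congr rfl ?_
    rintro ⟨x, y⟩ hxy
    simp only [Finset.mem_filter, Finset.HasAntidiagonal.mem_antidiagonal] at hxy
    simp only
    rw [IH x hxy.2 (by omega), h y (by omega) (by omega)]

theorem multiset_eq_of_psum (p N : ℕ) [Fact p.Prime] (h1 : N + 2 ≤ p) (h2 : p + 2 ≤ 2 * N)
    (a b : Fin N → ZMod p) (h : ∀ k, 1 ≤ k → k < N → ∑ i, a i ^ k = ∑ i, b i ^ k) :
    Finset.univ.val.map a = Finset.univ.val.map b := by
  set s := Finset.univ.val.map a with hs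
  set t := Finset.univ.val.map b with ht
  have hsc : s.card = N := by simp [hs]
  have htc : t.card = N := by simp [ht]
  set F := (s.map (fun a => X - C a)).prod with hF
  set G := (t.map (fun a => X - C a)).prod with hG
  have hFd : F.natDegree = N := by rw [hF, natDegree_multiset_prod_X_sub_C_eq_card, hsc]
  have hGd : G.natDegree = N := by rw [hG, natDegree_multiset_prod_X_sub_C_eq_card, htc]
  have hC : F - G = C ((F - G).coeff 0) := by
    apply eq_C_of_natDegree_le_zero
    rw [natDegree_le_iff_coeff_eq_zero]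
    intro k hk
    rw [coeff_sub]
    by_cases hkN : k ≤ N
    · rw [hF, hG, Multiset.prod_X_sub_C_coeff s (by omega), Multiset.prod_X_sub_C_coeff t (by omega),
        hsc, htc, esymm_eq_of_psum (by omega) a b h (N - k) (by omega), sub_self]
    · rw [coeff_eq_zero_of_natDegree_lt (by omega), coeff_eq_zero_of_natDegree_lt (by omega),
        sub_self]
  have h0 := core p N h1 h2 s t hsc _ hC
  rw [h0, C_0, sub_eq_zero] at hC
  rw [← roots_multiset_prod_X_sub_C s, ← roots_multiset_prod_X_sub_C t]
  exact congrArg roots hC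

theorem sum_pow_eq_zero (j : ℕ) : ∀ (S : Finset ℕ) (c : ℕ → ℤ),
    (X - C (1 : ℤ)) ^ (j + 1) ∣ ∑ i ∈ S, C (c i) * X ^ i → ∑ i ∈ S, c i * (i : ℤ) ^ j = 0 := by
  induction j with
  | zero =>
    intro S c h
    rw [zero_add, pow_one, dvd_iff_isRoot] at h
    simpa [eval_finsetSum] using h
  | succ j ih =>
    intro S c h
    have h1 : (X - C (1 : ℤ)) ^ (j + 1) ∣ derivative (∑ i ∈ S, C (c i) * X ^ i) := by
      have := pow_sub_one_dvd_derivative_of_pow_dvd h
      simpa using this
    have h2 : X * derivative (∑ i ∈ S, C (c i) * X ^ i : ℤ[X]) =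
        ∑ i ∈ S, C (c i * i) * X ^ i := by
      rw [derivative_sum, Finset.mul_sum]
      refine Finset.sum_congr rfl fun i _ => ?_
      rw [derivative_C_mul_X_pow]
      cases i with
      | zero => simp
      | succ n => simp only [Nat.add_sub_cancel]; ring
    have h3 := ih S (fun i => c i * i) (h2 ▸ h1.mul_left X)
    rw [← h3]
    refine Finset.sum_congr rfl fun i _ => ?_
    ring

end Pool.Agent.Lib.MP_4f0d88_nt
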