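import Pool.Agent.Lib.MP_4f0d88_nt.Sys

/-! Two monic degree `N` polynomials that split over `ZMod p`, `N + 2 ≤ p ≤ 2 N - 2`, and differ by
a constant are equal. -/

set_option autoImplicit false

open Polynomial

namespace Pool.Agent.Lib.MP_4f0d88_nt

theorem dvd_mul_derivative {p : ℕ} [Fact p.Prime] (s : Multiset (ZMod p)) :
    (s.map (fun a => X - C a)).prod ∣
      (X ^ p - X) * derivative (s.map (fun a => X - C a)).prod := by
  induction s using Multiset.induction_on with
  | empty => simp
  | cons a s ih =>
    rw [Multiset.map_cons, Multiset.prod_cons, derivative_mul, derivative_X_sub_C, one_mul, mul_add]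
    have h1 : (X - C a : (ZMod p)[X]) ∣ X ^ p - X := by
      rw [dvd_iff_isRoot]; simp [ZMod.pow_card]
    refine dvd_add (mul_dvd_mul_right h1 _) ?_
    rw [mul_left_comm]
    exact mul_dvd_mul_left _ ih

theorem core_H (p N : ℕ) [Fact p.Prime] (h1 : N + 2 ≤ p) (h2 : p + 2 ≤ 2 * N)
    (H U : (ZMod p)[X]) (hH : H.Monic) (hHd : H.natDegree = N) (e : ZMod p) (he : e ≠ 0)
    (hU : (X ^ p - X) * derivative H = (H ^ 2 - C e ^ 2) * U) : False := by
  have hN0 : (N : ZMod p) ≠ 0 := natCast_ne_zero_of_lt (by omega) (by omega)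
  have hHN : H.coeff N = 1 := by rw [← hHd]; exact hH.coeff_natDegree
  have hH'd : (derivative H).natDegree ≤ N - 1 := hHd ▸ natDegree_derivative_le H
  have hH'c : (derivative H).coeff (N - 1) = N := by
    rw [coeff_derivative, show N - 1 + 1 = N by omega, hHN, one_mul]
    have : ((N - 1 + 1 : ℕ) : ZMod p) = N := by rw [show N - 1 + 1 = N by omega]
    simpa using this
  have hH2 : (H ^ 2).natDegree = 2 * N := by rw [hH.natDegree_pow, hHd]
  have hm2 : (H ^ 2 - C e ^ 2).Monic := by
    refine (hH.pow 2).sub_of_left ?_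
    apply degree_lt_degree
    rw [hH2, ← C_pow, natDegree_C]; omega
  have hd2 : (H ^ 2 - C e ^ 2).natDegree = 2 * N := by
    rw [← C_pow, natDegree_sub_C, hH2]
  have hUd : U.natDegree < N := by
    by_cases hU0 : U = 0
    · rw [hU0, natDegree_zero]; omega
    have a1 := hm2.natDegree_mul' hU0
    rw [← hU, hd2] at a1
    have a2 : ((X ^ p - X) * derivative H : (ZMod p)[X]).natDegree ≤ p + (N - 1) := by
      refine natDegree_mul_le.trans (add_le_add ?_ hH'd)
      refine (natDegree_sub_le _ _).trans ?_
      rw [natDegree_X_pow, natDegree_X]; omega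
    omega
  set V := (X ^ p : (ZMod p)[X]) /ₘ H with hVdef
  set W := (X ^ p : (ZMod p)[X]) %ₘ H with hWdef
  have hdiv : W + H * V = X ^ p := modByMonic_add_div _ _
  have hH1 : H ≠ 1 := by
    intro h; rw [h, natDegree_one] at hHd; omega
  have hWd : W.natDegree < N := hHd ▸ natDegree_modByMonic_lt _ hH hH1
  have hVd : V.natDegree + N = p := by
    rw [hVdef, natDegree_divByMonic _ hH, natDegree_X_pow, hHd]; omega
  have hVm : V.Monic := by
    have : V.leadingCoeff = (X ^ p : (ZMod p)[X]).leadingCoeff :=
      leadingCoeff_divByMonic_of_monic hH (by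
        rw [degree_X_pow, degree_eq_natDegree hH.ne_zero, hHd]; exact_mod_cast (by omega : N ≤ p))
    rw [Monic, this]; exact monic_X_pow p
  have hder : derivative W + (derivative H * V + H * derivative V) = 0 := by
    rw [← derivative_mul, ← derivative_add, hdiv, derivative_X_pow]
    simp
  have hkey : H ^ 2 * (U + derivative V) =
      C e ^ 2 * U - derivative W * H + (W - X) * derivative H := by
    linear_combination (-1 : (ZMod p)[X]) * hU - derivative H * hdiv + H * hder
  have hW'd : (derivative W).natDegree ≤ W.natDegree - 1 := natDegree_derivative_le W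
  have hUV : U + derivative V = 0 := by
    by_contra hz
    have a1 := (hH.pow 2).natDegree_mul' hz
    rw [hkey, hH2] at a1
    have b1 : (C e ^ 2 * U).natDegree ≤ 2 * N - 1 := by
      rw [← C_pow]; exact (natDegree_C_mul_le _ _).trans (by omega)
    have b2 : (derivative W * H).natDegree ≤ 2 * N - 1 :=
      natDegree_mul_le.trans (by omega)
    have b3 : ((W - X) * derivative H).natDegree ≤ 2 * N - 1 := by
      refine natDegree_mul_le.trans ?_
      have := natDegree_sub_le W X
      rw [natDegree_X] at this
      omega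
    have b4 := natDegree_add_le_of_degree_le (natDegree_sub_le_of_le b1 b2 |>.trans (max_self _).le) b3
    omega
  have hE : C e ^ 2 * U = derivative W * H - (W - X) * derivative H := by
    rw [hUV, mul_zero] at hkey
    linear_combination -hkey
  have hW1 : W.natDegree ≤ 1 := by
    by_contra hw
    set w := W.natDegree with hwdef
    have hw0 : W ≠ 0 := by intro h; rw [h, natDegree_zero] at hwdef; omega
    have c1 : (derivative W * H).coeff (w - 1 + N) = W.coeff w * w := by
      rw [coeff_mul_add_eq_of_natDegree_le hW'd hHd.le, hHN, mul_one, coeff_derivative,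
        show w - 1 + 1 = w by omega]
      have : ((w - 1 + 1 : ℕ) : ZMod p) = w := by rw [show w - 1 + 1 = w by omega]
      rw [← this]; push_cast; ring
    have c2 : ((W - X) * derivative H).coeff (w - 1 + N) = W.coeff w * N := by
      have hle : (W - X).natDegree ≤ w := by
        have := natDegree_sub_le W X
        rw [natDegree_X] at this
        omega
      rw [show w - 1 + N = w + (N - 1) by omega, coeff_mul_add_eq_of_natDegree_le hle hH'd, hH'c,
        coeff_sub, coeff_X, if_neg (by omega), sub_zero]
    have c3 : (C e ^ 2 * U).coeff (w - 1 + N) = 0 := by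
      rw [← C_pow, coeff_C_mul, coeff_eq_zero_of_natDegree_lt (by omega), mul_zero]
    rw [hE, coeff_sub, c1, c2] at c3
    have hl : W.coeff w ≠ 0 := leadingCoeff_ne_zero.2 hw0
    have hn : ((N - w : ℕ) : ZMod p) ≠ 0 := natCast_ne_zero_of_lt (by omega) (by omega)
    rw [Nat.cast_sub (by omega)] at hn
    exact (mul_ne_zero hl hn) (by linear_combination -c3)
  obtain ⟨α, β, hW⟩ : ∃ α β : ZMod p, W = C α * X + C β :=
    ⟨_, _, eq_X_add_C_of_natDegree_le_one hW1⟩
  have hE2 : C e ^ 2 * U = C α * H - (C (α - 1) * X + C β) * derivative H := by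
    rw [hE, hW]; simp only [derivative_add, derivative_C_mul, derivative_X, derivative_C, C_sub, C_1]
    ring
  have hαN : α = (α - 1) * N := by
    have c3 : (C e ^ 2 * U).coeff N = 0 := by
      rw [← C_pow, coeff_C_mul, coeff_eq_zero_of_natDegree_lt hUd, mul_zero]
    have c2 : ((C (α - 1) * X + C β) * derivative H).coeff (1 + (N - 1)) = (α - 1) * N := by
      rw [coeff_mul_add_eq_of_natDegree_le natDegree_linear_le hH'd, hH'c]
      simp
    rw [show 1 + (N - 1) = N by omega] at c2
    rw [hE2, coeff_sub, coeff_C_mul, hHN, c2] at c3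
    linear_combination c3
  set γ := α - 1 with hγ
  have hγ0 : γ ≠ 0 := by
    intro h
    have h' : α = 0 := by rw [hαN, h, zero_mul]
    rw [h'] at hγ
    rw [hγ] at h
    simp at h
  have hα0 : α ≠ 0 := by rw [hαN]; exact mul_ne_zero hγ0 hN0
  set t : ZMod p := -β / γ with ht
  have htγ : γ * t + β = 0 := by rw [ht]; field_simp; ring
  have hpow : (X + C t : (ZMod p)[X]) ^ p = X ^ p + C t := by
    rw [add_pow_char, ← C_pow, ZMod.pow_card]
  have hdc : ∀ q : (ZMod p)[X], derivative (q.comp (X + C t)) = (derivative q).comp (X + C t) := by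
    intro q; rw [derivative_comp]; simp
  have hCt : C γ * C t + C β = (0 : (ZMod p)[X]) := by rw [← C_mul, ← C_add, htγ, C_0]
  have hCα : (C α : (ZMod p)[X]) = C γ + 1 := by rw [hγ, C_sub, C_1]; ring
  refine sys_false p N h1 h2 (H.comp (X + C t)) (V.comp (X + C t)) (hH.comp_X_add_C t)
    (by rw [natDegree_comp, natDegree_X_add_C, mul_one, hHd]) (hVm.comp_X_add_C t)
    (by rw [natDegree_comp, natDegree_X_add_C, mul_one, hVd]) α (e ^ 2 / γ) hα0
    (div_ne_zero (pow_ne_zero 2 he) hγ0) ?_ ?_
  · have := congrArg (fun q => q.comp (X + C t)) hdiv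
    simp only [hW, add_comp, mul_comp, C_comp, X_comp, pow_comp, hpow] at this
    rw [hCα] at this ⊢
    linear_combination this - hCt
  · have hU' : U = -derivative V := by linear_combination hUV
    rw [hU'] at hE2
    have := congrArg (fun q => q.comp (X + C t)) hE2
    simp only [add_comp, mul_comp, sub_comp, neg_comp, C_comp, X_comp, pow_comp] at this
    rw [hdc, hdc]
    have hCγ : (C γ : (ZMod p)[X]) ≠ 0 := C_ne_zero.2 hγ0
    apply mul_left_cancel₀ hCγ
    have e1 : C γ * C (e ^ 2 / γ) = (C e ^ 2 : (ZMod p)[X]) := by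
      rw [← C_mul, ← C_pow]; congr 1; field_simp
    have e2 : (C α : (ZMod p)[X]) = C γ * C (N : ZMod p) := by rw [← C_mul, ← hαN]
    rw [e2] at this
    linear_combination (derivative V).comp (X + C t) * e1 - this
      + (derivative H).comp (X + C t) * hCt

theorem core (p N : ℕ) [Fact p.Prime] (h1 : N + 2 ≤ p) (h2 : p + 2 ≤ 2 * N)
    (s t : Multiset (ZMod p)) (hs : s.card = N) (c : ZMod p)
    (h : (s.map (fun a => X - C a)).prod - (t.map (fun a => X - C a)).prod = C c) : c = 0 := by
  by_contra hc
  set F := (s.map (fun a => X - C a)).prod with hF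
  set G := (t.map (fun a => X - C a)).prod with hG
  have h20 : ((2 : ℕ) : ZMod p) ≠ 0 := natCast_ne_zero_of_lt (by omega) (by omega)
  have h20' : (2 : ZMod p) ≠ 0 := by exact_mod_cast h20
  set e := c / 2 with he
  have hce : c = e + e := by rw [he]; field_simp; ring
  have he0 : e ≠ 0 := div_ne_zero hc h20'
  have hFm : F.Monic := monic_multiset_prod_of_monic _ _ (fun a _ => monic_X_sub_C a)
  have hFd : F.natDegree = N := by rw [hF, natDegree_multiset_prod_X_sub_C_eq_card, hs]
  have hGF : G = F - C e - C e := by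
    rw [hce, C_add] at h; linear_combination -h
  have hHm : (F - C e).Monic := by
    refine hFm.sub_of_left ?_
    apply degree_lt_degree
    rw [hFd, natDegree_C]; omega
  have hcop : IsCoprime F G := by
    refine ⟨C c⁻¹, -C c⁻¹, ?_⟩
    have : C c⁻¹ * C c = (1 : (ZMod p)[X]) := by rw [← C_mul, inv_mul_cancel₀ hc, C_1]
    linear_combination C c⁻¹ * h + this
  have d1 : F ∣ (X ^ p - X) * derivative (F - C e) := by
    rw [derivative_sub, derivative_C, sub_zero]; exact dvd_mul_derivative s
  have d2 : G ∣ (X ^ p - X) * derivative (F - C e) := by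
    have : derivative (F - C e) = derivative G := by
      rw [hGF]; simp
    rw [this]; exact dvd_mul_derivative t
  obtain ⟨U, hU⟩ := hcop.mul_dvd d1 d2
  refine core_H p N h1 h2 (F - C e) U hHm (by rw [natDegree_sub_C, hFd]) e he0 ?_
  rw [hU, hGF]; ring

end Pool.Agent.Lib.MP_4f0d88_nt
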