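import Mathlib

/-!
Counting lemmas for the pigeonhole argument at the critical number of variables.
-/

set_option autoImplicit false

open Finset

namespace Pool.Agent.Lib.MP_4f0d88_nt.Crit

/-- Cauchy-Schwarz count of the pairs lying in the same cell. -/
theorem card_sq_le {α β : Type*} [DecidableEq α] [DecidableEq β] (S : Finset α) (T : Finset β)
    (f : α → β) (hf : ∀ a ∈ S, f a ∈ T) :
    S.card ^ 2 ≤ T.card * ((S ×ˢ S).filter fun x => f x.1 = f x.2).card := by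
  have h1 : S.card = ∑ b ∈ T, (S.filter fun a => f a = b).card :=
    card_eq_sum_card_fiberwise hf
  have h2 : ((S ×ˢ S).filter fun x => f x.1 = f x.2).card =
      ∑ b ∈ T, (S.filter fun a => f a = b).card ^ 2 := by
    rw [card_eq_sum_card_fiberwise (f := fun x : α × α => f x.1) (t := T)]
    · refine sum_congr rfl fun b _ => ?_
      rw [sq, ← card_product]
      congr 1
      ext x
      simp only [mem_filter, mem_product]
      constructor
      · rintro ⟨⟨⟨h1, h2⟩, h3⟩, h4⟩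
        exact ⟨⟨h1, h4⟩, h2, h3 ▸ h4⟩
      · rintro ⟨⟨h1, h2⟩, h3, h4⟩
        exact ⟨⟨⟨h1, h3⟩, h2.trans h4.symm⟩, h2⟩
    · intro x hx
      simp only [coe_filter, mem_product, Set.mem_ofPred_eq] at hx
      exact hf _ hx.1.1
  rw [h1, h2]
  exact sq_sum_le_card_mul_sum_sq

/-- At least half of the integers below `p Y` are prime to `p`. -/
theorem card_not_dvd (p Y : ℕ) (hp : 2 ≤ p) :
    p * Y ≤ 2 * ((range (p * Y)).filter fun r => ¬ p ∣ r).card := by
  have h1 : ((range (p * Y)).filter fun r => p ∣ r).card ≤ Y := by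
    calc ((range (p * Y)).filter fun r => p ∣ r).card
        ≤ ((range Y).image fun a => p * a).card := by
          refine card_le_card fun r hr => ?_
          simp only [mem_filter, mem_range] at hr
          obtain ⟨h, a, rfl⟩ := hr
          exact mem_image.2 ⟨a, mem_range.2 (Nat.lt_of_mul_lt_mul_left h), rfl⟩
      _ ≤ Y := card_image_le.trans (by simp)
  have h2 := card_filter_add_card_filter_not (s := range (p * Y)) (fun r => p ∣ r)
  rw [card_range] at h2
  have h3 : 2 * Y ≤ p * Y := Nat.mul_le_mul_right _ hp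
  omega

/-- The tuples with `i`-th entry in the `s i`-th slot of length `p Y`, the entry `i0` prime to `p`,
and signed `j`-th power sum divisible by `p ^ j` for every `j ∈ W`. -/
def fam {ι : Type} [Fintype ι] [DecidableEq ι] (W : Finset ℕ) (ε : ι → ℤ) (s : ι → ℕ) (i0 : ι)
    (p Y : ℕ) : Finset (ι → ℕ) :=
  (Fintype.piFinset fun i => Ico (s i * (p * Y)) ((s i + 1) * (p * Y))).filter fun x =>
    ¬ p ∣ x i0 ∧ ∀ j ∈ W, (p : ℤ) ^ j ∣ ∑ i, ε i * (x i : ℤ) ^ j

theorem fam_card (W : Finset ℕ) (h ρ : ℕ) (hρ : ρ ≤ 1) (hK : ∑ j ∈ W, j = 2 * h + ρ)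
    (s : (Fin h ⊕ Fin h) ⊕ Fin ρ → ℕ) (k0 : Fin h) (p Y : ℕ) (hp : 2 ≤ p)
    (hY : ∀ j ∈ W, p ^ j ∣ Y) :
    Y ^ (2 * h + ρ) ≤ 4 ^ h * p *
      (fam W (Sum.elim (Sum.elim (fun _ => 1) fun _ => -1) fun _ => 1) s (.inl (.inl k0)) p Y).card := by
  classical
  set A := (range (p * Y)).filter fun r => ¬ p ∣ r with hA
  set S : Finset (Fin h → ℕ) := Fintype.piFinset fun _ => A with hS
  set T : Finset (W → ℕ) := Fintype.piFinset fun j => range (p ^ (j : ℕ)) with hT
  let f : (Fin h → ℕ) → W → ℕ := fun r j => (∑ k, r k ^ (j : ℕ)) % p ^ (j : ℕ)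
  have hp0 : 0 < p := by omega
  have hf : ∀ r ∈ S, f r ∈ T := fun r _ =>
    Fintype.mem_piFinset.2 fun j => mem_range.2 (Nat.mod_lt _ (pow_pos hp0 _))
  have hcs := card_sq_le S T f hf
  have hTc : T.card = p ^ (2 * h + ρ) := by
    rw [hT, Fintype.card_piFinset, ← hK, ← prod_pow_eq_pow_sum]
    simp only [card_range]
    exact prod_coe_sort W fun j => p ^ j
  have hSc : S.card = A.card ^ h := by
    rw [hS, Fintype.card_piFinset]; simp
  set P := (S ×ˢ S).filter fun x => f x.1 = f x.2 with hP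
  set Z : Finset (Fin ρ → ℕ) := Fintype.piFinset fun _ => range Y with hZ
  have hZc : Z.card = Y ^ ρ := by
    rw [hZ, Fintype.card_piFinset]; simp
  let g : ((Fin h → ℕ) × (Fin h → ℕ)) × (Fin ρ → ℕ) → (Fin h ⊕ Fin h) ⊕ Fin ρ → ℕ :=
    fun w i => s i * (p * Y) + Sum.elim (Sum.elim w.1.1 w.1.2) (fun k => p * w.2 k) i
  have hg : Function.Injective g := by
    rintro ⟨⟨a, b⟩, c⟩ ⟨⟨a', b'⟩, c'⟩ hw
    have e := fun i => Nat.add_left_cancel (congrFun hw i)
    refine Prod.ext (Prod.ext ?_ ?_) ?_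
    · funext k; exact e (.inl (.inl k))
    · funext k; exact e (.inl (.inr k))
    · funext k; exact Nat.eq_of_mul_eq_mul_left hp0 (e (.inr k))
  have hmap : (P ×ˢ Z).card ≤
      (fam W (Sum.elim (Sum.elim (fun _ => 1) fun _ => -1) fun _ => 1) s (.inl (.inl k0)) p Y).card := by
    refine card_le_card_of_injOn g ?_ hg.injOn
    rintro ⟨⟨a, b⟩, c⟩ hw
    simp only [hP, hS, hZ, hA, coe_product, coe_filter, mem_product, Fintype.mem_piFinset,
      mem_filter, mem_range, Set.mem_prod, Set.mem_ofPred_eq, mem_coe] at hw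
    obtain ⟨⟨⟨ha, hb⟩, hab⟩, hc⟩ := hw
    simp only [fam, coe_filter, Fintype.mem_piFinset, mem_Ico, Set.mem_ofPred_eq]
    refine ⟨fun i => ⟨Nat.le_add_right _ _, ?_⟩, ?_, fun j hj => ?_⟩
    · rw [add_mul, one_mul]
      refine Nat.add_lt_add_left ?_ _
      rcases i with (k | k) | k
      · exact (ha k).1
      · exact (hb k).1
      · exact Nat.mul_lt_mul_of_pos_left (hc k) hp0
    · intro hd
      refine (ha k0).2 ((Nat.dvd_add_right ?_).1 hd)
      exact Dvd.dvd.mul_left (Dvd.intro _ rfl) _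
    · have hm : ∀ (i : (Fin h ⊕ Fin h) ⊕ Fin ρ) (r : ℕ),
          ((s i * (p * Y) + r : ℕ) : ℤ) ^ j ≡ (r : ℤ) ^ j [ZMOD (p : ℤ) ^ j] := by
        intro i r
        refine Int.ModEq.pow _ ?_
        obtain ⟨y, hy⟩ := hY j hj
        refine (Int.modEq_iff_dvd.2 ⟨-(s i * p * y), ?_⟩)
        rw [hy]; push_cast; ring
      have h3 : (∑ k, a k ^ j) ≡ (∑ k, b k ^ j) [MOD p ^ j] := congrFun hab ⟨j, hj⟩
      have h4 : (p : ℤ) ^ j ∣ (∑ k, (b k : ℤ) ^ j) - ∑ k, (a k : ℤ) ^ j := by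
        have := (Nat.modEq_iff_dvd.1 h3)
        push_cast at this
        exact this
      have h5 : ∑ i, Sum.elim (Sum.elim (fun _ => (1 : ℤ)) fun _ => -1) (fun _ => 1) i *
            ((g ((a, b), c) i : ℕ) : ℤ) ^ j ≡
          ∑ i, Sum.elim (Sum.elim (fun _ => (1 : ℤ)) fun _ => -1) (fun _ => 1) i *
            ((Sum.elim (Sum.elim a b) (fun k => p * c k) i : ℕ) : ℤ) ^ j [ZMOD (p : ℤ) ^ j] :=
        Int.ModEq.sum fun i _ => (hm i _).mul_left _
      refine (Int.modEq_zero_iff_dvd.1 (h5.trans (Int.modEq_zero_iff_dvd.2 ?_)))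
      simp only [Fintype.sum_sum_type, Sum.elim_inl, Sum.elim_inr, one_mul, neg_mul,
        sum_neg_distrib]
      refine dvd_add ?_ (dvd_sum fun k _ => ?_)
      · rw [← sub_eq_add_neg, ← neg_sub]
        exact h4.neg_right
      · push_cast
        rw [mul_pow]
        exact Dvd.intro _ rfl
  rw [card_product, hZc] at hmap
  have hA2 : p * Y ≤ 2 * A.card := card_not_dvd p Y hp
  have h6 : (p * Y) ^ (2 * h) ≤ 4 ^ h * S.card ^ 2 := by
    calc (p * Y) ^ (2 * h) ≤ (2 * A.card) ^ (2 * h) := Nat.pow_le_pow_left hA2 _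
      _ = 4 ^ h * S.card ^ 2 := by
        rw [hSc, mul_pow, pow_mul, ← pow_mul A.card, mul_comm h 2]; norm_num
  have h7 : p ^ (2 * h) * Y ^ (2 * h) ≤ p ^ (2 * h) * (4 ^ h * p * P.card) := by
    calc p ^ (2 * h) * Y ^ (2 * h) = (p * Y) ^ (2 * h) := (mul_pow _ _ _).symm
      _ ≤ 4 ^ h * S.card ^ 2 := h6
      _ ≤ 4 ^ h * (p ^ (2 * h + ρ) * P.card) := by
        rw [← hTc]; exact Nat.mul_le_mul_left _ hcs
      _ ≤ 4 ^ h * (p ^ (2 * h + 1) * P.card) := by
        gcongr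
      _ = p ^ (2 * h) * (4 ^ h * p * P.card) := by ring
  have h8 := Nat.le_of_mul_le_mul_left h7 (pow_pos hp0 _)
  calc Y ^ (2 * h + ρ) = Y ^ (2 * h) * Y ^ ρ := pow_add _ _ _
    _ ≤ 4 ^ h * p * P.card * Y ^ ρ := Nat.mul_le_mul_right _ h8
    _ = 4 ^ h * p * (P.card * Y ^ ρ) := by ring
    _ ≤ _ := Nat.mul_le_mul_left _ hmap

end Pool.Agent.Lib.MP_4f0d88_nt.Crit
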