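import Pool.Agent.Lib.MP_4f0d88_nt.CritA

/-!
The pigeonhole argument at the critical number of variables: tuples of rationals with prime
denominator `p` and integral signed power sums, summed over `p`.
-/

set_option autoImplicit false

open Finset

namespace Pool.Agent.Lib.MP_4f0d88_nt.Crit

theorem exists_primes (c : ℝ) :
    ∃ Q : Finset ℕ, (∀ p ∈ Q, p.Prime) ∧ c < ∑ p ∈ Q, (1 : ℝ) / p := by
  classical
  by_contra hc
  push Not at hc
  refine not_summable_one_div_on_primes (summable_of_sum_le (c := c) (fun n => ?_) fun u => ?_)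
  · exact Set.indicator_nonneg (fun p _ => by positivity) _
  · have := hc (u.filter Nat.Prime) fun p hp => (mem_filter.1 hp).2
    rw [sum_filter] at this
    refine le_of_eq_of_le (sum_congr rfl fun n _ => ?_) this
    simp only [Set.indicator, Set.mem_ofPred_eq]

theorem exists_collision {ι : Type} [Fintype ι] [DecidableEq ι] (W : Finset ℕ) (ε : ι → ℤ)
    (hε : ∀ i, |ε i| ≤ 1) (s : ι → ℕ) (i0 : ι) (c : ℕ)
    (hc : ∀ p Y : ℕ, 2 ≤ p → (∀ j ∈ W, p ^ j ∣ Y) →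
      Y ^ (∑ j ∈ W, j) ≤ c * p * (fam W ε s i0 p Y).card) :
    ∃ (L : ℕ) (U V : ι → ℕ), 0 < L ∧ U ≠ V ∧
      (∀ i, s i * L ≤ U i ∧ U i < (s i + 1) * L) ∧ (∀ i, s i * L ≤ V i ∧ V i < (s i + 1) * L) ∧
      ∀ j ∈ W, ∑ i, ε i * (U i : ℤ) ^ j = ∑ i, ε i * (V i : ℤ) ^ j := by
  classical
  set K := ∑ j ∈ W, j with hK
  set n := Fintype.card ι with hn
  have hn1 : 1 ≤ n := Fintype.card_pos_iff.2 ⟨i0⟩
  set b := (∑ i, s i) + 1 with hb
  have hsb : ∀ i, s i + 1 ≤ b := fun i =>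
    Nat.succ_le_succ (single_le_sum (f := s) (fun _ _ => Nat.zero_le _) (mem_univ i))
  obtain ⟨Q, hQ, hsum⟩ := exists_primes ((c : ℝ) * ((3 * n) ^ W.card * b ^ K : ℕ))
  set Y := (∏ p ∈ Q, p) ^ K with hY
  have hY0 : 0 < Y := pow_pos (prod_pos fun p hp => (hQ p hp).pos) _
  have hYd : ∀ p ∈ Q, ∀ j ∈ W, p ^ j ∣ Y := fun p hp j hj =>
    (pow_dvd_pow p (single_le_sum (f := fun j => j) (fun _ _ => Nat.zero_le _) hj)).trans
      (pow_dvd_pow_of_dvd (dvd_prod_of_mem _ hp) _)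
  set T : Finset (Σ _ : ℕ, ι → ℕ) := Q.sigma fun p => fam W ε s i0 p Y with hT
  set B : Finset (W → ℤ) := Fintype.piFinset fun j =>
    Icc (-((n * (b * Y) ^ (j : ℕ) : ℕ) : ℤ)) ((n * (b * Y) ^ (j : ℕ) : ℕ) : ℤ) with hB
  let G : (Σ _ : ℕ, ι → ℕ) → W → ℤ := fun x j =>
    (∑ i, ε i * (x.2 i : ℤ) ^ (j : ℕ)) / (x.1 : ℤ) ^ (j : ℕ)
  have hmem : ∀ x ∈ T, x.1.Prime ∧
      (∀ i, s i * (x.1 * Y) ≤ x.2 i ∧ x.2 i < (s i + 1) * (x.1 * Y)) ∧ ¬ x.1 ∣ x.2 i0 ∧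
      ∀ j : W, ∑ i, ε i * (x.2 i : ℤ) ^ (j : ℕ) = (x.1 : ℤ) ^ (j : ℕ) * G x j := by
    intro x hx
    simp only [hT, mem_sigma, fam, mem_filter, Fintype.mem_piFinset, mem_Ico] at hx
    exact ⟨hQ _ hx.1, hx.2.1, hx.2.2.1, fun j => (Int.mul_ediv_cancel' (hx.2.2.2 j j.2)).symm⟩
  have hmaps : ∀ x ∈ T, G x ∈ B := by
    intro x hx
    obtain ⟨h1, h2, -, h4⟩ := hmem x hx
    refine Fintype.mem_piFinset.2 fun j => mem_Icc.2 (abs_le.1 ?_)
    have hp : (0 : ℤ) < (x.1 : ℤ) ^ (j : ℕ) := pow_pos (by exact_mod_cast h1.pos) _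
    refine le_of_mul_le_mul_left ?_ hp
    calc (x.1 : ℤ) ^ (j : ℕ) * |G x j| = |∑ i, ε i * (x.2 i : ℤ) ^ (j : ℕ)| := by
          rw [h4 j, abs_mul, abs_of_pos hp]
      _ ≤ ∑ i, |ε i * (x.2 i : ℤ) ^ (j : ℕ)| := abs_sum_le_sum_abs _ _
      _ ≤ ∑ _i : ι, ((x.1 * (b * Y) : ℕ) : ℤ) ^ (j : ℕ) := by
          refine sum_le_sum fun i _ => ?_
          rw [abs_mul, abs_pow, Nat.abs_cast]
          have h5 : x.2 i ≤ x.1 * (b * Y) :=
            calc x.2 i ≤ (s i + 1) * (x.1 * Y) := (h2 i).2.le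
              _ ≤ b * (x.1 * Y) := Nat.mul_le_mul_right _ (hsb i)
              _ = x.1 * (b * Y) := by ring
          have h6 : (x.2 i : ℤ) ^ (j : ℕ) ≤ ((x.1 * (b * Y) : ℕ) : ℤ) ^ (j : ℕ) := by
            exact_mod_cast Nat.pow_le_pow_left h5 _
          calc |ε i| * (x.2 i : ℤ) ^ (j : ℕ) ≤ 1 * (x.2 i : ℤ) ^ (j : ℕ) :=
                mul_le_mul_of_nonneg_right (hε i) (by positivity)
            _ ≤ _ := by rw [one_mul]; exact h6
      _ = _ := by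
          rw [sum_const, card_univ, ← hn, nsmul_eq_mul]
          push_cast
          ring
  have hBc : B.card ≤ (3 * n) ^ W.card * b ^ K * Y ^ K := by
    rw [hB, Fintype.card_piFinset]
    calc ∏ j : W, (Icc (-((n * (b * Y) ^ (j : ℕ) : ℕ) : ℤ))
            ((n * (b * Y) ^ (j : ℕ) : ℕ) : ℤ)).card
        ≤ ∏ j : W, 3 * n * (b * Y) ^ (j : ℕ) := by
          refine prod_le_prod' fun j _ => ?_
          have h1 : 1 ≤ n * (b * Y) ^ (j : ℕ) :=
            Nat.mul_pos hn1 (pow_pos (Nat.mul_pos (Nat.succ_pos _) hY0) _)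
          rw [Int.card_Icc, mul_assoc]
          generalize n * (b * Y) ^ (j : ℕ) = m at h1
          omega
      _ = ∏ j ∈ W, 3 * n * (b * Y) ^ j := prod_coe_sort W fun j => 3 * n * (b * Y) ^ j
      _ = _ := by
          rw [prod_mul_distrib, prod_const, prod_pow_eq_pow_sum, ← hK, mul_pow b, mul_assoc]
  have hlt : B.card < T.card := by
    by_contra hle
    push Not at hle
    have h1 : (∑ p ∈ Q, (1 : ℝ) / p) * (Y : ℝ) ^ K ≤ c * T.card := by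
      rw [hT, card_sigma, sum_mul]
      push_cast
      rw [mul_sum]
      refine sum_le_sum fun p hp => ?_
      have hp0 : (0 : ℝ) < p := by exact_mod_cast (hQ p hp).pos
      have h2 : ((Y : ℝ)) ^ K ≤ c * p * (fam W ε s i0 p Y).card := by
        exact_mod_cast hc p Y (hQ p hp).two_le (hYd p hp)
      rw [one_div, inv_mul_le_iff₀ hp0]
      linarith
    have h3 : (T.card : ℝ) ≤ ((3 * n) ^ W.card * b ^ K : ℕ) * (Y : ℝ) ^ K := by
      exact_mod_cast hle.trans hBc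
    have h4 : (0 : ℝ) < (Y : ℝ) ^ K := by positivity
    have h5 := mul_lt_mul_of_pos_right hsum h4
    have h6 := mul_le_mul_of_nonneg_left h3 (Nat.cast_nonneg c)
    rw [mul_assoc] at h5
    linarith
  obtain ⟨x, hx, y, hy, hxy, hG⟩ := exists_ne_map_eq_of_card_lt_of_maps_to hlt hmaps
  obtain ⟨x1, x2, x3, x4⟩ := hmem x hx
  obtain ⟨y1, y2, y3, y4⟩ := hmem y hy
  refine ⟨x.1 * y.1 * Y, fun i => y.1 * x.2 i, fun i => x.1 * y.2 i,
    Nat.mul_pos (Nat.mul_pos x1.pos y1.pos) hY0, fun h => hxy ?_, fun i => ⟨?_, ?_⟩,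
    fun i => ⟨?_, ?_⟩, fun j hj => ?_⟩
  · have h0 : y.1 * x.2 i0 = x.1 * y.2 i0 := congrFun h i0
    have h1 : x.1 ∣ y.1 := ((x1.dvd_mul).1 (h0 ▸ Dvd.intro _ rfl)).resolve_right x3
    have h2 : x.1 = y.1 := (Nat.prime_dvd_prime_iff_eq x1 y1).1 h1
    obtain ⟨p, u⟩ := x
    obtain ⟨q, v⟩ := y
    obtain rfl : p = q := h2
    congr 1
    funext i
    exact Nat.eq_of_mul_eq_mul_left x1.pos (congrFun h i)
  · calc s i * (x.1 * y.1 * Y) = y.1 * (s i * (x.1 * Y)) := by ring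
      _ ≤ _ := Nat.mul_le_mul_left _ (x2 i).1
  · calc y.1 * x.2 i < y.1 * ((s i + 1) * (x.1 * Y)) := Nat.mul_lt_mul_of_pos_left (x2 i).2 y1.pos
      _ = _ := by ring
  · calc s i * (x.1 * y.1 * Y) = x.1 * (s i * (y.1 * Y)) := by ring
      _ ≤ _ := Nat.mul_le_mul_left _ (y2 i).1
  · calc x.1 * y.2 i < x.1 * ((s i + 1) * (y.1 * Y)) := Nat.mul_lt_mul_of_pos_left (y2 i).2 x1.pos
      _ = _ := by ring
  · have e1 := x4 ⟨j, hj⟩
    have e2 := y4 ⟨j, hj⟩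
    rw [← hG] at e2
    calc ∑ i, ε i * ((y.1 * x.2 i : ℕ) : ℤ) ^ j
        = (y.1 : ℤ) ^ j * ∑ i, ε i * (x.2 i : ℤ) ^ j := by
          rw [mul_sum]; refine sum_congr rfl fun i _ => ?_; push_cast; ring
      _ = (x.1 : ℤ) ^ j * ∑ i, ε i * (y.2 i : ℤ) ^ j := by
          rw [e1, e2]; ring
      _ = _ := by
          rw [mul_sum]; refine sum_congr rfl fun i _ => ?_; push_cast; ring

end Pool.Agent.Lib.MP_4f0d88_nt.Crit
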