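import Pool.Agent.Lib.MP_4f0d88_nt.CritB

/-!
From two tuples with equal signed power sums to a symmetric or antisymmetric polynomial.
-/

set_option autoImplicit false

open Finset Polynomial

namespace Pool.Agent.Lib.MP_4f0d88_nt.Crit

/-- If the moments about `D` of orders below `N` vanish, the polynomial vanishes to order `N`
at `1`. -/
theorem dvd_of_moments {κ : Type} [Fintype κ] (c : κ → ℤ) (e : κ → ℕ) (D : ℤ) (N : ℕ)
    (h : ∀ j < N, ∑ k, c k * ((e k : ℤ) - D) ^ j = 0) :
    (X - C (1 : ℤ)) ^ N ∣ ∑ k, monomial (e k) (c k) := by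
  have h1 : ∀ f : ℤ[X], f.natDegree < N → ∑ k, c k * f.eval (e k : ℤ) = 0 := by
    intro f hf
    have h2 : ∀ k, f.eval (e k : ℤ) =
        ∑ j ∈ range N, (taylor D f).coeff j * ((e k : ℤ) - D) ^ j := by
      intro k
      rw [← eval_eq_sum_range' (by rwa [natDegree_taylor]), taylor_eval, sub_add_cancel]
    simp_rw [h2, mul_sum]
    rw [sum_comm]
    refine sum_eq_zero fun j hj => ?_
    have := h j (mem_range.1 hj)
    calc ∑ k, c k * ((taylor D f).coeff j * ((e k : ℤ) - D) ^ j)
        = (taylor D f).coeff j * ∑ k, c k * ((e k : ℤ) - D) ^ j := by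
          rw [mul_sum]; exact sum_congr rfl fun k _ => by ring
      _ = 0 := by rw [this, mul_zero]
  have h3 : (X : ℤ[X]) ^ N ∣ taylor 1 (∑ k, monomial (e k) (c k)) := by
    refine X_pow_dvd_iff.2 fun j hj => ?_
    have h4 := h1 (descPochhammer ℤ j) (by rwa [descPochhammer_natDegree])
    simp_rw [descPochhammer_eval_eq_descFactorial, Nat.descFactorial_eq_factorial_mul_choose] at h4
    have h5 : (j.factorial : ℤ) * ∑ k, c k * ((e k).choose j : ℤ) = 0 := by
      rw [← h4, mul_sum]
      exact sum_congr rfl fun k _ => by push_cast; ring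
    have h6 := (mul_eq_zero.1 h5).resolve_left (by exact_mod_cast j.factorial_ne_zero)
    rw [map_sum, finsetSum_coeff, ← h6]
    refine sum_congr rfl fun k _ => ?_
    rw [taylor_monomial, coeff_C_mul, C_1, coeff_X_add_one_pow]
  obtain ⟨g, hg⟩ := h3
  refine ⟨taylor (-1) g, ?_⟩
  have := congrArg (taylor (-1 : ℤ)) hg
  rw [taylor_taylor, taylor_mul, taylor_pow, taylor_X] at this
  simpa [sub_eq_add_neg] using this

theorem slot_inj {L a s t : ℕ} (h1 : s * L ≤ a ∧ a < (s + 1) * L) (h2 : t * L ≤ a ∧ a < (t + 1) * L) :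
    s = t := by
  have e1 : s < t + 1 := Nat.lt_of_mul_lt_mul_right (h1.1.trans_lt h2.2)
  have e2 : t < s + 1 := Nat.lt_of_mul_lt_mul_right (h2.1.trans_lt h1.2)
  omega

theorem exists_poly {ι : Type} [Fintype ι] [DecidableEq ι] (N : ℕ) (ε : ι → ℤ)
    (hε : ∀ i, ε i = 1 ∨ ε i = -1) (s : ι → ℕ) (hs : Function.Injective s) (hs1 : ∀ i, 1 ≤ s i)
    (L : ℕ) (U V : ι → ℕ) (hL : 0 < L) (hUV : U ≠ V)
    (hU : ∀ i, s i * L ≤ U i ∧ U i < (s i + 1) * L)
    (hV : ∀ i, s i * L ≤ V i ∧ V i < (s i + 1) * L)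
    (hm : ∀ j, j < N → Even (N + j) → ∑ i, ε i * (U i : ℤ) ^ j = ∑ i, ε i * (V i : ℤ) ^ j) :
    ∃ P : ℤ[X], P ≠ 0 ∧ (∀ n, P.coeff n ∈ ({-1, 0, 1} : Set ℤ)) ∧
      P.support.card ≤ 4 * Fintype.card ι ∧ (X - C 1) ^ N ∣ P := by
  classical
  set D := ∑ i, (U i + V i) with hD
  have hUD : ∀ i, U i + V i ≤ D := fun i =>
    single_le_sum (f := fun i => U i + V i) (fun _ _ => Nat.zero_le _) (mem_univ i)
  have hU0 : ∀ i, 0 < U i := fun i => (Nat.mul_pos (hs1 i) hL).trans_le (hU i).1
  have hV0 : ∀ i, 0 < V i := fun i => (Nat.mul_pos (hs1 i) hL).trans_le (hV i).1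
  set σ : ℤ := (-1) ^ N with hσ
  have hσ1 : σ = 1 ∨ σ = -1 := neg_one_pow_eq_or ℤ N
  let e : ι × Fin 4 → ℕ := fun k => ![D + U k.1, D - U k.1, D + V k.1, D - V k.1] k.2
  let c : ι × Fin 4 → ℤ := fun k => ![ε k.1, σ * ε k.1, -ε k.1, -(σ * ε k.1)] k.2
  let t : ι → ℕ → ℤ := fun i n => ∑ r : Fin 4, if e (i, r) = n then c (i, r) else 0
  have hco : ∀ n, (∑ k, monomial (e k) (c k) : ℤ[X]).coeff n = ∑ i, t i n := by
    intro n
    rw [finsetSum_coeff, Fintype.sum_prod_type]
    simp only [coeff_monomial, t]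
  have ht : ∀ i n, t i n = (if D + U i = n then ε i else 0) + (if D - U i = n then σ * ε i else 0) +
      (if D + V i = n then -ε i else 0) + (if D - V i = n then -(σ * ε i) else 0) := by
    intro i n
    simp [t, e, c, Fin.sum_univ_four]
  have hslot : ∀ i n, t i n ≠ 0 → s i * L ≤ Nat.dist n D ∧ Nat.dist n D < (s i + 1) * L := by
    intro i n hn
    have h1 := hUD i
    by_cases a1 : D + U i = n
    · have : Nat.dist n D = U i := by unfold Nat.dist; omega
      exact this ▸ hU i
    by_cases a2 : D - U i = n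
    · have : Nat.dist n D = U i := by unfold Nat.dist; omega
      exact this ▸ hU i
    by_cases a3 : D + V i = n
    · have : Nat.dist n D = V i := by unfold Nat.dist; omega
      exact this ▸ hV i
    by_cases a4 : D - V i = n
    · have : Nat.dist n D = V i := by unfold Nat.dist; omega
      exact this ▸ hV i
    rw [ht, if_neg a1, if_neg a2, if_neg a3, if_neg a4] at hn
    simp at hn
  have hone : ∀ i n, t i n ≠ 0 → ∑ i, t i n = t i n := fun i n hn =>
    Fintype.sum_eq_single i fun i' hi' => by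
      by_contra h0
      exact hi' (hs (slot_inj (hslot i' n h0) (hslot i n hn)))
  refine ⟨∑ k, monomial (e k) (c k), ?_, fun n => ?_, ?_, dvd_of_moments c e D N fun j hj => ?_⟩
  · obtain ⟨i, hi⟩ := Function.ne_iff.1 hUV
    have h1 := hU0 i
    have h2 := hV0 i
    have h3 : t i (D + U i) = ε i := by
      rw [ht, if_pos rfl, if_neg (by omega), if_neg (by omega), if_neg (by omega)]
      simp
    have h4 : t i (D + U i) ≠ 0 := by rw [h3]; rcases hε i with h | h <;> simp [h]
    intro h0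
    have h5 := hco (D + U i)
    rw [h0, coeff_zero, hone i _ h4] at h5
    exact h4 h5.symm
  · rw [hco]
    by_cases h0 : ∃ i, t i n ≠ 0
    · obtain ⟨i, hi⟩ := h0
      rw [hone i n hi, ht]
      have h1 := hU0 i
      have h2 := hV0 i
      have h3 := hUD i
      rcases hε i with h | h <;> rcases hσ1 with h' | h' <;> rw [h, h'] <;>
        split_ifs <;> first | omega | simp
    · push Not at h0
      simp [h0]
  · calc (∑ k, monomial (e k) (c k) : ℤ[X]).support.card ≤ (univ.image e).card := by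
          refine card_le_card fun n hn => ?_
          rw [mem_support_iff, finsetSum_coeff] at hn
          obtain ⟨k, -, hk⟩ := exists_ne_zero_of_sum_ne_zero hn
          rw [coeff_monomial] at hk
          exact mem_image.2 ⟨k, mem_univ _, by by_contra h; exact hk (if_neg h)⟩
      _ ≤ _ := card_image_le.trans (by simp [mul_comm])
  · have h1 : ∀ i, ∑ r : Fin 4, c (i, r) * ((e (i, r) : ℤ) - D) ^ j =
        (1 + (-1) ^ (N + j)) * (ε i * (U i : ℤ) ^ j - ε i * (V i : ℤ) ^ j) := by
      intro i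
      have h2 := hUD i
      have h3 : U i ≤ D := by omega
      have h4 : V i ≤ D := by omega
      simp only [e, c, Fin.sum_univ_four, Matrix.cons_val_zero, Matrix.cons_val_one,
        Matrix.cons_val_two, Matrix.cons_val_three, Matrix.head_cons, Matrix.tail_cons,
        Nat.cast_add, Nat.cast_sub h3, Nat.cast_sub h4, add_sub_cancel_left, sub_sub_cancel_left]
      rw [neg_pow (U i : ℤ), neg_pow (V i : ℤ), pow_add, hσ]
      ring
    rw [Fintype.sum_prod_type]
    simp_rw [h1]
    rw [← mul_sum, sum_sub_distrib]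
    rcases Nat.even_or_odd (N + j) with h | h
    · rw [hm j hj h, sub_self, mul_zero]
    · rw [h.neg_one_pow]; simp

theorem sum_parity (N : ℕ) :
    ∑ j ∈ (range N).filter (fun j => Even (N + j)), j = (N - 1) ^ 2 / 4 := by
  induction N using Nat.twoStepInduction with
  | zero => simp
  | one => simp
  | more n ih _ =>
    rw [sum_filter] at ih ⊢
    rw [sum_range_succ, sum_range_succ]
    have h1 : ∑ j ∈ range n, (if Even (n + 2 + j) then j else 0) =
        ∑ j ∈ range n, if Even (n + j) then j else 0 :=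
      sum_congr rfl fun j _ => by
        have : Even (n + 2 + j) ↔ Even (n + j) := by
          simp only [Nat.even_iff]; omega
        simp only [this]
    rw [h1, ih, if_pos (by rw [Nat.even_iff]; omega), if_neg (by rw [Nat.even_iff]; omega)]
    rcases n with _ | n
    · simp
    · have : (n + 1 + 2 - 1) ^ 2 = (n + 1 - 1) ^ 2 + 4 * (n + 1) := by
        simp only [Nat.add_sub_cancel, show n + 1 + 2 - 1 = n + 2 from rfl]; ring
      rw [this]
      omega

theorem main (N : ℕ) (hN : 4 ≤ N) :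
    ∃ P : ℤ[X], P ≠ 0 ∧ (∀ n, P.coeff n ∈ ({-1, 0, 1} : Set ℤ)) ∧
      P.support.card ≤ 4 * ((N - 1) ^ 2 / 4) ∧ (X - C 1) ^ N ∣ P := by
  classical
  set W := (range N).filter fun j => Even (N + j) with hW
  set K := (N - 1) ^ 2 / 4 with hK
  have hK2 : 2 ≤ K := by
    have : 3 ^ 2 ≤ (N - 1) ^ 2 := Nat.pow_le_pow_left (by omega) 2
    omega
  have hsum : ∑ j ∈ W, j = 2 * (K / 2) + K % 2 := by
    rw [Nat.div_add_mod]; exact sum_parity N
  let ι := (Fin (K / 2) ⊕ Fin (K / 2)) ⊕ Fin (K % 2)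
  let ε : ι → ℤ := Sum.elim (Sum.elim (fun _ => 1) fun _ => -1) fun _ => 1
  have hε : ∀ i, ε i = 1 ∨ ε i = -1 := by
    rintro ((k | k) | k) <;> simp [ε]
  let s : ι → ℕ := fun i => Fintype.equivFin ι i + 1
  have hs : Function.Injective s := fun a b h =>
    (Fintype.equivFin ι).injective (Fin.ext (Nat.succ_injective h))
  let k0 : Fin (K / 2) := ⟨0, by omega⟩
  obtain ⟨L, U, V, hL, hUV, hU, hV, hm⟩ := exists_collision W ε
    (fun i => by rcases hε i with h | h <;> simp [h]) s (.inl (.inl k0)) (4 ^ (K / 2))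
    (fun p Y hp hY => by
      rw [hsum]
      exact fam_card W (K / 2) (K % 2) (by omega) hsum s k0 p Y hp hY)
  obtain ⟨P, h1, h2, h3, h4⟩ := exists_poly N ε hε s hs (fun i => Nat.succ_le_succ (Nat.zero_le _))
    L U V hL hUV hU hV fun j hj hj' => hm j (mem_filter.2 ⟨mem_range.2 hj, hj'⟩)
  refine ⟨P, h1, h2, h3.trans (le_of_eq ?_), h4⟩
  simp only [ι, Fintype.card_sum, Fintype.card_fin]
  omega

end Pool.Agent.Lib.MP_4f0d88_nt.Crit
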