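import Pool.Agent.Lib.MP_4f0d88_nt.Core

/-! Two monic degree `N` polynomials that split over `ZMod p`, `p = 2 N + w` with `2 ≤ w` and
`10 w ≤ N + 12`, and differ by a constant are equal. -/

set_option autoImplicit false

open Polynomial

namespace Pool.Agent.Lib.MP_4f0d88_nt.Far

variable {K : Type} [Field K]

/-- Degree at most `n`, with coefficient `a` at `n`. -/
def Tp (f : K[X]) (n : ℕ) (a : K) : Prop := f.natDegree ≤ n ∧ f.coeff n = a

theorem Tp.mul {f g : K[X]} {n m : ℕ} {a b : K} (h : Tp f n a) (k : Tp g m b) :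
    Tp (f * g) (n + m) (a * b) :=
  ⟨natDegree_mul_le.trans (add_le_add h.1 k.1), by
    rw [coeff_mul_add_eq_of_natDegree_le h.1 k.1, h.2, k.2]⟩

theorem Tp.add {f g : K[X]} {n : ℕ} {a b : K} (h : Tp f n a) (k : Tp g n b) :
    Tp (f + g) n (a + b) :=
  ⟨(natDegree_add_le _ _).trans (max_le h.1 k.1), by rw [coeff_add, h.2, k.2]⟩

theorem Tp.sub {f g : K[X]} {n : ℕ} {a b : K} (h : Tp f n a) (k : Tp g n b) :
    Tp (f - g) n (a - b) :=
  ⟨(natDegree_sub_le _ _).trans (max_le h.1 k.1), by rw [coeff_sub, h.2, k.2]⟩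

theorem Tp.up {f : K[X]} {n : ℕ} {a : K} (h : Tp f n a) (m : ℕ) (k : n < m) : Tp f m 0 :=
  ⟨h.1.trans k.le, coeff_eq_zero_of_natDegree_lt (lt_of_le_of_lt h.1 k)⟩

theorem Tp.der {f : K[X]} {n : ℕ} {a : K} (h : Tp f (n + 1) a) :
    Tp (derivative f) n (a * (n + 1)) :=
  ⟨(natDegree_derivative_le f).trans (by have := h.1; omega), by rw [coeff_derivative, h.2]⟩

theorem Tp.cast {f : K[X]} {n m : ℕ} {a : K} (h : Tp f n a) (k : n = m) : Tp f m a := k ▸ h

theorem Tp.cmul {f : K[X]} {n : ℕ} {a : K} (c : K) (h : Tp f n a) : Tp (C c * f) n (c * a) :=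
  ⟨(natDegree_C_mul_le c f).trans h.1, by rw [coeff_C_mul, h.2]⟩

theorem Tp.const (c : K) : Tp (C c) 0 c := ⟨by simp, by simp⟩

theorem Tp.x : Tp (X : K[X]) 1 1 := ⟨by simp, by simp⟩

theorem Tp.ne {f : K[X]} {n : ℕ} {a : K} (h : Tp f n a) (k : a ≠ 0) : f ≠ 0 := by
  rintro rfl
  exact k (by rw [← h.2]; simp)

theorem Tp.deg {f : K[X]} {n : ℕ} {a : K} (h : Tp f n a) (k : a ≠ 0) : f.natDegree = n :=
  le_antisymm h.1 (le_natDegree_of_ne_zero (by rw [h.2]; exact k))

theorem big (t S A B2 B3 B4 : K[X]) (a k b2 b3 b4 n : ℕ) (h0 : t ^ a ∣ S) (h1 : t ^ k ∣ A)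
    (h2 : t ^ b2 ∣ B2) (h3 : t ^ b3 ∣ B3) (h4 : t ^ b4 ∣ B4)
    (hn : n ≤ a + a + k + (b2 + b2 + b2) + (b3 + b3) + b4) :
    t ^ n ∣ S * S * A * (B2 * B2 * B2) * (B3 * B3) * B4 := by
  refine (pow_dvd_pow t hn).trans ?_
  simp only [pow_add]
  gcongr

/-- The auxiliary polynomial that vanishes at the simple roots. -/
noncomputable def Psi (H W : K[X]) : K[X] :=
  C 2 * (derivative (derivative H) * ((W - X) * (C 4 * derivative W + C 1))) -
    derivative H * (C 6 * derivative W + C 3 + C 8 * ((W - X) * derivative (derivative W)))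

theorem loc (H W Y : K[X]) (e r : K) (he : e ≠ 0) (h2 : (2 : K) ≠ 0) (hY : derivative Y = -1)
    (hr : Y.eval r = 0)
    (hI : C (e * e) * (Y * derivative H) =
      (H * H - C (e * e)) * (H * derivative W - (W - X) * derivative H))
    (k : ℕ) (q : K[X]) (hq : H * H - C (e * e) = (X - C r) ^ (k + 1) * q) (hq0 : q.eval r ≠ 0) :
    (X - C r) ^ (2 * (k + 1)) ∣ Psi H W * Psi H W * derivative H *
      ((C 2 * derivative W + C 2) * (C 2 * derivative W + C 2) * (C 2 * derivative W + C 2)) *
      ((C 2 * derivative W + C 3) * (C 2 * derivative W + C 3)) * (C 2 * derivative W + C 4) := by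
  have hh : H.eval r * H.eval r = e * e := by
    have := congrArg (eval r) hq
    simp at this
    linear_combination this
  have h0 : H.eval r ≠ 0 := by
    intro h; rw [h, mul_zero] at hh; exact mul_ne_zero he he hh.symm
  obtain ⟨u, hu⟩ : X - C r ∣ Y := dvd_iff_isRoot.2 hr
  have hu1 : u.eval r = -1 := by
    have := congrArg (fun f => eval r (derivative f)) hu
    simp only [hY] at this
    simpa using this.symm
  have hD : (H + H) * derivative H =
      (X - C r) ^ k * (C ((k + 1 : ℕ) : K) * q + (X - C r) * derivative q) := by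
    have := congrArg derivative hq
    rw [derivative_sub, derivative_C, derivative_mul, derivative_mul, derivative_X_sub_C_pow,
      Nat.add_sub_cancel] at this
    linear_combination this
  have hk : (X - C r) ^ k ∣ derivative H := by
    refine (prime_X_sub_C r).pow_dvd_of_dvd_mul_left k (a := H + H) ?_ ⟨_, hD⟩
    rw [dvd_iff_isRoot, IsRoot, eval_add, ← two_mul]
    exact mul_ne_zero h2 h0
  have hM : 2 * H.eval r * (H.eval r * (derivative W).eval r -
      (W.eval r - r) * (derivative H).eval r) = -((k + 1 : ℕ) : K) * (e * e) := by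
    have h1 : (X - C r) ^ (k + 1) *
        (C (e * e) * (u * (C ((k + 1 : ℕ) : K) * q + (X - C r) * derivative q))) =
        (X - C r) ^ (k + 1) * ((H + H) * q * (H * derivative W - (W - X) * derivative H)) := by
      rw [hq, hu] at hI
      linear_combination (H + H) * hI - C (e * e) * (X - C r) * u * hD
    have h3 := congrArg (eval r) (mul_left_cancel₀ (pow_ne_zero _ (X_sub_C_ne_zero r)) h1)
    simp only [eval_mul, eval_add, eval_sub, eval_C, eval_X, hu1] at h3
    apply mul_left_cancel₀ hq0
    linear_combination -h3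
  have hW : 1 ≤ k → (X - C r) ^ 1 ∣ C 2 * derivative W + C ((k + 1 : ℕ) : K) := by
    intro h1
    have h3 : (derivative H).eval r = 0 :=
      dvd_iff_isRoot.1 ((dvd_pow_self _ (by omega)).trans hk)
    rw [pow_one, dvd_iff_isRoot, IsRoot]
    simp only [eval_mul, eval_add, eval_C]
    rw [h3] at hM
    apply mul_left_cancel₀ (mul_ne_zero he he)
    linear_combination hM - 2 * (derivative W).eval r * hh
  have hP : (X - C r) ^ (k - 1) ∣ Psi H W := by
    refine dvd_sub ?_ (((pow_dvd_pow _ (by omega)).trans hk).mul_right _)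
    exact ((pow_sub_one_dvd_derivative_of_pow_dvd hk).mul_right _).mul_left _
  have z : ∀ f : K[X], (X - C r) ^ 0 ∣ f := fun f => by simp
  by_cases k0 : k = 0
  · subst k0
    have hP1 : (X - C r) ^ 1 ∣ Psi H W := by
      rw [pow_one, dvd_iff_isRoot, IsRoot, Psi]
      have h3 := congrArg (fun f => eval r (derivative (derivative f))) hI
      simp only [derivative_mul, derivative_add, derivative_sub, derivative_C, derivative_X, hY,
        derivative_neg, derivative_one, derivative_zero, eval_mul, eval_add, eval_sub, eval_C,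
        eval_X, eval_neg, eval_one, eval_zero, hr] at h3
      simp only [eval_mul, eval_add, eval_sub, eval_C, eval_X]
      generalize eval r H = h at *
      generalize eval r (derivative H) = h1 at *
      generalize eval r (derivative (derivative H)) = h2' at *
      generalize eval r (derivative (derivative (derivative H))) = h3' at *
      generalize eval r W = w0 at *
      generalize eval r (derivative W) = w1 at *
      generalize eval r (derivative (derivative W)) = w2 at *
      generalize eval r (derivative (derivative (derivative W))) = w3 at *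
      rw [← hh] at h3 hM
      have B : 2 * (w0 - r) * h1 - h * (2 * w1 + 1) = 0 := by
        apply mul_left_cancel₀ h0
        push_cast at hM
        linear_combination -hM
      have A : -h * h2' - (3 * h1 ^ 2 + 4 * h * h1 * w2 - 4 * (w0 - r) * h1 * h2') = 0 := by
        apply mul_left_cancel₀ h0
        linear_combination h3 - (h1 ^ 2 + h * h2') * B
      apply mul_left_cancel₀ h0
      linear_combination 2 * (w0 - r) * A + (3 * h1 - 4 * (w0 - r) * h2') * B
    exact big _ _ _ _ _ _ 1 0 0 0 0 _ hP1 hk (z _) (z _) (z _) (by omega)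
  by_cases k1 : k = 1
  · subst k1
    exact big _ _ _ _ _ _ _ 1 1 0 0 _ hP hk (by simpa using hW le_rfl) (z _) (z _) (by omega)
  by_cases k2 : k = 2
  · subst k2
    exact big _ _ _ _ _ _ _ 2 0 1 0 _ hP hk (z _) (by simpa using hW (by omega)) (z _) (by omega)
  by_cases k3 : k = 3
  · subst k3
    exact big _ _ _ _ _ _ _ 3 0 0 1 _ hP hk (z _) (z _) (by simpa using hW (by omega)) (by omega)
  exact big _ _ _ _ _ _ _ k 0 0 0 _ hP hk (z _) (z _) (z _) (by omega)

theorem cnt (D T : K[X]) (hT : T ≠ 0) (h : ∀ r, (X - C r) ^ (2 * rootMultiplicity r D) ∣ T) :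
    2 * D.roots.card ≤ T.natDegree := by
  classical
  have key : 2 • D.roots ≤ T.roots := Multiset.le_iff_count.2 fun r => by
    rw [Multiset.count_nsmul, count_roots, count_roots, le_rootMultiplicity_iff hT]
    exact h r
  have := (Multiset.card_le_card key).trans (card_roots' T)
  rwa [Multiset.card_nsmul] at this

theorem core_far_H (p n j : ℕ) [Fact p.Prime] (hp : p = 2 * (n + 2) + (j + 2))
    (h10 : 10 * (j + 2) ≤ n + 2 + 12) (H U : (ZMod p)[X]) (hH : H.Monic)
    (hHd : H.natDegree = n + 2) (e : ZMod p) (he : e ≠ 0)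
    (hU : (X ^ p - X) * derivative H = (H * H - C (e * e)) * U)
    (hs : (H * H - C (e * e)).roots.card = 2 * (n + 2)) : False := by
  have nz : ∀ m : ℕ, 0 < m → m < p → (m : ZMod p) ≠ 0 := fun m a b => natCast_ne_zero_of_lt a b
  have h2 : (2 : ZMod p) ≠ 0 := by exact_mod_cast nz 2 (by omega) (by omega)
  have hN : ((n : ZMod p) + 2) ≠ 0 := by exact_mod_cast nz (n + 2) (by omega) (by omega)
  have tH : Tp H (n + 1 + 1) 1 := ⟨hHd.le, by rw [← hHd]; exact hH.coeff_natDegree⟩
  have tH1 := tH.der
  have tH2 := tH1.der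
  have n1 : (1 : ZMod p) * (((n + 1 : ℕ) : ZMod p) + 1) ≠ 0 := by
    intro h; apply hN; push_cast at h; linear_combination h
  have hXp : derivative (X ^ p : (ZMod p)[X]) = 0 := by
    rw [derivative_X_pow]; simp
  have hY : derivative (X ^ p - X : (ZMod p)[X]) = -1 := by
    rw [derivative_sub, hXp, derivative_X, zero_sub]
  have tY : Tp (X ^ p - X : (ZMod p)[X]) p (1 - 0) :=
    Tp.sub ⟨by simp, by simp⟩ (Tp.x.up p (by omega))
  have tD : Tp (H * H - C (e * e)) (n + 1 + 1 + (n + 1 + 1)) (1 * 1 - 0) :=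
    (tH.mul tH).sub ((Tp.const _).up _ (by omega))
  have hD0 : H * H - C (e * e) ≠ 0 := tD.ne (by simp)
  have hL := tY.mul tH1
  have hL0 := mul_ne_zero (show (1 - 0 : ZMod p) ≠ 0 by simp) n1
  have hU0 : U ≠ 0 := by
    rintro rfl
    exact hL.ne hL0 (by rw [hU, mul_zero])
  have hUd : U.natDegree = n + j + 3 := by
    have := hL.deg hL0
    rw [hU, natDegree_mul hD0 hU0, tD.deg (by simp)] at this
    omega
  obtain ⟨W, V, hWV, hWd⟩ : ∃ W V : (ZMod p)[X], W + H * V = X ^ p ∧ W.natDegree < n + 2 := by
    refine ⟨X ^ p %ₘ H, X ^ p /ₘ H, modByMonic_add_div _ _, ?_⟩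
    rw [← hHd]
    refine natDegree_modByMonic_lt _ hH ?_
    rintro rfl
    simp at hHd
  have d0 : derivative W + (derivative H * V + H * derivative V) = 0 := by
    rw [← hXp, ← hWV, derivative_add, derivative_mul]
  have hM : C (e * e) * U = H * derivative W - (W - X) * derivative H := by
    rw [← sub_eq_zero]
    refine eq_zero_of_dvd_of_natDegree_lt (p := H * H) ⟨U + derivative V, ?_⟩ ?_
    · rw [← hWV] at hU
      linear_combination hU - H * d0
    · rw [(tH.mul tH).deg (by simp)]
      have a1 := natDegree_C_mul_le (e * e) U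
      have a2 : (H * derivative W).natDegree ≤ n + 2 + (n + 1) :=
        natDegree_mul_le.trans (add_le_add hHd.le ((natDegree_derivative_le W).trans (by omega)))
      have a3 : ((W - X) * derivative H).natDegree ≤ n + 1 + (n + 1) :=
        natDegree_mul_le.trans (add_le_add ((natDegree_sub_le _ _).trans
          (max_le (by omega) (by simp))) tH1.1)
      have a4 := natDegree_sub_le (H * derivative W) ((W - X) * derivative H)
      have a5 := natDegree_sub_le (C (e * e) * U) (H * derivative W - (W - X) * derivative H)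
      omega
  have hMd : (H * derivative W - (W - X) * derivative H).natDegree = n + j + 3 := by
    rw [← hM, natDegree_C_mul (mul_ne_zero he he), hUd]
  have hW2 : 2 ≤ W.natDegree := by
    by_contra hc
    have a2 : (H * derivative W).natDegree ≤ n + 2 + 0 :=
      natDegree_mul_le.trans (add_le_add hHd.le ((natDegree_derivative_le W).trans (by omega)))
    have a3 : ((W - X) * derivative H).natDegree ≤ 1 + (n + 1) :=
      natDegree_mul_le.trans (add_le_add ((natDegree_sub_le _ _).trans
        (max_le (by omega) (by simp))) tH1.1)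
    have a4 := natDegree_sub_le (H * derivative W) ((W - X) * derivative H)
    omega
  obtain ⟨i, hi⟩ : ∃ i, W.natDegree = i + 1 + 1 := ⟨W.natDegree - 2, by omega⟩
  have hk : W.leadingCoeff ≠ 0 := by
    rw [leadingCoeff_ne_zero]
    rintro rfl
    simp at hW2
  have tW : Tp W (i + 1 + 1) W.leadingCoeff := ⟨hi.le, by rw [← hi]; rfl⟩
  generalize W.leadingCoeff = κ at tW hk
  have tW1 := tW.der
  have tW2 := tW1.der
  have tg := tW.sub (Tp.x.up (i + 1 + 1) (by omega))
  have hni : ((n : ZMod p) - i) ≠ 0 := by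
    have := nz (n - i) (by omega) (by omega)
    rwa [Nat.cast_sub (by omega)] at this
  have hi2 : ((i : ZMod p) + 2) ≠ 0 := by exact_mod_cast nz (i + 2) (by omega) (by omega)
  have hij : i = j := by
    have t := ((tH.mul tW1).cast (show _ = n + i + 3 by omega)).sub
      ((tg.mul tH1).cast (show _ = n + i + 3 by omega))
    have := t.deg (by
      intro h
      apply mul_ne_zero hk hni
      push_cast at h
      linear_combination -h)
    omega
  subst hij
  have tl : ∀ a b : ZMod p, Tp (C a * derivative W + C b) (i + 1)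
      (a * (κ * (((i + 1 : ℕ) : ZMod p) + 1)) + 0) :=
    fun a b => (tW1.cmul a).add ((Tp.const b).up _ (by omega))
  have nl : (2 : ZMod p) * (κ * (((i + 1 : ℕ) : ZMod p) + 1)) + 0 ≠ 0 := by
    intro h
    apply mul_ne_zero h2 (mul_ne_zero hk hi2)
    push_cast at h
    linear_combination h
  have tP := (((tH2.mul (tg.mul (tl 4 1))).cmul 2).cast (show _ = n + 2 * i + 3 by omega)).sub
    ((tH1.mul (((tl 6 3).up (i + 1 + 1 + i) (by omega)).add ((tg.mul tW2).cmul 8))).cast
      (show _ = n + 2 * i + 3 by omega))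
  have tT := ((((tP.mul tP).mul tH1).mul (((tl 2 2).mul (tl 2 2)).mul (tl 2 2))).mul
    ((tl 2 3).mul (tl 2 3))).mul (tl 2 4)
  have nP : ∀ x : ZMod p, x = 2 * 2 * 2 * ((n + 2) * (κ * κ * ((i + 2) * (n - i)))) → x ≠ 0 := by
    rintro x rfl
    exact mul_ne_zero (mul_ne_zero (mul_ne_zero h2 h2) h2)
      (mul_ne_zero hN (mul_ne_zero (mul_ne_zero hk hk) (mul_ne_zero hi2 hni)))
  have hT0 := tT.ne (by
    refine mul_ne_zero (mul_ne_zero (mul_ne_zero (mul_ne_zero (mul_ne_zero ?_ ?_) n1)
      (mul_ne_zero (mul_ne_zero nl nl) nl)) (mul_ne_zero nl nl)) nl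
    all_goals exact nP _ (by push_cast; ring))
  have hI : C (e * e) * ((X ^ p - X) * derivative H) =
      (H * H - C (e * e)) * (H * derivative W - (W - X) * derivative H) := by
    rw [hU, ← hM]; ring
  have key := (cnt (H * H - C (e * e)) _ hT0 fun r => by
      obtain ⟨q, hq, hq0⟩ := exists_eq_pow_rootMultiplicity_mul_and_not_dvd _ hD0 r
      generalize rootMultiplicity r (H * H - C (e * e)) = m at hq
      cases m with
      | zero => simp
      | succ k =>
        exact loc H W _ e r he h2 hY (by simp [ZMod.pow_card]) hI k q hq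
          (fun h => hq0 (dvd_iff_isRoot.2 h))).trans tT.1
  omega

theorem core_far (p N : ℕ) [Fact p.Prime] (h1 : 2 * N + 2 ≤ p) (h2 : 10 * p ≤ 21 * N + 12)
    (s t : Multiset (ZMod p)) (hs : s.card = N) (ht : t.card = N) (c : ZMod p)
    (h : (s.map (fun a => X - C a)).prod - (t.map (fun a => X - C a)).prod = C c) : c = 0 := by
  by_contra hc
  have hst : ((s.map (fun a => X - C a)).prod * (t.map (fun a => X - C a)).prod).roots.card
      = 2 * N := by
    rw [← Multiset.prod_add, ← Multiset.map_add, roots_multiset_prod_X_sub_C, Multiset.card_add]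
    omega
  set F := (s.map (fun a => X - C a)).prod with hF
  set G := (t.map (fun a => X - C a)).prod with hG
  have h20 : ((2 : ℕ) : ZMod p) ≠ 0 := natCast_ne_zero_of_lt (by omega) (by omega)
  have h20' : (2 : ZMod p) ≠ 0 := by exact_mod_cast h20
  set e := c / 2 with he
  have hce : c = e + e := by rw [he]; field_simp; ring
  have he0 : e ≠ 0 := div_ne_zero hc h20'
  have hFm : F.Monic := monic_multiset_prod_of_monic _ _ (fun a _ => monic_X_sub_C a)
  have hFd : F.natDegree = N := by rw [hF, natDegree_multiset_prod_X_sub_C_eq_card, hs]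
  have hGF : G = F - C e - C e := by
    rw [hce, C_add] at h; linear_combination -h
  have hHm : (F - C e).Monic := by
    refine hFm.sub_of_left ?_
    apply degree_lt_degree
    rw [hFd, natDegree_C]; omega
  have hcop : IsCoprime F G := by
    refine ⟨C c⁻¹, -C c⁻¹, ?_⟩
    have : C c⁻¹ * C c = (1 : (ZMod p)[X]) := by rw [← C_mul, inv_mul_cancel₀ hc, C_1]
    linear_combination C c⁻¹ * h + this
  have d1 : F ∣ (X ^ p - X) * derivative (F - C e) := by
    rw [derivative_sub, derivative_C, sub_zero]; exact dvd_mul_derivative s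
  have d2 : G ∣ (X ^ p - X) * derivative (F - C e) := by
    have : derivative (F - C e) = derivative G := by
      rw [hGF]; simp
    rw [this]; exact dvd_mul_derivative t
  obtain ⟨U, hU⟩ := hcop.mul_dvd d1 d2
  have hFG : F * G = (F - C e) * (F - C e) - C (e * e) := by rw [hGF, C_mul]; ring
  refine core_far_H p (N - 2) (p - 2 * N - 2) (by omega) (by omega) (F - C e) U hHm
    (by rw [natDegree_sub_C, hFd]; omega) e he0 (by rw [hU, hFG]) ?_
  rw [← hFG, hst]; omega

end Pool.Agent.Lib.MP_4f0d88_nt.Far
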