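import Pool.Agent.Lib.MP_4f0d88_nt.LOne
import Pool.Agent.Lib.MP_4f0d88_nt.Far

/-! The local result for `N + 2 ≤ p`, `10 p ≤ 21 N + 12`, `p ≠ 2 N - 1, 2 N + 1`, and the
consequence for integer polynomials whose coefficients have absolute values summing to at most
`2 N`. -/

set_option autoImplicit false

open Polynomial

namespace Pool.Agent.Lib.MP_4f0d88_nt.Far

theorem core_all (p N : ℕ) [hp : Fact p.Prime] (h1 : N + 2 ≤ p) (h2 : 10 * p ≤ 21 * N + 12)
    (h3 : p + 1 ≠ 2 * N) (h4 : p ≠ 2 * N + 1)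
    (s t : Multiset (ZMod p)) (hs : s.card = N) (ht : t.card = N) (c : ZMod p)
    (h : (s.map (fun a => X - C a)).prod - (t.map (fun a => X - C a)).prod = C c) : c = 0 := by
  by_cases h5 : p + 2 ≤ 2 * N
  · exact core p N h1 h5 s t hs c h
  · have h6 : p ≠ 2 * N := by
      intro h6
      have := (Nat.prime_dvd_prime_iff_eq Nat.prime_two hp.out).1 ⟨N, h6⟩
      omega
    exact core_far p N (by omega) h2 s t hs ht c h

theorem multiset_eq_of_psum_far (p N : ℕ) [Fact p.Prime] (h1 : N + 2 ≤ p) (h2 : 10 * p ≤ 21 * N + 12)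
    (h3 : p + 1 ≠ 2 * N) (h4 : p ≠ 2 * N + 1)
    (a b : Fin N → ZMod p) (h : ∀ k, 1 ≤ k → k < N → ∑ i, a i ^ k = ∑ i, b i ^ k) :
    Finset.univ.val.map a = Finset.univ.val.map b := by
  set s := Finset.univ.val.map a with hs
  set t := Finset.univ.val.map b with ht
  have hsc : s.card = N := by simp [hs]
  have htc : t.card = N := by simp [ht]
  set F := (s.map (fun a => X - C a)).prod with hF
  set G := (t.map (fun a => X - C a)).prod with hG
  have hFd : F.natDegree = N := by rw [hF, natDegree_multiset_prod_X_sub_C_eq_card, hsc]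
  have hGd : G.natDegree = N := by rw [hG, natDegree_multiset_prod_X_sub_C_eq_card, htc]
  have hC : F - G = C ((F - G).coeff 0) := by
    apply eq_C_of_natDegree_le_zero
    rw [natDegree_le_iff_coeff_eq_zero]
    intro k hk
    rw [coeff_sub]
    by_cases hkN : k ≤ N
    · rw [hF, hG, Multiset.prod_X_sub_C_coeff s (by omega), Multiset.prod_X_sub_C_coeff t (by omega),
        hsc, htc, esymm_eq_of_psum (by omega) a b h (N - k) (by omega), sub_self]
    · rw [coeff_eq_zero_of_natDegree_lt (by omega), coeff_eq_zero_of_natDegree_lt (by omega),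
        sub_self]
  have h0 := core_all p N h1 h2 h3 h4 s t hsc htc _ hC
  rw [h0, C_0, sub_eq_zero] at hC
  rw [← roots_multiset_prod_X_sub_C s, ← roots_multiset_prod_X_sub_C t]
  exact congrArg roots hC

theorem multiset_eq_far (p N : ℕ) [Fact p.Prime] (h1 : N + 2 ≤ p) (h2 : 10 * p ≤ 21 * N + 12)
    (h3 : p + 1 ≠ 2 * N) (h4 : p ≠ 2 * N + 1)
    (A B : Multiset (ZMod p)) (hA : A.card = N) (hB : B.card = N)
    (h : ∀ k : ℕ, 1 ≤ k → k < N → (A.map (fun x => x ^ k)).sum = (B.map (fun x => x ^ k)).sum) :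
    A = B := by
  have ex : ∀ M : Multiset (ZMod p), M.card = N →
      ∃ f : Fin N → ZMod p, M = Finset.univ.val.map f := by
    intro M hM
    induction M using Quotient.inductionOn with
    | _ l =>
      have hl : l.length = N := by simpa using hM
      subst hl
      exact ⟨l.get, by rw [Fin.univ_val_map, List.ofFn_get]; rfl⟩
  obtain ⟨a, rfl⟩ := ex A hA
  obtain ⟨b, rfl⟩ := ex B hB
  refine multiset_eq_of_psum_far p N h1 h2 h3 h4 a b fun k hk1 hk2 => ?_
  have := h k hk1 hk2
  rw [Multiset.map_map, Multiset.map_map] at this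
  exact this

theorem dvd_of_l1_far (p N : ℕ) [Fact p.Prime] (h1 : N + 2 ≤ p) (h2 : 10 * p ≤ 21 * N + 12)
    (h3 : p + 1 ≠ 2 * N) (h4 : p ≠ 2 * N + 1)
    (P : ℤ[X]) (hl : ∑ i ∈ P.support, |P.coeff i| ≤ 2 * (N : ℤ)) (hm : (X - 1) ^ N ∣ P) :
    X ^ p - 1 ∣ P := by
  classical
  set A0 := ∑ i ∈ P.support, Multiset.replicate (P.coeff i).toNat i with hA0
  set B0 := ∑ i ∈ P.support, Multiset.replicate (-P.coeff i).toNat i with hB0
  have hsplit0 : ∀ {M : Type} [CommRing M] (f : ℕ → M),
      ∑ i ∈ P.support, (P.coeff i : M) * f i = (A0.map f).sum - (B0.map f).sum := by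
    intro M _ f
    rw [hA0, hB0, map_sum_replicate, map_sum_replicate, ← Finset.sum_sub_distrib]
    refine Finset.sum_congr rfl fun i _ => ?_
    rw [← sub_mul]
    congr 1
    conv_lhs => rw [← Int.toNat_sub_toNat_neg (P.coeff i)]
    rw [Int.cast_sub, Int.cast_natCast, Int.cast_natCast]
  have hpow0 : ∀ k, k < N → ∑ i ∈ P.support, P.coeff i * (i : ℤ) ^ k = 0 := by
    intro k hk
    have hd : (X - C (1 : ℤ)) ^ (k + 1) ∣ P := by
      rw [C_1]; exact (pow_dvd_pow _ (by omega)).trans hm
    rw [P.as_sum_support_C_mul_X_pow] at hd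
    exact sum_pow_eq_zero k _ _ hd
  have hcA : (A0.card : ℤ) = ∑ i ∈ P.support, ((P.coeff i).toNat : ℤ) := by
    rw [hA0, Multiset.card_sum, Nat.cast_sum]
    simp only [Multiset.card_replicate]
  have hcB : (B0.card : ℤ) = ∑ i ∈ P.support, ((-P.coeff i).toNat : ℤ) := by
    rw [hB0, Multiset.card_sum, Nat.cast_sum]
    simp only [Multiset.card_replicate]
  have hsum : (A0.card : ℤ) + B0.card ≤ 2 * N := by
    rw [hcA, hcB, ← Finset.sum_add_distrib]
    refine le_trans (le_of_eq (Finset.sum_congr rfl fun i _ => ?_)) hl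
    rcases abs_cases (P.coeff i) with h | h <;> omega
  have hAB : (A0.card : ℤ) = B0.card := by
    have e := hsplit0 (M := ℤ) (fun i => (i : ℤ) ^ 0)
    simp only [Int.cast_id] at e
    rw [hpow0 0 (by omega)] at e
    simp at e
    linarith
  set A := A0 + Multiset.replicate (N - A0.card) 0 with hA
  set B := B0 + Multiset.replicate (N - A0.card) 0 with hB
  have hAN : A.card = N := by rw [hA, Multiset.card_add, Multiset.card_replicate]; omega
  have hBN : B.card = N := by rw [hB, Multiset.card_add, Multiset.card_replicate]; omega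
  have hsplit : ∀ {M : Type} [CommRing M] (f : ℕ → M),
      ∑ i ∈ P.support, (P.coeff i : M) * f i = (A.map f).sum - (B.map f).sum := by
    intro M _ f
    rw [hsplit0, hA, hB, Multiset.map_add, Multiset.map_add, Multiset.sum_add, Multiset.sum_add]
    ring
  have hmul := multiset_eq_far p N h1 h2 h3 h4 (A.map (fun x : ℕ => (x : ZMod p)))
    (B.map (fun x : ℕ => (x : ZMod p))) (by simp [hAN]) (by simp [hBN]) (by
      intro k _ hk
      rw [Multiset.map_map, Multiset.map_map, ← sub_eq_zero]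
      have e := hsplit (M := ZMod p) (fun i => (i : ZMod p) ^ k)
      have := congrArg (fun z : ℤ => (z : ZMod p)) (hpow0 k hk)
      simp only [Int.cast_sum, Int.cast_mul, Int.cast_pow, Int.cast_natCast, Int.cast_zero] at this
      rw [this] at e
      exact e.symm)
  have hval : (A.map (fun x => (X : ℤ[X]) ^ (x % p))).sum =
      (B.map (fun x => (X : ℤ[X]) ^ (x % p))).sum := by
    have := congrArg (fun m : Multiset (ZMod p) => (m.map (fun z => (X : ℤ[X]) ^ z.val)).sum) hmul
    simpa [Multiset.map_map, ZMod.val_natCast, Function.comp_def] using this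
  have hred : ∀ S : Multiset ℕ, (X ^ p - 1 : ℤ[X]) ∣
      (S.map (fun x => X ^ x)).sum - (S.map (fun x => X ^ (x % p))).sum := by
    intro S
    rw [← Multiset.sum_map_sub]
    refine Multiset.dvd_sum fun y hy => ?_
    obtain ⟨x, _, rfl⟩ := Multiset.mem_map.1 hy
    have e : (X : ℤ[X]) ^ x - X ^ (x % p) = X ^ (x % p) * ((X ^ p) ^ (x / p) - 1 ^ (x / p)) := by
      conv_lhs => rw [← Nat.mod_add_div x p]
      rw [one_pow, mul_sub, mul_one, ← pow_mul, ← pow_add, Nat.mod_add_div]
    rw [e]
    exact (sub_dvd_pow_sub_pow _ _ _).mul_left _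
  have hP : P = (A.map (fun x => X ^ x)).sum - (B.map (fun x => X ^ x)).sum := by
    rw [← hsplit (M := ℤ[X]) (fun i => X ^ i)]
    conv_lhs => rw [P.as_sum_support_C_mul_X_pow]
    simp
  have := dvd_sub (hred A) (hred B)
  rw [hP]
  convert this using 1
  rw [hval]; ring

end Pool.Agent.Lib.MP_4f0d88_nt.Far
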