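import Pool.Agent.Lib.MP_4f0d88_nt.Bridge

/-! The multiset form of the local result and the consequence for integer polynomials whose
coefficients have absolute values summing to at most `2 N`. -/

set_option autoImplicit false

open Polynomial

namespace Pool.Agent.Lib.MP_4f0d88_nt

theorem multiset_eq (p N : ℕ) [Fact p.Prime] (h1 : N + 2 ≤ p) (h2 : p + 2 ≤ 2 * N)
    (A B : Multiset (ZMod p)) (hA : A.card = N) (hB : B.card = N)
    (h : ∀ k : ℕ, 1 ≤ k → k < N → (A.map (fun x => x ^ k)).sum = (B.map (fun x => x ^ k)).sum) :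
    A = B := by
  have ex : ∀ M : Multiset (ZMod p), M.card = N →
      ∃ f : Fin N → ZMod p, M = Finset.univ.val.map f := by
    intro M hM
    induction M using Quotient.inductionOn with
    | _ l =>
      have hl : l.length = N := by simpa using hM
      subst hl
      exact ⟨l.get, by rw [Fin.univ_val_map, List.ofFn_get]; rfl⟩
  obtain ⟨a, rfl⟩ := ex A hA
  obtain ⟨b, rfl⟩ := ex B hB
  refine multiset_eq_of_psum p N h1 h2 a b fun k hk1 hk2 => ?_
  have := h k hk1 hk2
  rw [Multiset.map_map, Multiset.map_map] at this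
  exact this

theorem map_sum_replicate {M : Type} [CommRing M] (S : Finset ℕ) (n : ℕ → ℕ) (f : ℕ → M) :
    ((∑ i ∈ S, Multiset.replicate (n i) i).map f).sum = ∑ i ∈ S, (n i : M) * f i := by
  classical
  induction S using Finset.induction_on with
  | empty => simp
  | insert a S ha ih =>
    rw [Finset.sum_insert ha, Finset.sum_insert ha, Multiset.map_add, Multiset.sum_add, ih]
    simp

theorem X_pow_sub_one_dvd_of_l1 (p N : ℕ) [Fact p.Prime] (h1 : N + 2 ≤ p) (h2 : p + 2 ≤ 2 * N)
    (P : ℤ[X]) (hl : ∑ i ∈ P.support, |P.coeff i| ≤ 2 * (N : ℤ)) (hm : (X - 1) ^ N ∣ P) :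
    X ^ p - 1 ∣ P := by
  classical
  set A0 := ∑ i ∈ P.support, Multiset.replicate (P.coeff i).toNat i with hA0
  set B0 := ∑ i ∈ P.support, Multiset.replicate (-P.coeff i).toNat i with hB0
  have hsplit0 : ∀ {M : Type} [CommRing M] (f : ℕ → M),
      ∑ i ∈ P.support, (P.coeff i : M) * f i = (A0.map f).sum - (B0.map f).sum := by
    intro M _ f
    rw [hA0, hB0, map_sum_replicate, map_sum_replicate, ← Finset.sum_sub_distrib]
    refine Finset.sum_congr rfl fun i _ => ?_
    rw [← sub_mul]
    congr 1
    conv_lhs => rw [← Int.toNat_sub_toNat_neg (P.coeff i)]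
    rw [Int.cast_sub, Int.cast_natCast, Int.cast_natCast]
  have hpow0 : ∀ k, k < N → ∑ i ∈ P.support, P.coeff i * (i : ℤ) ^ k = 0 := by
    intro k hk
    have hd : (X - C (1 : ℤ)) ^ (k + 1) ∣ P := by
      rw [C_1]; exact (pow_dvd_pow _ (by omega)).trans hm
    rw [P.as_sum_support_C_mul_X_pow] at hd
    exact sum_pow_eq_zero k _ _ hd
  have hcA : (A0.card : ℤ) = ∑ i ∈ P.support, ((P.coeff i).toNat : ℤ) := by
    rw [hA0, Multiset.card_sum, Nat.cast_sum]
    simp only [Multiset.card_replicate]
  have hcB : (B0.card : ℤ) = ∑ i ∈ P.support, ((-P.coeff i).toNat : ℤ) := by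
    rw [hB0, Multiset.card_sum, Nat.cast_sum]
    simp only [Multiset.card_replicate]
  have hsum : (A0.card : ℤ) + B0.card ≤ 2 * N := by
    rw [hcA, hcB, ← Finset.sum_add_distrib]
    refine le_trans (le_of_eq (Finset.sum_congr rfl fun i _ => ?_)) hl
    rcases abs_cases (P.coeff i) with h | h <;> omega
  have hAB : (A0.card : ℤ) = B0.card := by
    have e := hsplit0 (M := ℤ) (fun i => (i : ℤ) ^ 0)
    simp only [Int.cast_id] at e
    rw [hpow0 0 (by omega)] at e
    simp at e
    linarith
  set A := A0 + Multiset.replicate (N - A0.card) 0 with hA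
  set B := B0 + Multiset.replicate (N - A0.card) 0 with hB
  have hAN : A.card = N := by rw [hA, Multiset.card_add, Multiset.card_replicate]; omega
  have hBN : B.card = N := by rw [hB, Multiset.card_add, Multiset.card_replicate]; omega
  have hsplit : ∀ {M : Type} [CommRing M] (f : ℕ → M),
      ∑ i ∈ P.support, (P.coeff i : M) * f i = (A.map f).sum - (B.map f).sum := by
    intro M _ f
    rw [hsplit0, hA, hB, Multiset.map_add, Multiset.map_add, Multiset.sum_add, Multiset.sum_add]
    ring
  have hmul := multiset_eq p N h1 h2 (A.map (fun x : ℕ => (x : ZMod p)))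
    (B.map (fun x : ℕ => (x : ZMod p))) (by simp [hAN]) (by simp [hBN]) (by
      intro k _ hk
      rw [Multiset.map_map, Multiset.map_map, ← sub_eq_zero]
      have e := hsplit (M := ZMod p) (fun i => (i : ZMod p) ^ k)
      have := congrArg (fun z : ℤ => (z : ZMod p)) (hpow0 k hk)
      simp only [Int.cast_sum, Int.cast_mul, Int.cast_pow, Int.cast_natCast, Int.cast_zero] at this
      rw [this] at e
      exact e.symm)
  have hval : (A.map (fun x => (X : ℤ[X]) ^ (x % p))).sum =
      (B.map (fun x => (X : ℤ[X]) ^ (x % p))).sum := by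
    have := congrArg (fun m : Multiset (ZMod p) => (m.map (fun z => (X : ℤ[X]) ^ z.val)).sum) hmul
    simpa [Multiset.map_map, ZMod.val_natCast, Function.comp_def] using this
  have hred : ∀ S : Multiset ℕ, (X ^ p - 1 : ℤ[X]) ∣
      (S.map (fun x => X ^ x)).sum - (S.map (fun x => X ^ (x % p))).sum := by
    intro S
    rw [← Multiset.sum_map_sub]
    refine Multiset.dvd_sum fun y hy => ?_
    obtain ⟨x, _, rfl⟩ := Multiset.mem_map.1 hy
    have e : (X : ℤ[X]) ^ x - X ^ (x % p) = X ^ (x % p) * ((X ^ p) ^ (x / p) - 1 ^ (x / p)) := by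
      conv_lhs => rw [← Nat.mod_add_div x p]
      rw [one_pow, mul_sub, mul_one, ← pow_mul, ← pow_add, Nat.mod_add_div]
    rw [e]
    exact (sub_dvd_pow_sub_pow _ _ _).mul_left _
  have hP : P = (A.map (fun x => X ^ x)).sum - (B.map (fun x => X ^ x)).sum := by
    rw [← hsplit (M := ℤ[X]) (fun i => X ^ i)]
    conv_lhs => rw [P.as_sum_support_C_mul_X_pow]
    simp
  have := dvd_sub (hred A) (hred B)
  rw [hP]
  convert this using 1
  rw [hval]; ring

end Pool.Agent.Lib.MP_4f0d88_nt
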