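import Mathlib

/-! Algebra of ideal Prouhet-Tarry-Escott solutions over the integers. -/

set_option autoImplicit false

open Polynomial Finset

namespace Pool.Agent.Lib.MP_4f0d88_nt

theorem esymm_eq_int {N : ℕ} (a b : Fin N → ℤ)
    (h : ∀ k, 1 ≤ k → k < N → ∑ i, a i ^ k = ∑ i, b i ^ k) :
    ∀ k, k < N → (univ.val.map a).esymm k = (univ.val.map b).esymm k := by
  intro k
  induction k using Nat.strong_induction_on with
  | _ k IH =>
    intro hk
    rcases Nat.eq_zero_or_pos k with rfl | hk0
    · simp [Multiset.esymm]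
    have hk' : (k : ℤ) ≠ 0 := by omega
    have e := MvPolynomial.mul_esymm_eq_sum (Fin N) ℤ k
    have ea := congrArg (MvPolynomial.aeval a) e
    have eb := congrArg (MvPolynomial.aeval b) e
    simp only [map_mul, map_natCast, map_pow, map_neg, map_one, map_sum,
      MvPolynomial.aeval_esymm_eq_multiset_esymm, MvPolynomial.psum, MvPolynomial.aeval_X] at ea eb
    apply mul_left_cancel₀ hk'
    rw [ea, eb]
    congr 1
    refine Finset.sum_congr rfl ?_
    rintro ⟨x, y⟩ hxy
    simp only [Finset.mem_filter, Finset.HasAntidiagonal.mem_antidiagonal] at hxy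
    simp only
    rw [IH x hxy.2 (by omega), h y (by omega) (by omega)]

/-- The two products differ by a constant, which is nonzero when the multisets differ. -/
theorem exists_const {N : ℕ} (a b : Fin N → ℤ)
    (h : ∀ k, 1 ≤ k → k < N → ∑ i, a i ^ k = ∑ i, b i ^ k)
    (hne : univ.val.map a ≠ univ.val.map b) :
    ∃ c : ℤ, c ≠ 0 ∧ ∀ x : ℤ, ∏ i, (x - a i) - ∏ j, (x - b j) = c := by
  set s := univ.val.map a with hs
  set t := univ.val.map b with ht
  have hsc : s.card = N := by simp [hs]
  have htc : t.card = N := by simp [ht]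
  set F := (s.map (fun a => X - C a)).prod with hF
  set G := (t.map (fun a => X - C a)).prod with hG
  have hFd : F.natDegree = N := by rw [hF, natDegree_multiset_prod_X_sub_C_eq_card, hsc]
  have hGd : G.natDegree = N := by rw [hG, natDegree_multiset_prod_X_sub_C_eq_card, htc]
  have hC : F - G = C ((F - G).coeff 0) := by
    apply eq_C_of_natDegree_le_zero
    rw [natDegree_le_iff_coeff_eq_zero]
    intro k hk
    rw [coeff_sub]
    by_cases hkN : k ≤ N
    · rw [hF, hG, Multiset.prod_X_sub_C_coeff s (by omega), Multiset.prod_X_sub_C_coeff t (by omega),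
        hsc, htc, esymm_eq_int a b h (N - k) (by omega), sub_self]
    · rw [coeff_eq_zero_of_natDegree_lt (by omega), coeff_eq_zero_of_natDegree_lt (by omega),
        sub_self]
  refine ⟨(F - G).coeff 0, fun h0 => hne ?_, fun x => ?_⟩
  · rw [h0, C_0, sub_eq_zero] at hC
    rw [← roots_multiset_prod_X_sub_C s, ← roots_multiset_prod_X_sub_C t]
    exact congrArg roots hC
  · have e := congrArg (eval x) hC
    rw [eval_C, eval_sub] at e
    rw [← e, hF, hG, hs, ht]
    simp only [eval_multiset_prod, Multiset.map_map, Function.comp_def, eval_sub, eval_X, eval_C]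
    rfl

/-- All rows and columns of the matrix `b j - a i` have the same product up to sign. -/
theorem exists_rows_cols {N : ℕ} (a b : Fin N → ℤ)
    (h : ∀ k, 1 ≤ k → k < N → ∑ i, a i ^ k = ∑ i, b i ^ k)
    (hne : univ.val.map a ≠ univ.val.map b) :
    ∃ c : ℕ, c ≠ 0 ∧ (∀ j, ∏ i, (b j - a i).natAbs = c) ∧ (∀ i, ∏ j, (b j - a i).natAbs = c) := by
  obtain ⟨c, hc, H⟩ := exists_const a b h hne
  refine ⟨c.natAbs, by simpa using hc, fun j => ?_, fun i => ?_⟩
  · have e := H (b j)
    rw [prod_eq_zero (f := fun l => b j - b l) (mem_univ j) (sub_self _), sub_zero] at e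
    rw [← e]
    exact (map_prod Int.natAbsHom _ _).symm
  · have e := H (a i)
    rw [prod_eq_zero (f := fun l => a i - a l) (mem_univ i) (sub_self _), zero_sub] at e
    rw [← e, Int.natAbs_neg]
    refine Eq.trans (prod_congr rfl fun j _ => ?_) (map_prod Int.natAbsHom _ _).symm
    show _ = (a i - b j).natAbs
    omega

end Pool.Agent.Lib.MP_4f0d88_nt
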