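import Mathlib

/-! Paucity of ideal Prouhet-Tarry-Escott solutions: definitions and parts of integers. -/

set_option autoImplicit false

namespace Pool.Agent.Lib.MP_4f0d88_nt

open Finset

/-- A pair of integer tuples. -/
abbrev Pr (N : ℕ) := (Fin N → ℤ) × (Fin N → ℤ)

/-- The distance `|b j - a i|`. -/
def dd {N : ℕ} (x : Pr N) (i j : Fin N) : ℕ := (x.2 j - x.1 i).natAbs

open Classical in
/-- The part of `d` made of the primes that satisfy `P`. -/
noncomputable def pt (P : ℕ → Prop) (d : ℕ) : ℕ :=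
  ∏ p ∈ d.primeFactors.filter P, p ^ d.factorization p

/-- Entries in `[0, X]`, all row and column products of the distances equal and nonzero. -/
def Sol {N : ℕ} (X : ℕ) (x : Pr N) : Prop :=
  (∀ i, 0 ≤ x.1 i ∧ x.1 i ≤ X) ∧ (∀ j, 0 ≤ x.2 j ∧ x.2 j ≤ X) ∧
    ∃ c : ℕ, c ≠ 0 ∧ (∀ j, ∏ i, dd x i j = c) ∧ (∀ i, ∏ j, dd x i j = c)

/-- Product of the differences of the chosen entries of `b`. -/
def del {N r : ℕ} (ρ : Fin r → Fin N) (x : Pr N) : ℕ :=
  ∏ j, ∏ j' ∈ univ.filter (· ≠ j), (x.2 (ρ j) - x.2 (ρ j')).natAbs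

/-- The integer known after `m` entries of `a` have been added. -/
def kn {N r : ℕ} (ρ : Fin r → Fin N) (x : Pr N) (m : ℕ) : ℕ :=
  del ρ x * ∏ i ∈ univ.filter (fun i : Fin N => i.val < m), ∏ j, dd x i (ρ j)

/-- The unknown part paid for the entry `a i`. -/
noncomputable def uu {N r : ℕ} (ρ : Fin r → Fin N) (J : Fin N → Fin r) (x : Pr N) (i : Fin N) :
    ℕ := pt (fun p => ¬ p ∣ kn ρ x i.val) (dd x i (ρ (J i)))

/-- The product of the paid parts. -/
noncomputable def mm {N r : ℕ} (ρ : Fin r → Fin N) (J : Fin N → Fin r) (s : ℕ) (x : Pr N) : ℕ :=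
  ∏ i ∈ univ.filter (fun i : Fin N => i.val < s), uu ρ J x i

/-- The known plain part of a distance. -/
noncomputable def KK {N r : ℕ} (ρ : Fin r → Fin N) (s : ℕ) (x : Pr N) (i : Fin N) (j : Fin r) :
    ℕ := pt (fun p => p ∣ kn ρ x s ∧ ¬ p ∣ del ρ x) (dd x i (ρ j))

/-- The first meeting part of the row `i`. -/
noncomputable def QQ {N : ℕ} (T : Finset (Fin N)) (x : Pr N) (i : Fin N) : ℕ :=
  ∏ j, pt (fun p => ∀ j' < j, ∀ i' ∈ T, ¬ p ∣ dd x i' j') (dd x i j)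

/-- A solution with given finite parameters. -/
def Par {N r : ℕ} (t : ℕ) (ρ : Fin r → Fin N) (j0 : Fin r) (J : Fin N → Fin r) (s : ℕ)
    (T : Finset (Fin N)) (i0 : Fin N) (X : ℕ) (x : Pr N) : Prop :=
  Sol X x ∧ Function.Injective (x.2 ∘ ρ) ∧ mm ρ J s x ^ (r ^ 2) ≤ X ^ (r * (t - 1) + N + r ^ 2) ∧
    (∀ i ∈ T, i.val < s ∨ pt (fun p => ¬ p ∣ del ρ x) (dd x i (ρ j0)) ≤ ∏ j, KK ρ s x i j) ∧
    i0 ∈ T ∧ QQ T x i0 ^ t ≤ X ^ N

theorem pt_ne_zero (P : ℕ → Prop) (d : ℕ) : pt P d ≠ 0 := by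
  classical
  unfold pt
  exact prod_ne_zero_iff.2 fun p hp =>
    pow_ne_zero _ (Nat.prime_of_mem_primeFactors (mem_filter.1 hp).1).ne_zero

open Classical in
theorem pt_fact (P : ℕ → Prop) (d q : ℕ) :
    (pt P d).factorization q = if P q then d.factorization q else 0 := by
  unfold pt
  rw [Nat.factorization_prod fun p hp =>
    pow_ne_zero _ (Nat.prime_of_mem_primeFactors (mem_filter.1 hp).1).ne_zero,
    Finsupp.finsetSum_apply]
  rw [sum_congr rfl (g := fun p => if p = q then d.factorization q else 0) fun p hp => by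
    rw [(Nat.prime_of_mem_primeFactors (mem_filter.1 hp).1).factorization_pow,
      Finsupp.single_apply]
    split_ifs with h
    · rw [h]
    · rfl]
  rw [sum_ite_eq']
  by_cases h : P q
  · by_cases h' : q ∈ d.primeFactors
    · simp only [mem_filter, h, h', and_self, if_true]
    · have : d.factorization q = 0 := by
        rwa [← Nat.support_factorization, Finsupp.notMem_support_iff] at h'
      simp [this]
  · simp [h]

theorem dvd_of_fact {a b : ℕ} (ha : a ≠ 0) (hb : b ≠ 0)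
    (h : ∀ p, p.Prime → a.factorization p ≤ b.factorization p) : a ∣ b :=
  (Nat.factorization_prime_le_iff_dvd ha hb).1 h

theorem pt_dvd (P : ℕ → Prop) {d : ℕ} (hd : d ≠ 0) : pt P d ∣ d := by
  refine dvd_of_fact (pt_ne_zero P d) hd fun p _ => ?_
  rw [pt_fact]; split_ifs <;> simp

theorem pt_le (P : ℕ → Prop) {d : ℕ} (hd : d ≠ 0) : pt P d ≤ d :=
  Nat.le_of_dvd (Nat.pos_of_ne_zero hd) (pt_dvd P hd)

theorem prime_dvd_pt (P : ℕ → Prop) {d p : ℕ} (hd : d ≠ 0) (hp : p.Prime) :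
    p ∣ pt P d ↔ P p ∧ p ∣ d := by
  rw [hp.dvd_iff_one_le_factorization (pt_ne_zero P d), hp.dvd_iff_one_le_factorization hd,
    pt_fact]
  split_ifs with h <;> simp [h]

theorem pt_mul_pt_not (P : ℕ → Prop) {d : ℕ} (hd : d ≠ 0) :
    pt P d * pt (fun p => ¬ P p) d = d := by
  refine Nat.eq_of_factorization_eq (mul_ne_zero (pt_ne_zero _ _) (pt_ne_zero _ _)) hd fun p => ?_
  rw [Nat.factorization_mul (pt_ne_zero _ _) (pt_ne_zero _ _), Finsupp.add_apply, pt_fact, pt_fact]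
  by_cases h : P p <;> simp [h]

theorem pt_prod (P : ℕ → Prop) {ι : Type} (s : Finset ι) (f : ι → ℕ) (hf : ∀ i ∈ s, f i ≠ 0) :
    pt P (∏ i ∈ s, f i) = ∏ i ∈ s, pt P (f i) := by
  refine Nat.eq_of_factorization_eq (pt_ne_zero _ _)
    (prod_ne_zero_iff.2 fun i _ => pt_ne_zero _ _) fun p => ?_
  rw [Nat.factorization_prod fun i _ => pt_ne_zero _ _, Finsupp.finsetSum_apply, pt_fact,
    Nat.factorization_prod hf, Finsupp.finsetSum_apply]
  simp only [pt_fact]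
  by_cases h : P p <;> simp [h]

theorem Sol.dd_ne {N X : ℕ} {x : Pr N} (h : Sol X x) (i j : Fin N) : dd x i j ≠ 0 := by
  obtain ⟨-, -, c, hc, -, h2⟩ := h
  exact prod_ne_zero_iff.1 (h2 i ▸ hc) j (mem_univ j)

theorem Sol.dd_le {N X : ℕ} {x : Pr N} (h : Sol X x) (i j : Fin N) : dd x i j ≤ X := by
  have h1 := h.1 i
  have h2 := h.2.1 j
  unfold dd
  omega

theorem del_ne {N r : ℕ} {ρ : Fin r → Fin N} {x : Pr N} (h : Function.Injective (x.2 ∘ ρ)) :
    del ρ x ≠ 0 := by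
  refine prod_ne_zero_iff.2 fun j _ => prod_ne_zero_iff.2 fun j' hj' h0 => ?_
  exact (mem_filter.1 hj').2 (h (show x.2 (ρ j') = x.2 (ρ j) by omega))

theorem kn_ne {N r X : ℕ} {ρ : Fin r → Fin N} {x : Pr N} (hs : Sol X x)
    (h : Function.Injective (x.2 ∘ ρ)) (m : ℕ) : kn ρ x m ≠ 0 :=
  mul_ne_zero (del_ne h)
    (prod_ne_zero_iff.2 fun i _ => prod_ne_zero_iff.2 fun j _ => hs.dd_ne i (ρ j))

/-- A prime dividing two distances in one row divides `del`. -/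
theorem dvd_del {N r : ℕ} (ρ : Fin r → Fin N) (x : Pr N) (i : Fin N) {j j' : Fin r} (h : j' ≠ j)
    {p : ℕ} (h1 : p ∣ dd x i (ρ j)) (h2 : p ∣ dd x i (ρ j')) : p ∣ del ρ x := by
  have h3 : p ∣ (x.2 (ρ j) - x.2 (ρ j')).natAbs := by
    rw [← Int.natCast_dvd]
    have := dvd_sub (Int.natCast_dvd.2 h1) (Int.natCast_dvd.2 h2)
    rwa [sub_sub_sub_cancel_right] at this
  exact h3.trans ((dvd_prod_of_mem _ (mem_filter.2 ⟨mem_univ j', h⟩)).trans
    (dvd_prod_of_mem (fun j => ∏ j' ∈ univ.filter (· ≠ j), (x.2 (ρ j) - x.2 (ρ j')).natAbs)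
      (mem_univ j)))

end Pool.Agent.Lib.MP_4f0d88_nt
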