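import Mathlib

/-! Rankin bound: integers of size at most `X` built from the primes of `n`. -/

set_option autoImplicit false

namespace Pool.Agent.Lib.MP_4f0d88_nt

open Finset

theorem euler_factor_le (δ : ℝ) (hδ : 0 < δ) : ∃ C : ℝ, 0 < C ∧ ∀ s : Finset ℕ,
    (∀ p ∈ s, p.Prime) →
      ∏ p ∈ s, (1 - (p : ℝ) ^ (-δ))⁻¹ ≤ C * ∏ p ∈ s, (p : ℝ) ^ δ := by
  have h2 : (2 : ℝ) ^ (-δ) < 1 := Real.rpow_lt_one_of_one_lt_of_neg (by norm_num) (by linarith)
  have h2p : 0 < (2 : ℝ) ^ (-δ) := by positivity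
  set M : ℝ := (1 - (2 : ℝ) ^ (-δ))⁻¹ with hM
  have hM1 : 1 ≤ M := by
    rw [hM]; exact (one_le_inv₀ (by linarith)).2 (by linarith)
  obtain ⟨P, hP⟩ : ∃ P : ℕ, ∀ p : ℕ, P ≤ p → M ≤ (p : ℝ) ^ δ := by
    have := ((tendsto_rpow_atTop hδ).comp tendsto_natCast_atTop_atTop).eventually_ge_atTop M
    exact Filter.eventually_atTop.1 this
  refine ⟨M ^ P, by positivity, fun s hs => ?_⟩
  have key : ∀ p ∈ s, (1 - (p : ℝ) ^ (-δ))⁻¹ ≤ (if p < P then M else 1) * (p : ℝ) ^ δ := by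
    intro p hp
    have hp2 : (2 : ℝ) ≤ p := by exact_mod_cast (hs p hp).two_le
    have h1 : (p : ℝ) ^ (-δ) ≤ (2 : ℝ) ^ (-δ) :=
      Real.rpow_le_rpow_of_nonpos (by norm_num) hp2 (by linarith)
    have h3 : (1 - (p : ℝ) ^ (-δ))⁻¹ ≤ M := inv_anti₀ (by linarith) (by linarith)
    have h4 : 1 ≤ (p : ℝ) ^ δ := Real.one_le_rpow (by linarith) hδ.le
    split_ifs with h
    · exact h3.trans (le_mul_of_one_le_right (by linarith) h4)
    · rw [one_mul]; exact h3.trans (hP p (by omega))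
  have nn : ∀ p ∈ s, 0 ≤ (1 - (p : ℝ) ^ (-δ))⁻¹ := by
    intro p hp
    have hp2 : (1 : ℝ) ≤ p := by exact_mod_cast (hs p hp).one_le
    have := Real.rpow_le_one_of_one_le_of_nonpos hp2 (show -δ ≤ 0 by linarith)
    exact inv_nonneg.2 (by linarith)
  refine (prod_le_prod nn key).trans ?_
  rw [prod_mul_distrib]
  refine mul_le_mul_of_nonneg_right ?_ (prod_nonneg fun p _ => by positivity)
  rw [prod_ite, prod_const, prod_const_one, mul_one]
  refine pow_le_pow_right₀ hM1 ?_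
  calc (s.filter (· < P)).card ≤ (range P).card :=
        card_le_card fun x hx => mem_range.2 (mem_filter.1 hx).2
    _ = P := card_range P

theorem toolS_nat (δ : ℝ) (hδ : 0 < δ) : ∃ C : ℝ, 0 < C ∧ ∀ (n : ℕ) (X : ℝ) (T : Finset ℕ),
    n ≠ 0 → (∀ d ∈ T, d ≠ 0 ∧ (d : ℝ) ≤ X ∧ ∀ p : ℕ, p.Prime → p ∣ d → p ∣ n) →
      0 < X → (T.card : ℝ) ≤ C * X ^ δ * (n : ℝ) ^ δ := by
  obtain ⟨C, hC, H⟩ := euler_factor_le δ hδ
  refine ⟨C, hC, fun n X T hn hT hX => ?_⟩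
  let f : ℕ →* ℝ :=
    { toFun := fun m => (m : ℝ) ^ (-δ)
      map_one' := by simp
      map_mul' := fun a b => by
        push_cast; exact Real.mul_rpow (by positivity) (by positivity) }
  have hf : ∀ {p : ℕ}, p.Prime → ‖f p‖ < 1 := by
    intro p hp
    have : (1 : ℝ) < p := by exact_mod_cast hp.one_lt
    show ‖(p : ℝ) ^ (-δ)‖ < 1
    rw [Real.norm_of_nonneg (by positivity)]
    exact Real.rpow_lt_one_of_one_lt_of_neg this (by linarith)
  obtain ⟨-, hs⟩ :=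
    EulerProduct.summable_and_hasSum_factoredNumbers_prod_filter_prime_geometric hf n.primeFactors
  have hfil : n.primeFactors.filter Nat.Prime = n.primeFactors :=
    filter_true_of_mem fun p hp => Nat.prime_of_mem_primeFactors hp
  rw [hfil] at hs
  have hmem : ∀ d ∈ T, d ∈ Nat.factoredNumbers n.primeFactors := fun d hd =>
    Nat.mem_factoredNumbers_of_primeFactors_subset (hT d hd).1 fun p hp =>
      Nat.mem_primeFactors.2 ⟨Nat.prime_of_mem_primeFactors hp,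
        (hT d hd).2.2 p (Nat.prime_of_mem_primeFactors hp) (Nat.dvd_of_mem_primeFactors hp), hn⟩
  have h1 : ∑ d ∈ T, f d ≤ ∏ p ∈ n.primeFactors, (1 - f p)⁻¹ := by
    have := sum_le_hasSum (T.subtype (· ∈ Nat.factoredNumbers n.primeFactors))
      (fun i _ => show 0 ≤ f i from Real.rpow_nonneg (Nat.cast_nonneg _) _) hs
    rwa [sum_subtype_of_mem (fun d => f d) hmem] at this
  have h2 : (T.card : ℝ) * X ^ (-δ) ≤ ∑ d ∈ T, f d := by
    rw [← nsmul_eq_mul]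
    refine card_nsmul_le_sum T _ _ fun d hd => ?_
    have : (0 : ℝ) < d := by exact_mod_cast Nat.pos_of_ne_zero (hT d hd).1
    exact Real.rpow_le_rpow_of_nonpos this (hT d hd).2.1 (by linarith)
  have h3 : ∏ p ∈ n.primeFactors, (p : ℝ) ^ δ ≤ (n : ℝ) ^ δ := by
    rw [Real.finset_prod_rpow _ _ (fun p _ => Nat.cast_nonneg p)]
    refine Real.rpow_le_rpow (prod_nonneg fun p _ => Nat.cast_nonneg p) ?_ hδ.le
    rw [← Nat.cast_prod]
    exact Nat.cast_le.2 (Nat.le_of_dvd (Nat.pos_of_ne_zero hn) (Nat.prod_primeFactors_dvd n))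
  have h4 := H n.primeFactors fun p hp => Nat.prime_of_mem_primeFactors hp
  have h5 : (T.card : ℝ) * X ^ (-δ) ≤ C * (n : ℝ) ^ δ :=
    h2.trans (h1.trans (h4.trans (mul_le_mul_of_nonneg_left h3 hC.le)))
  have h6 : 0 < X ^ δ := Real.rpow_pos_of_pos hX δ
  rw [Real.rpow_neg hX.le, ← div_eq_mul_inv, div_le_iff₀ h6] at h5
  linarith

/-- Tool S over the integers. -/
theorem toolS (δ : ℝ) (hδ : 0 < δ) : ∃ C : ℝ, 0 < C ∧ ∀ (n : ℤ) (X : ℝ) (T : Finset ℤ),
    n ≠ 0 → (∀ d ∈ T, d ≠ 0 ∧ |(d : ℝ)| ≤ X ∧ ∀ p : ℕ, p.Prime → (p : ℤ) ∣ d → (p : ℤ) ∣ n) →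
      0 < X → (T.card : ℝ) ≤ C * X ^ δ * |(n : ℝ)| ^ δ := by
  obtain ⟨C, hC, H⟩ := toolS_nat δ hδ
  refine ⟨2 * C, by positivity, fun n X T hn hT hX => ?_⟩
  have h1 := H n.natAbs X (T.image Int.natAbs) (by simpa using hn) (by
    intro d hd
    obtain ⟨e, he, rfl⟩ := mem_image.1 hd
    refine ⟨by simpa using (hT e he).1, by simpa using (hT e he).2.1, fun p hp h => ?_⟩
    exact Int.natCast_dvd.1 ((hT e he).2.2 p hp (Int.natCast_dvd.2 h))) hX
  have h2 : T.card ≤ 2 * (T.image Int.natAbs).card := by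
    refine card_le_mul_card_image T 2 fun b _ => ?_
    calc _ ≤ ({(b : ℤ), -(b : ℤ)} : Finset ℤ).card := card_le_card fun x hx => by
            have := (mem_filter.1 hx).2
            simp only [mem_insert, mem_singleton]; omega
      _ ≤ 2 := card_le_two
  have h3 : (T.card : ℝ) ≤ 2 * ((T.image Int.natAbs).card : ℝ) := by exact_mod_cast h2
  have h4 : ((n.natAbs : ℕ) : ℝ) = |(n : ℝ)| := by simp
  rw [h4] at h1
  linarith

end Pool.Agent.Lib.MP_4f0d88_nt
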