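import Pool.Agent.Lib.MP_4f0d88_nt.PcS

/-! A small calculus of counting costs, measured as exponents of `X`. -/

set_option autoImplicit false

namespace Pool.Agent.Lib.MP_4f0d88_nt

open Finset

/-- On the family `S`, the value of `g` has at most `X ^ (e + ε)` choices once `f` is known. -/
def Cost {σ α β : Type} (S : ℕ → σ → Prop) (f : σ → α) (g : σ → β) (e : ℝ) : Prop :=
  ∀ ε : ℝ, 0 < ε → ∃ C : ℝ, 0 < C ∧ ∀ X : ℕ, 1 ≤ X → ∀ (y : α) (T : Finset β),
    (∀ z ∈ T, ∃ x, S X x ∧ f x = y ∧ g x = z) → (T.card : ℝ) ≤ C * (X : ℝ) ^ (e + ε)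

/-- Polynomially bounded on the family `S`. -/
def Bd {σ : Type} (S : ℕ → σ → Prop) (n : σ → ℕ) : Prop :=
  ∃ A : ℕ, ∀ X x, 1 ≤ X → S X x → n x ≤ X ^ A

variable {σ α β γ : Type} {S : ℕ → σ → Prop}

theorem Bd.mul {n m : σ → ℕ} (hn : Bd S n) (hm : Bd S m) : Bd S fun x => n x * m x := by
  obtain ⟨A, hA⟩ := hn
  obtain ⟨B, hB⟩ := hm
  exact ⟨A + B, fun X x h1 h2 => pow_add X A B ▸ Nat.mul_le_mul (hA X x h1 h2) (hB X x h1 h2)⟩

theorem Bd.prod {ι : Type} (s : Finset ι) {n : ι → σ → ℕ} (h : ∀ i ∈ s, Bd S (n i)) :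
    Bd S fun x => ∏ i ∈ s, n i x := by
  classical
  induction s using Finset.induction_on with
  | empty => exact ⟨0, fun X x _ _ => by simp⟩
  | insert a s ha ih =>
    simp only [prod_insert ha]
    exact (h a (mem_insert_self _ _)).mul (ih fun i hi => h i (mem_insert_of_mem hi))

theorem Bd.of_le {n m : σ → ℕ} (hm : Bd S m) (h : ∀ X x, S X x → n x ≤ m x) : Bd S n := by
  obtain ⟨A, hA⟩ := hm
  exact ⟨A, fun X x h1 h2 => (h X x h2).trans (hA X x h1 h2)⟩

theorem Bd.of_le_X {n : σ → ℕ} (h : ∀ X x, S X x → n x ≤ X) : Bd S n :=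
  ⟨1, fun X x _ h2 => by simpa using h X x h2⟩

theorem one_le_X_rpow {X : ℕ} (hX : 1 ≤ X) {e : ℝ} (he : 0 ≤ e) : (1 : ℝ) ≤ (X : ℝ) ^ e :=
  Real.one_le_rpow (by exact_mod_cast hX) he

theorem Cost.mono {f : σ → α} {g : σ → β} {e e' : ℝ} (h : Cost S f g e) (he : e ≤ e') :
    Cost S f g e' := by
  intro ε hε
  obtain ⟨C, hC, H⟩ := h ε hε
  refine ⟨C, hC, fun X hX y T hT => (H X hX y T hT).trans ?_⟩
  exact mul_le_mul_of_nonneg_left
    (Real.rpow_le_rpow_of_exponent_le (by exact_mod_cast hX) (by linarith)) hC.le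

theorem Cost.trans {f : σ → α} {g : σ → β} {h : σ → γ} {e e' : ℝ} (h1 : Cost S f g e)
    (h2 : Cost S (fun x => (f x, g x)) h e') : Cost S f h (e + e') := by
  classical
  intro ε hε
  obtain ⟨C, hC, H⟩ := h1 (ε / 2) (by linarith)
  obtain ⟨C', hC', H'⟩ := h2 (ε / 2) (by linarith)
  refine ⟨C * C', by positivity, fun X hX y T hT => ?_⟩
  have hX0 : (0 : ℝ) < X := by exact_mod_cast hX
  rcases T.eq_empty_or_nonempty with rfl | ⟨z0, hz0⟩
  · simp only [card_empty, Nat.cast_zero]; positivity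
  haveI : Nonempty σ := ⟨(hT z0 hz0).choose⟩
  choose! w hw using hT
  have e1 := card_eq_sum_card_image (fun z => g (w z)) T
  have e2 : ∀ v ∈ T.image (fun z => g (w z)),
      ((T.filter fun z => g (w z) = v).card : ℝ) ≤ C' * (X : ℝ) ^ (e' + ε / 2) := by
    intro v _
    refine H' X hX (y, v) _ fun z hz => ?_
    obtain ⟨hz1, hz2⟩ := mem_filter.1 hz
    exact ⟨w z, (hw z hz1).1, Prod.ext (hw z hz1).2.1 hz2, (hw z hz1).2.2⟩
  have e3 := H X hX y (T.image fun z => g (w z)) fun v hv => by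
    obtain ⟨z, hz, rfl⟩ := mem_image.1 hv
    exact ⟨w z, (hw z hz).1, (hw z hz).2.1, rfl⟩
  have e4 := sum_le_card_nsmul _ _ _ e2
  rw [e1, Nat.cast_sum]
  refine e4.trans ?_
  rw [nsmul_eq_mul]
  refine (mul_le_mul_of_nonneg_right e3 (by positivity)).trans (le_of_eq ?_)
  rw [show e + e' + ε = (e + ε / 2) + (e' + ε / 2) by ring, Real.rpow_add hX0 (e + ε / 2)]
  ring

theorem Cost.det {f : σ → α} {g : σ → β}
    (h : ∀ X x x', S X x → S X x' → f x = f x' → g x = g x') : Cost S f g 0 := by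
  intro ε hε
  refine ⟨1, one_pos, fun X hX y T hT => ?_⟩
  have : T.card ≤ 1 := card_le_one.2 fun a ha b hb => by
    obtain ⟨x, h1, h2, rfl⟩ := hT a ha
    obtain ⟨x', h1', h2', rfl⟩ := hT b hb
    exact h X x x' h1 h1' (h2.trans h2'.symm)
  have h3 : (T.card : ℝ) ≤ 1 := by exact_mod_cast this
  rw [one_mul]
  exact h3.trans (one_le_X_rpow hX (by linarith))

theorem Cost.weak {f : σ → α} {f' : σ → γ} {g : σ → β} {e : ℝ} (h1 : Cost S f g e)
    (h : ∀ X x x', S X x → S X x' → f' x = f' x' → f x = f x') : Cost S f' g e := by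
  intro ε hε
  obtain ⟨C, hC, H⟩ := h1 ε hε
  refine ⟨C, hC, fun X hX y T hT => ?_⟩
  rcases T.eq_empty_or_nonempty with rfl | ⟨z0, hz0⟩
  · simp only [card_empty, Nat.cast_zero]; positivity
  obtain ⟨x0, a1, a2, -⟩ := hT z0 hz0
  refine H X hX (f x0) T fun z hz => ?_
  obtain ⟨x, b1, b2, b3⟩ := hT z hz
  exact ⟨x, b1, h X x x0 b1 a1 (b2.trans a2.symm), b3⟩

theorem Cost.dep {f : σ → α} {g : σ → β} {h : σ → γ} {e : ℝ} (h1 : Cost S f g e)
    (h2 : ∀ X x x', S X x → S X x' → f x = f x' → g x = g x' → h x = h x') : Cost S f h e := by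
  have := h1.trans (Cost.det (g := h) fun X x x' a b c =>
    h2 X x x' a b (congrArg Prod.fst c) (congrArg Prod.snd c))
  rwa [add_zero] at this

theorem Cost.pair {f : σ → α} {g : σ → β} {h : σ → γ} {e e' : ℝ} (h1 : Cost S f g e)
    (h2 : Cost S f h e') : Cost S f (fun x => (g x, h x)) (e + e') :=
  h1.trans ((h2.weak fun _ _ _ _ _ c => congrArg Prod.fst c).dep fun _ _ _ _ _ c d =>
    Prod.ext (congrArg Prod.snd c) d)

theorem Cost.pair0 {f : σ → α} {g : σ → β} {h : σ → γ} (h1 : Cost S f g 0)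
    (h2 : Cost S f h 0) : Cost S f (fun x => (g x, h x)) 0 := by
  simpa using h1.pair h2

theorem Cost.pi {ι : Type} [Fintype ι] {f : σ → α} {g : ι → σ → β} {e : ℝ}
    (h : ∀ i, Cost S f (g i) e) : Cost S f (fun x i => g i x) (Fintype.card ι * e) := by
  classical
  have key : ∀ s : Finset ι,
      Cost S f (fun x i => if i ∈ s then some (g i x) else none) (s.card * e) := by
    intro s
    induction s using Finset.induction_on with
    | empty =>
      rw [card_empty, Nat.cast_zero, zero_mul]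
      exact Cost.det fun _ _ _ _ _ _ => by simp
    | insert a s ha ih =>
      rw [card_insert_of_notMem ha, Nat.cast_succ, add_mul, one_mul]
      refine (ih.pair (h a)).dep fun X x x' _ _ _ c => funext fun i => ?_
      have c1 := congrFun (congrArg Prod.fst c) i
      have c2 : g a x = g a x' := congrArg Prod.snd c
      by_cases hi : i = a
      · subst hi; simp [c2]
      · simpa [hi] using c1
  exact (key univ).dep fun X x x' _ _ _ c => funext fun i => by simpa using congrFun c i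

theorem Cost.pi0 {ι : Type} [Fintype ι] {f : σ → α} {g : ι → σ → β}
    (h : ∀ i, Cost S f (g i) 0) : Cost S f (fun x i => g i x) 0 := by
  simpa using Cost.pi h

/-- Known on a set of indices. -/
theorem Cost.piOn {ι : Type} [Fintype ι] {f : σ → α} {g : ι → σ → β} {h : σ → γ} (Q : ι → Prop)
    (h1 : ∀ i, Q i → Cost S f (g i) 0)
    (h2 : ∀ X x x', S X x → S X x' → f x = f x' → (∀ i, Q i → g i x = g i x') → h x = h x') :
    Cost S f h 0 := by
  classical
  exact (Cost.pi0 (ι := {i // Q i}) (g := fun i => g i.1) fun i => h1 i.1 i.2).dep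
    fun X x x' a b c d => h2 X x x' a b c fun i hi => congrFun d ⟨i, hi⟩

theorem Cost.fin {f : σ → α} {g : σ → β} (A : Finset β) (h : ∀ X x, S X x → g x ∈ A) :
    Cost S f g 0 := by
  intro ε hε
  refine ⟨A.card + 1, by positivity, fun X hX y T hT => ?_⟩
  have : T.card ≤ A.card := card_le_card fun z hz => by
    obtain ⟨x, h1, -, rfl⟩ := hT z hz
    exact h X x h1
  have h3 : (T.card : ℝ) ≤ A.card := by exact_mod_cast this
  have h4 := one_le_X_rpow hX (show 0 ≤ 0 + ε by linarith)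
  nlinarith [Nat.cast_nonneg (α := ℝ) A.card]

theorem Cost.range {f : σ → α} {g : σ → ℕ} {e : ℝ} (he : 0 ≤ e)
    (h : ∀ X x, 1 ≤ X → S X x → (g x : ℝ) ≤ (X : ℝ) ^ e) : Cost S f g e := by
  intro ε hε
  refine ⟨2, two_pos, fun X hX y T hT => ?_⟩
  have h1 := one_le_X_rpow hX he
  have : T.card ≤ (Finset.range (⌊(X : ℝ) ^ e⌋₊ + 1)).card := card_le_card fun z hz => by
    obtain ⟨x, h1, -, rfl⟩ := hT z hz
    exact mem_range.2 (Nat.lt_succ_of_le (Nat.le_floor (h X x hX h1)))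
  rw [card_range] at this
  have h3 : (T.card : ℝ) ≤ ⌊(X : ℝ) ^ e⌋₊ + 1 := by exact_mod_cast this
  have h4 := Nat.floor_le (show (0 : ℝ) ≤ (X : ℝ) ^ e by linarith)
  have h5 : (X : ℝ) ^ e ≤ (X : ℝ) ^ (e + ε) :=
    Real.rpow_le_rpow_of_exponent_le (by exact_mod_cast hX) (by linarith)
  linarith

theorem Cost.box {f : σ → α} {g : σ → ℤ} (h : ∀ X x, S X x → 0 ≤ g x ∧ g x ≤ X) :
    Cost S f g 1 := by
  refine (Cost.range (g := fun x => (g x).toNat) zero_le_one fun X x _ hx => ?_).dep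
    fun X x x' a b _ c => ?_
  · have := h X x hx
    rw [Real.rpow_one]
    exact_mod_cast (show (g x).toNat ≤ X by omega)
  · have := h X x a
    have := h X x' b
    omega

/-- An integer whose primes divide a known integer is free. -/
theorem Cost.free {f : σ → α} {n : σ → ℕ} {d : σ → ℤ} (hn : Cost S f n 0) (b1 : Bd S n)
    (b2 : Bd S fun x => (d x).natAbs)
    (h : ∀ X x, S X x → n x ≠ 0 ∧ (d x).natAbs ≠ 0 ∧
      ∀ p : ℕ, p.Prime → p ∣ (d x).natAbs → p ∣ n x) : Cost S f d 0 := by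
  have key : Cost S n d 0 := by
    obtain ⟨A, hA⟩ := b1
    obtain ⟨B, hB⟩ := b2
    intro ε hε
    set δ : ℝ := ε / (A + B + 1) with hδ
    have hδ0 : 0 < δ := by positivity
    obtain ⟨C, hC, H⟩ := toolS δ hδ0
    refine ⟨C, hC, fun X hX y T hT => ?_⟩
    have hX0 : (0 : ℝ) < X := by exact_mod_cast hX
    rcases T.eq_empty_or_nonempty with rfl | ⟨z0, hz0⟩
    · simp only [card_empty, Nat.cast_zero]; positivity
    obtain ⟨x0, a1, a2, -⟩ := hT z0 hz0
    have hy : y ≠ 0 := a2 ▸ (h X x0 a1).1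
    have hy' : (y : ℝ) ≤ (X : ℝ) ^ A := by exact_mod_cast a2 ▸ hA X x0 hX a1
    refine (H y ((X : ℝ) ^ B) T (by exact_mod_cast hy) (fun z hz => ?_) (by positivity)).trans ?_
    · obtain ⟨x, c1, rfl, rfl⟩ := hT z hz
      refine ⟨by simpa using (h X x c1).2.1, ?_, fun p hp hd => ?_⟩
      · have : (((d x).natAbs : ℕ) : ℝ) ≤ (X : ℝ) ^ B := by exact_mod_cast hB X x hX c1
        simpa using this
      · exact Int.natCast_dvd_natCast.2 ((h X x c1).2.2 p hp (Int.natCast_dvd.1 hd))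
    · rw [mul_assoc]
      refine mul_le_mul_of_nonneg_left ?_ hC.le
      rw [Int.cast_natCast, Nat.abs_cast]
      calc ((X : ℝ) ^ B) ^ δ * (y : ℝ) ^ δ ≤ ((X : ℝ) ^ B) ^ δ * ((X : ℝ) ^ A) ^ δ := by
            gcongr
        _ = (X : ℝ) ^ ((A + B) * δ) := by
            rw [← Real.rpow_natCast, ← Real.rpow_natCast, ← Real.rpow_mul hX0.le,
              ← Real.rpow_mul hX0.le, ← Real.rpow_add hX0]
            congr 1; ring
        _ ≤ _ := by
            refine Real.rpow_le_rpow_of_exponent_le (by exact_mod_cast hX) ?_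
            have : (A + B + 1 : ℝ) * δ = ε := by rw [hδ]; field_simp
            nlinarith
  have := hn.trans (key.weak fun _ _ _ _ _ c => congrArg Prod.snd c)
  rwa [add_zero] at this

theorem Cost.freeN {f : σ → α} {n d : σ → ℕ} (hn : Cost S f n 0) (b1 : Bd S n) (b2 : Bd S d)
    (h : ∀ X x, S X x → n x ≠ 0 ∧ d x ≠ 0 ∧ ∀ p : ℕ, p.Prime → p ∣ d x → p ∣ n x) :
    Cost S f d 0 :=
  (Cost.free (d := fun x => (d x : ℤ)) hn b1 (by simpa using b2) (by simpa using h)).dep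
    fun _ _ _ _ _ _ c => by exact_mod_cast c

/-- Finitely many cases. -/
theorem Cost.cases {κ : Type} [Fintype κ] {f : σ → α} {g : σ → β} {e : ℝ}
    (S' : κ → ℕ → σ → Prop) (h : ∀ k, Cost (S' k) f g e)
    (hS : ∀ X x, 1 ≤ X → S X x → ∃ k, S' k X x) : Cost S f g e := by
  classical
  intro ε hε
  choose C hC H using fun k => h k ε hε
  have h0 : 0 ≤ ∑ k, C k := sum_nonneg fun k _ => (hC k).le
  refine ⟨∑ k, C k + 1, by positivity, fun X hX y T hT => ?_⟩
  have h1 : T ⊆ univ.biUnion fun k => T.filter fun z => ∃ x, S' k X x ∧ f x = y ∧ g x = z := by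
    intro z hz
    obtain ⟨x, a, b, c⟩ := hT z hz
    obtain ⟨k, hk⟩ := hS X x hX a
    exact mem_biUnion.2 ⟨k, mem_univ k, mem_filter.2 ⟨hz, x, hk, b, c⟩⟩
  have h2 := (card_le_card h1).trans card_biUnion_le
  have h3 : (T.card : ℝ) ≤
      ∑ k, ((T.filter fun z => ∃ x, S' k X x ∧ f x = y ∧ g x = z).card : ℝ) := by
    exact_mod_cast h2
  refine h3.trans ((sum_le_sum fun k _ => H k X hX y _ fun z hz => (mem_filter.1 hz).2).trans ?_)
  rw [← sum_mul]
  exact mul_le_mul_of_nonneg_right (by linarith) (by positivity)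

/-- Change of the family. -/
theorem Cost.comap {τ : Type} {S' : ℕ → τ → Prop} {f' : τ → γ} {g' : τ → β} {e : ℝ}
    (h' : Cost S' f' g' e) (ψ : σ → τ) (h : ∀ X x, 1 ≤ X → S X x → S' X (ψ x)) :
    Cost S (fun x => f' (ψ x)) (fun x => g' (ψ x)) e := by
  intro ε hε
  obtain ⟨C, hC, H⟩ := h' ε hε
  refine ⟨C, hC, fun X hX y T hT => H X hX y T fun z hz => ?_⟩
  obtain ⟨x, a, b, c⟩ := hT z hz
  exact ⟨ψ x, h X x hX a, b, c⟩

end Pool.Agent.Lib.MP_4f0d88_nt
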