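import Mathlib

/-! Paucity of ideal Prouhet-Tarry-Escott solutions, logarithmic exponent: definitions. -/

set_option autoImplicit false

namespace Pool.Agent.Lib.MP_4f0d88_nt

open Finset Module

/-- The index set: `inl i` for the entry `a i`, `inr j` for the entry `b j`. -/
abbrev Vx (N : ℕ) := Fin N ⊕ Fin N

/-- The distance `|b j - a i|`. -/
def dz {N : ℕ} (s : Vx N → ℤ) (i j : Fin N) : ℕ := (s (.inr j) - s (.inl i)).natAbs

/-- Entries in `[0, X]`, all row and column products of the distances equal and nonzero. -/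
def Sl {N : ℕ} (X : ℕ) (s : Vx N → ℤ) : Prop :=
  (∀ v, 0 ≤ s v ∧ s v ≤ X) ∧
    ∃ c : ℕ, c ≠ 0 ∧ (∀ j, ∏ i, dz s i j = c) ∧ (∀ i, ∏ j, dz s i j = c)

/-- The differences of the points of `S`. -/
def Df {V : Type} (S : Finset (V → ℤ)) : Set (V → ℤ) := {z | ∃ s ∈ S, ∃ t ∈ S, z = s - t}

/-- The span over `R` of a set of integer vectors. -/
def sp (R : Type) [Field R] {V : Type} (D : Set (V → ℤ)) : Submodule R (V → R) :=
  Submodule.span R ((fun z v => ((z v : ℤ) : R)) '' D)

/-- The rank over `R` of a set of integer vectors. -/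
noncomputable def rk (R : Type) [Field R] {V : Type} (D : Set (V → ℤ)) : ℕ :=
  finrank R (sp R D)

/-- The differences `b j - a i` on the pairs of `π`. -/
def phi (R : Type) [CommRing R] {N : ℕ} (π : Finset (Fin N × Fin N)) :
    (Vx N → R) →ₗ[R] (Fin N × Fin N → R) where
  toFun z e := if e ∈ π then z (.inr e.2) - z (.inl e.1) else 0
  map_add' x y := by
    ext e; simp only [Pi.add_apply]; split_ifs <;> ring
  map_smul' c x := by
    ext e; simp only [Pi.smul_apply, smul_eq_mul, RingHom.id_apply]; split_ifs <;> ring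

/-- The vectors vanishing on `J`. -/
def Zs {V : Type} (J : Finset V) : Submodule ℝ (V → ℝ) where
  carrier := {z | ∀ v ∈ J, z v = 0}
  add_mem' hx hy v hv := by rw [Pi.add_apply, hx v hv, hy v hv, add_zero]
  zero_mem' _ _ := rfl
  smul_mem' c x hx v hv := by rw [Pi.smul_apply, hx v hv, smul_zero]

/-- The pairs whose distance is divisible by `p`. -/
def prs {N : ℕ} (s : Vx N → ℤ) (p : ℕ) : Finset (Fin N × Fin N) :=
  univ.filter fun e => p ∣ dz s e.1 e.2

/-- The distance from the entry `v` to the base entry on the other side. -/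
def ee {N : ℕ} (o : Fin N) (s : Vx N → ℤ) : Vx N → ℕ
  | .inl i => dz s i o
  | .inr j => dz s o j

theorem mem_Zs {V : Type} {J : Finset V} {z : V → ℝ} : z ∈ Zs J ↔ ∀ v ∈ J, z v = 0 := Iff.rfl

theorem phi_apply (R : Type) [CommRing R] {N : ℕ} (π : Finset (Fin N × Fin N)) (z : Vx N → R)
    (e : Fin N × Fin N) :
    phi R π z e = if e ∈ π then z (.inr e.2) - z (.inl e.1) else 0 := rfl

theorem Sl.dz_ne {N X : ℕ} {s : Vx N → ℤ} (h : Sl X s) (i j : Fin N) : dz s i j ≠ 0 := by
  obtain ⟨-, c, hc, -, h2⟩ := h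
  exact prod_ne_zero_iff.1 (h2 i ▸ hc) j (mem_univ j)

theorem Sl.dz_le {N X : ℕ} {s : Vx N → ℤ} (h : Sl X s) (i j : Fin N) : dz s i j ≤ X := by
  have h1 := h.1 (.inl i)
  have h2 := h.1 (.inr j)
  unfold dz
  omega

end Pool.Agent.Lib.MP_4f0d88_nt
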