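import Pool.Agent.Lib.MP_4f0d88_nt.LOne
import Pool.Agent.Lib.MP_4f0d88_nt.PcA
import Pool.Agent.Lib.MP_4f0d88_nt.PlD

/-! From integer polynomials with a high order zero at one to pairs of tuples. -/

set_option autoImplicit false

open Polynomial Finset

namespace Pool.Agent.Lib.MP_4f0d88_nt

/-- The polynomial attached to a pair of tuples. -/
noncomputable def polyOf {N : ℕ} (x : Vx N → ℤ) : ℤ[X] :=
  ∑ i, X ^ (x (.inl i)).toNat - ∑ j, X ^ (x (.inr j)).toNat

theorem exists_tuple {N : ℕ} (M : Multiset ℕ) (hM : M.card = N) :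
    ∃ f : Fin N → ℕ, M = univ.val.map f := by
  induction M using Quotient.inductionOn with
  | _ l =>
    have hl : l.length = N := by simpa using hM
    subst hl
    exact ⟨l.get, by rw [Fin.univ_val_map, List.ofFn_get]; rfl⟩

theorem exists_sol (N D : ℕ) (hN : 1 ≤ N) (P : ℤ[X]) (h0 : P ≠ 0)
    (hl : ∑ i ∈ P.support, |P.coeff i| ≤ 2 * (N : ℤ)) (hm : (X - 1) ^ N ∣ P)
    (hD : P.natDegree ≤ D) : ∃ x : Vx N → ℤ, Sl D x ∧ polyOf x = P := by
  classical
  set A0 := ∑ i ∈ P.support, Multiset.replicate (P.coeff i).toNat i with hA0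
  set B0 := ∑ i ∈ P.support, Multiset.replicate (-P.coeff i).toNat i with hB0
  have hsplit0 : ∀ {M : Type} [CommRing M] (f : ℕ → M),
      ∑ i ∈ P.support, (P.coeff i : M) * f i = (A0.map f).sum - (B0.map f).sum := by
    intro M _ f
    rw [hA0, hB0, map_sum_replicate, map_sum_replicate, ← Finset.sum_sub_distrib]
    refine Finset.sum_congr rfl fun i _ => ?_
    rw [← sub_mul]
    congr 1
    conv_lhs => rw [← Int.toNat_sub_toNat_neg (P.coeff i)]
    rw [Int.cast_sub, Int.cast_natCast, Int.cast_natCast]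
  have hpow0 : ∀ k, k < N → ∑ i ∈ P.support, P.coeff i * (i : ℤ) ^ k = 0 := by
    intro k hk
    have hd : (X - C (1 : ℤ)) ^ (k + 1) ∣ P := by
      rw [C_1]; exact (pow_dvd_pow _ (by omega)).trans hm
    rw [P.as_sum_support_C_mul_X_pow] at hd
    exact sum_pow_eq_zero k _ _ hd
  have hcA : (A0.card : ℤ) = ∑ i ∈ P.support, ((P.coeff i).toNat : ℤ) := by
    rw [hA0, Multiset.card_sum, Nat.cast_sum]
    simp only [Multiset.card_replicate]
  have hcB : (B0.card : ℤ) = ∑ i ∈ P.support, ((-P.coeff i).toNat : ℤ) := by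
    rw [hB0, Multiset.card_sum, Nat.cast_sum]
    simp only [Multiset.card_replicate]
  have hsum : (A0.card : ℤ) + B0.card ≤ 2 * N := by
    rw [hcA, hcB, ← Finset.sum_add_distrib]
    refine le_trans (le_of_eq (Finset.sum_congr rfl fun i _ => ?_)) hl
    rcases abs_cases (P.coeff i) with h | h <;> omega
  have hAB : (A0.card : ℤ) = B0.card := by
    have e := hsplit0 (M := ℤ) (fun i => (i : ℤ) ^ 0)
    simp only [Int.cast_id] at e
    rw [hpow0 0 (by omega)] at e
    simp at e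
    linarith
  have hle : ∀ (n : ℕ → ℕ) (m y : ℕ), y ∈ ∑ i ∈ P.support, Multiset.replicate (n i) i +
      Multiset.replicate m 0 → y ≤ D := by
    intro n m y hy
    rcases Multiset.mem_add.1 hy with h | h
    · obtain ⟨i, hi, h⟩ := Multiset.mem_sum.1 h
      rw [Multiset.eq_of_mem_replicate h]
      exact (le_natDegree_of_mem_supp i hi).trans hD
    · rw [Multiset.eq_of_mem_replicate h]
      exact Nat.zero_le _
  have hAle := hle (fun i => (P.coeff i).toNat) (N - A0.card)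
  have hBle := hle (fun i => (-P.coeff i).toNat) (N - A0.card)
  rw [← hA0] at hAle
  rw [← hB0] at hBle
  set A := A0 + Multiset.replicate (N - A0.card) 0 with hA
  set B := B0 + Multiset.replicate (N - A0.card) 0 with hB
  have hAN : A.card = N := by rw [hA, Multiset.card_add, Multiset.card_replicate]; omega
  have hBN : B.card = N := by rw [hB, Multiset.card_add, Multiset.card_replicate]; omega
  have hsplit : ∀ {M : Type} [CommRing M] (f : ℕ → M),
      ∑ i ∈ P.support, (P.coeff i : M) * f i = (A.map f).sum - (B.map f).sum := by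
    intro M _ f
    rw [hsplit0, hA, hB, Multiset.map_add, Multiset.map_add, Multiset.sum_add, Multiset.sum_add]
    ring
  obtain ⟨a, ha⟩ := exists_tuple A hAN
  obtain ⟨b, hb⟩ := exists_tuple B hBN
  have hs : ∀ {M : Type} [CommRing M] (f : ℕ → M),
      ∑ i ∈ P.support, (P.coeff i : M) * f i = ∑ i, f (a i) - ∑ j, f (b j) := by
    intro M _ f
    rw [hsplit, ha, hb, Multiset.map_map, Multiset.map_map]
    rfl
  have hP : ∑ i, (X : ℤ[X]) ^ a i - ∑ j, X ^ b j = P := by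
    rw [← hs (M := ℤ[X]) (fun i => X ^ i)]
    conv_rhs => rw [P.as_sum_support_C_mul_X_pow]
    simp
  have hbox : ∀ (f : Fin N → ℕ) (M : Multiset ℕ), M = univ.val.map f → (∀ y ∈ M, y ≤ D) →
      ∀ i, (0 : ℤ) ≤ f i ∧ (f i : ℤ) ≤ D := fun f M h1 h2 i =>
    ⟨Int.natCast_nonneg _, Int.ofNat_le.2 (h2 _ (h1 ▸ Multiset.mem_map_of_mem f (mem_univ i)))⟩
  refine ⟨Sum.elim (fun i => a i) fun j => b j,
    ⟨fun v => Sum.rec (hbox a A ha hAle) (hbox b B hb hBle) v, ?_⟩, ?_⟩
  · refine exists_rows_cols (fun i => (a i : ℤ)) (fun j => (b j : ℤ)) (fun k _ hk => ?_) fun h => ?_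
    · have e := hs (M := ℤ) (fun i => (i : ℤ) ^ k)
      simp only [Int.cast_id] at e
      rw [hpow0 k hk] at e
      linarith
    · have := congrArg (fun m : Multiset ℤ => (m.map fun z => (X : ℤ[X]) ^ z.toNat).sum) h
      simp only [Multiset.map_map, Function.comp_def, Int.toNat_natCast] at this
      apply h0
      rw [← hP, sub_eq_zero]
      exact this
  · simpa [polyOf] using hP

/-- Transfer of a count of pairs to a count of polynomials. -/
theorem card_le_of_sol (N D : ℕ) (hN : 1 ≤ N) (Y : ℝ)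
    (h : ∀ G : Finset (Vx N → ℤ), (∀ x ∈ G, Sl D x) → (G.card : ℝ) ≤ Y) (F : Finset ℤ[X])
    (hF : ∀ P ∈ F, P ≠ 0 ∧ P.natDegree ≤ D ∧ ∑ i ∈ P.support, |P.coeff i| ≤ 2 * (N : ℤ) ∧
      (X - 1) ^ N ∣ P) : (F.card : ℝ) ≤ Y := by
  classical
  choose! w hw using fun P hP => exists_sol N D hN P (hF P hP).1 (hF P hP).2.2.1 (hF P hP).2.2.2
    (hF P hP).2.1
  rw [← card_image_of_injOn (f := w) fun P hP Q hQ e => by
    rw [← (hw P hP).2, ← (hw Q hQ).2, e]]
  refine h _ fun x hx => ?_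
  obtain ⟨P, hP, rfl⟩ := mem_image.1 hx
  exact (hw P hP).1

theorem exists_rounds (N : ℕ) (hN : 1 ≤ N) :
    ∃ k : ℕ, 2 * N * 7 ^ k < 8 ^ k ∧ ((28 * k : ℕ) : ℝ) ≤ 270 * Real.log (2 * N) := by
  have hN' : (2 : ℝ) ≤ 2 * N := by
    have : (1 : ℝ) ≤ N := by exact_mod_cast hN
    linarith
  have h2 : Real.log 2 ≤ Real.log (2 * N) := Real.log_le_log two_pos hN'
  have h3 := Real.log_two_gt_d9
  have h4 : (1 : ℝ) / 8 ≤ Real.log (8 / 7) := by
    have := Real.one_sub_inv_le_log_of_pos (show (0 : ℝ) < 8 / 7 by norm_num)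
    linarith
  refine ⟨⌊8 * Real.log (2 * N)⌋₊ + 1, ?_, ?_⟩
  · set k := ⌊8 * Real.log (2 * N)⌋₊ + 1 with hk
    have h5 : 8 * Real.log (2 * N) < k := by rw [hk]; push_cast; exact Nat.lt_floor_add_one _
    have h6 : Real.log (2 * N) < Real.log ((8 / 7) ^ k) := by
      rw [Real.log_pow]; nlinarith
    rw [Real.log_lt_log_iff (by linarith) (by positivity), div_pow, lt_div_iff₀ (by positivity)]
      at h6
    have : ((2 * N * 7 ^ k : ℕ) : ℝ) < ((8 ^ k : ℕ) : ℝ) := by push_cast; linarith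
    exact_mod_cast this
  · have := Nat.floor_le (show 0 ≤ 8 * Real.log (2 * N) by linarith)
    push_cast
    linarith

/-- From the count of pairs to the count of polynomials. -/
theorem paucity_of_count
    (count : ∀ N k : ℕ, 0 < N → 2 * N * 7 ^ k < 8 ^ k → ∃ c : ℝ, 0 < c ∧ ∀ X : ℕ, 1 ≤ X →
      ∀ S : Finset (Vx N → ℤ), (∀ s ∈ S, Sl X s) → (S.card : ℝ) ≤ c * (X : ℝ) ^ (28 * k))
    (N : ℕ) (hN : 1 ≤ N) : ∃ c : ℝ, ∀ D : ℕ, 1 ≤ D → ∀ F : Finset ℤ[X],
      (∀ P ∈ F, P ≠ 0 ∧ P.natDegree ≤ D ∧ ∑ i ∈ P.support, |P.coeff i| ≤ 2 * (N : ℤ) ∧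
        (X - 1) ^ N ∣ P) → (F.card : ℝ) ≤ c * (D : ℝ) ^ (270 * Real.log (2 * N)) := by
  obtain ⟨k, hk, hk'⟩ := exists_rounds N hN
  obtain ⟨c, hc, H⟩ := count N k hN hk
  refine ⟨c, fun D hD F hF => (card_le_of_sol N D hN _ (H D hD) F hF).trans ?_⟩
  rw [← Real.rpow_natCast]
  exact mul_le_mul_of_nonneg_left
    (Real.rpow_le_rpow_of_exponent_le (by exact_mod_cast hD) hk') hc.le

end Pool.Agent.Lib.MP_4f0d88_nt
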