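import Pool.Agent.Lib.MP_4f0d88_nt.PlD

/-! The trace inequality used in the logarithmic paucity bound. -/

set_option autoImplicit false

namespace Pool.Agent.Lib.MP_4f0d88_nt

open Finset Module
open scoped RealInnerProductSpace

section
variable {E : Type} [NormedAddCommGroup E] [InnerProductSpace ℝ E] [FiniteDimensional ℝ E]

theorem sum_inner_sq (W : Submodule ℝ E) (x : E) :
    ∑ k, ⟪((stdOrthonormalBasis ℝ W k : W) : E), x⟫ ^ 2 = ‖W.starProjection x‖ ^ 2 := by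
  have h := (stdOrthonormalBasis ℝ W).sum_sq_inner_right (W.orthogonalProjection x)
  rw [Submodule.starProjection_apply, Submodule.coe_norm] at *
  rw [← h]
  refine sum_congr rfl fun k _ => ?_
  rw [Submodule.inner_orthogonalProjection_eq_of_mem_left]

theorem proj_eq (W K : Submodule ℝ E) (hK : K ≤ W) (x : E) (hx : x ∈ Kᗮ) :
    (Kᗮ ⊓ W).starProjection x = W.starProjection x := by
  refine Submodule.eq_starProjection_of_mem_orthogonal ⟨?_, W.starProjection_apply_mem x⟩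
    (Submodule.orthogonal_le inf_le_right (W.sub_starProjection_mem_orthogonal x))
  refine (Submodule.mem_orthogonal _ _).2 fun u hu => ?_
  rw [← Submodule.inner_starProjection_left_eq_right, Submodule.starProjection_eq_self_iff.2 (hK hu)]
  exact (Submodule.mem_orthogonal _ _).1 hx u hu

end

variable {N : ℕ}

/-- The quadratic form of a matrix with constant row and column sums. -/
theorem form_eq (w : Fin N → Fin N → ℝ) (g : ℝ) (h1 : ∀ i, ∑ j, w i j = g)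
    (h2 : ∀ j, ∑ i, w i j = g) (z : EuclideanSpace ℝ (Fin N ⊕ Fin N)) :
    ∑ i, ∑ j, w i j * (z (.inl i) ^ 2 + z (.inr j) ^ 2) = g * ‖z‖ ^ 2 := by
  rw [EuclideanSpace.real_norm_sq_eq, Fintype.sum_sum_type, mul_add]
  simp only [mul_add, sum_add_distrib]
  congr 1
  · rw [mul_sum]
    exact sum_congr rfl fun i _ => by rw [← sum_mul, h1]
  · rw [mul_sum, sum_comm]
    exact sum_congr rfl fun j _ => by rw [← sum_mul, h2]

/-- The difference vector of an edge. -/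
noncomputable def edge (i j : Fin N) : EuclideanSpace ℝ (Fin N ⊕ Fin N) :=
  EuclideanSpace.single (.inl i) 1 - EuclideanSpace.single (.inr j) 1

theorem inner_edge (z : EuclideanSpace ℝ (Fin N ⊕ Fin N)) (i j : Fin N) :
    ⟪z, edge i j⟫ = z (.inl i) - z (.inr j) := by
  simp [edge, inner_sub_right, EuclideanSpace.inner_single_right]

theorem upper_one (W K : Submodule ℝ (EuclideanSpace ℝ (Fin N ⊕ Fin N))) (hK : K ≤ W)
    (w : Fin N → Fin N → ℝ) (g rk : ℝ) (h0 : ∀ i j, 0 ≤ w i j) (hg : 0 ≤ g)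
    (h1 : ∀ i, ∑ j, w i j = g) (h2 : ∀ j, ∑ i, w i j = g)
    (hr : (finrank ℝ W : ℝ) ≤ finrank ℝ K + rk)
    (hz : ∀ z ∈ K, ∀ i j, w i j ≠ 0 → z (.inl i) = z (.inr j)) :
    ∑ i, ∑ j, w i j * ‖W.starProjection (edge i j)‖ ^ 2 ≤ 2 * (rk * g) := by
  set U := Kᗮ ⊓ W with hU
  have hd : (finrank ℝ U : ℝ) ≤ rk := by
    have := Submodule.finrank_add_inf_finrank_orthogonal hK
    have h3 : (finrank ℝ K : ℝ) + finrank ℝ U = finrank ℝ W := by exact_mod_cast this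
    linarith
  have e1 : ∀ i j, w i j * ‖W.starProjection (edge i j)‖ ^ 2 =
      ∑ k, w i j * (((stdOrthonormalBasis ℝ U k : U) : EuclideanSpace ℝ (Fin N ⊕ Fin N)) (.inl i) -
        ((stdOrthonormalBasis ℝ U k : U) : EuclideanSpace ℝ (Fin N ⊕ Fin N)) (.inr j)) ^ 2 := by
    intro i j
    by_cases h : w i j = 0
    · simp [h]
    · rw [← mul_sum, ← proj_eq W K hK _ ((Submodule.mem_orthogonal _ _).2 fun u hu => by
        rw [inner_edge, hz u hu i j h, sub_self]), ← sum_inner_sq]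
      simp only [inner_edge]
      rfl
  simp only [e1]
  rw [sum_congr rfl fun i _ => sum_comm, sum_comm]
  have e2 : ∀ k, ∑ i, ∑ j, w i j *
      (((stdOrthonormalBasis ℝ U k : U) : EuclideanSpace ℝ (Fin N ⊕ Fin N)) (.inl i) -
        ((stdOrthonormalBasis ℝ U k : U) : EuclideanSpace ℝ (Fin N ⊕ Fin N)) (.inr j)) ^ 2 ≤ 2 * g := by
    intro k
    set z := ((stdOrthonormalBasis ℝ U k : U) : EuclideanSpace ℝ (Fin N ⊕ Fin N)) with hz
    have hn : ‖z‖ = 1 := (stdOrthonormalBasis ℝ U).orthonormal.1 k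
    have := form_eq w g h1 h2 z
    rw [hn, one_pow, mul_one] at this
    rw [← this, mul_sum]
    refine sum_le_sum fun i _ => ?_
    rw [mul_sum]
    refine sum_le_sum fun j _ => ?_
    nlinarith [mul_nonneg (h0 i j) (sq_nonneg (z (.inl i) + z (.inr j)))]
  refine (sum_le_sum fun k _ => e2 k).trans ?_
  rw [sum_const, card_univ, Fintype.card_fin, nsmul_eq_mul]
  nlinarith

theorem lower (W : Submodule ℝ (EuclideanSpace ℝ (Fin N ⊕ Fin N)))
    (c : Fin N → Fin N → ℝ) (G L : ℝ) (h0 : ∀ i j, 0 ≤ c i j) (hL : ∀ i j, c i j ≤ L) (hG : 0 < G)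
    (h1 : ∀ i, ∑ j, c i j = G) (h2 : ∀ j, ∑ i, c i j = G) (Ex : Finset (Fin N))
    (hz : ∀ z ∈ W, ∀ j, j ∉ Ex → z (.inr j) = 0) :
    3 / 4 * G * finrank ℝ W ≤
      4 * L * Ex.card + ∑ i, ∑ j, c i j * ‖W.starProjection (edge i j)‖ ^ 2 := by
  classical
  set f : Fin (finrank ℝ W) → EuclideanSpace ℝ (Fin N ⊕ Fin N) :=
    fun k => ((stdOrthonormalBasis ℝ W k : W) : EuclideanSpace ℝ (Fin N ⊕ Fin N)) with hf
  set v : Fin N → EuclideanSpace ℝ (Fin N ⊕ Fin N) := fun i =>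
    WithLp.toLp 2 (Sum.elim (fun _ => 0) fun j => if j ∈ Ex then c i j else 0) with hv
  have e0 : ∀ k i, ⟪f k, v i⟫ = ∑ j, c i j * f k (.inr j) := by
    intro k i
    rw [PiLp.inner_apply, Fintype.sum_sum_type]
    simp only [hv, Sum.elim_inl, Sum.elim_inr, inner_zero_right, sum_const_zero, zero_add]
    refine sum_congr rfl fun j _ => ?_
    by_cases h : j ∈ Ex
    · simp [h]
    · simp [h, hz (f k) (stdOrthonormalBasis ℝ W k).2 j h]
  have e1 : ∀ i, ∑ k, ⟪f k, v i⟫ ^ 2 ≤ L * ∑ j ∈ Ex, c i j := by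
    intro i
    rw [hf, sum_inner_sq]
    refine (pow_le_pow_left₀ (norm_nonneg _) (W.norm_starProjection_apply_le _) 2).trans ?_
    rw [EuclideanSpace.real_norm_sq_eq, Fintype.sum_sum_type]
    simp only [hv, Sum.elim_inl, Sum.elim_inr, ite_pow, sum_ite_mem, univ_inter]
    simp only [ne_eq, OfNat.ofNat_ne_zero, not_false_eq_true, zero_pow, sum_const_zero, zero_add,
      sum_ite_mem, univ_inter, mul_sum]
    refine sum_le_sum fun j _ => ?_
    nlinarith [h0 i j, hL i j]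
  have e2 : ∑ i, ∑ k, ⟪f k, v i⟫ ^ 2 ≤ L * Ex.card * G := by
    refine (sum_le_sum fun i _ => e1 i).trans (le_of_eq ?_)
    rw [← mul_sum, sum_comm, sum_congr rfl fun j _ => h2 j, sum_const, nsmul_eq_mul, mul_assoc]
  have e3 : ∀ k, 3 / 4 * G ≤ 4 / G * ∑ i, ⟪f k, v i⟫ ^ 2 +
      ∑ i, ∑ j, c i j * (f k (.inl i) - f k (.inr j)) ^ 2 := by
    intro k
    have hn : ‖f k‖ = 1 := (stdOrthonormalBasis ℝ W).orthonormal.1 k
    have a1 := form_eq c G h1 h2 (f k)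
    rw [hn, one_pow, mul_one] at a1
    have a2 : ∑ i, f k (.inl i) ^ 2 ≤ 1 := by
      have := EuclideanSpace.real_norm_sq_eq (f k)
      rw [hn, one_pow, Fintype.sum_sum_type] at this
      have h3 : 0 ≤ ∑ j, f k (.inr j) ^ 2 := sum_nonneg fun j _ => sq_nonneg _
      linarith
    have a3 : ∑ i, ∑ j, c i j * (f k (.inl i) - f k (.inr j)) ^ 2 =
        G - 2 * ∑ i, f k (.inl i) * ⟪f k, v i⟫ := by
      rw [← a1, mul_sum, ← sum_sub_distrib]
      refine sum_congr rfl fun i _ => ?_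
      rw [e0, mul_sum, mul_sum, ← sum_sub_distrib]
      exact sum_congr rfl fun j _ => by ring
    have a4 : 2 * ∑ i, f k (.inl i) * ⟪f k, v i⟫ ≤
        G / 4 * ∑ i, f k (.inl i) ^ 2 + 4 / G * ∑ i, ⟪f k, v i⟫ ^ 2 := by
      rw [mul_sum, mul_sum, mul_sum, ← sum_add_distrib]
      refine sum_le_sum fun i _ => ?_
      have : G / 4 * f k (.inl i) ^ 2 + 4 / G * ⟪f k, v i⟫ ^ 2 - 2 * (f k (.inl i) * ⟪f k, v i⟫) =
          4 / G * (G / 4 * f k (.inl i) - ⟪f k, v i⟫) ^ 2 := by field_simp; ring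
      have h4 : 0 ≤ 4 / G * (G / 4 * f k (.inl i) - ⟪f k, v i⟫) ^ 2 := by positivity
      linarith
    nlinarith
  have e4 : ∑ i, ∑ j, c i j * ‖W.starProjection (edge i j)‖ ^ 2 =
      ∑ k, ∑ i, ∑ j, c i j * (f k (.inl i) - f k (.inr j)) ^ 2 := by
    rw [sum_comm (s := univ) (t := univ)
      (f := fun k i => ∑ j, c i j * (f k (.inl i) - f k (.inr j)) ^ 2)]
    refine sum_congr rfl fun i _ => ?_
    rw [sum_comm]
    refine sum_congr rfl fun j _ => ?_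
    rw [← mul_sum, ← sum_inner_sq]
    simp only [inner_edge]
    rfl
  have e5 := sum_le_sum fun k (_ : k ∈ univ) => e3 k
  rw [sum_const, card_univ, Fintype.card_fin, nsmul_eq_mul, sum_add_distrib, ← mul_sum, ← e4,
    sum_comm] at e5
  have e6 : 4 / G * ∑ i, ∑ k, ⟪f k, v i⟫ ^ 2 ≤ 4 * L * Ex.card := by
    refine (mul_le_mul_of_nonneg_left e2 (by positivity)).trans (le_of_eq ?_)
    field_simp
  linarith

/-- The trace inequality. -/
theorem trace_ineq (W : Submodule ℝ (EuclideanSpace ℝ (Fin N ⊕ Fin N))) (P : Finset ℕ)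
    (w : ℕ → Fin N → Fin N → ℝ) (g rk : ℕ → ℝ) (L : ℝ)
    (K : ℕ → Submodule ℝ (EuclideanSpace ℝ (Fin N ⊕ Fin N))) (Ex : Finset (Fin N))
    (h0 : ∀ p ∈ P, ∀ i j, 0 ≤ w p i j) (hg : ∀ p ∈ P, 0 ≤ g p)
    (h1 : ∀ p ∈ P, ∀ i, ∑ j, w p i j = g p) (h2 : ∀ p ∈ P, ∀ j, ∑ i, w p i j = g p)
    (hL : ∀ i j, ∑ p ∈ P, w p i j ≤ L) (hK : ∀ p ∈ P, K p ≤ W)
    (hr : ∀ p ∈ P, (finrank ℝ W : ℝ) ≤ finrank ℝ (K p) + rk p)
    (hz : ∀ p ∈ P, ∀ z ∈ K p, ∀ i j, w p i j ≠ 0 → z (.inl i) = z (.inr j))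
    (hE : ∀ z ∈ W, ∀ j, j ∉ Ex → z (.inr j) = 0) (hG : 0 < ∑ p ∈ P, g p) :
    3 / 4 * (∑ p ∈ P, g p) * finrank ℝ W ≤ 4 * L * Ex.card + 2 * ∑ p ∈ P, rk p * g p := by
  have a1 := lower W (fun i j => ∑ p ∈ P, w p i j) _ L
    (fun i j => sum_nonneg fun p hp => h0 p hp i j) hL hG
    (fun i => by rw [sum_comm]; exact sum_congr rfl fun p hp => h1 p hp i)
    (fun j => by rw [sum_comm]; exact sum_congr rfl fun p hp => h2 p hp j) Ex hE
  refine a1.trans (add_le_add_right ?_ _)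
  simp only [sum_mul]
  rw [sum_congr rfl fun i _ => sum_comm, sum_comm, mul_sum]
  exact sum_le_sum fun p hp => upper_one W (K p) (hK p hp) (w p) (g p) (rk p) (h0 p hp) (hg p hp)
    (h1 p hp) (h2 p hp) (hr p hp) (hz p hp)

/-- The trace inequality for plain functions. -/
theorem trace (hN : 0 < N) (W0 : Submodule ℝ (Vx N → ℝ)) (P : Finset ℕ)
    (w : ℕ → Fin N → Fin N → ℝ) (g : ℕ → ℝ) (r : ℕ → ℕ) (K : ℕ → Submodule ℝ (Vx N → ℝ)) (L : ℝ) (Ex : Finset (Fin N))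
    (hw : ∀ p ∈ P, ∀ i j, 0 ≤ w p i j) (hrow : ∀ p ∈ P, ∀ i, ∑ j, w p i j = g p)
    (hcol : ∀ p ∈ P, ∀ j, ∑ i, w p i j = g p) (hL : ∀ i j, ∑ p ∈ P, w p i j ≤ L)
    (hK : ∀ p ∈ P, K p ≤ W0) (hr : ∀ p ∈ P, finrank ℝ W0 ≤ finrank ℝ (K p) + r p)
    (hz : ∀ p ∈ P, ∀ z ∈ K p, ∀ i j, w p i j ≠ 0 → z (.inl i) = z (.inr j))
    (hEx : ∀ z ∈ W0, ∀ j, j ∉ Ex → z (.inr j) = 0) (hG : 0 < ∑ p ∈ P, g p) :
    3 / 4 * (∑ p ∈ P, g p) * finrank ℝ W0 ≤ 4 * L * Ex.card + 2 * ∑ p ∈ P, (r p : ℝ) * g p := by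
  set e := (WithLp.linearEquiv 2 ℝ (Vx N → ℝ)).symm with he
  have key := trace_ineq (W0.map e.toLinearMap) P w g (fun p => r p) L
    (fun p => (K p).map e.toLinearMap) Ex hw
    (fun p hp => hrow p hp ⟨0, hN⟩ ▸ sum_nonneg fun j _ => hw p hp _ j) hrow hcol hL
    (fun p hp => Submodule.map_mono (hK p hp))
    (fun p hp => by
      rw [e.finrank_map_eq, e.finrank_map_eq]; exact_mod_cast hr p hp)
    (fun p hp z hz' => by
      obtain ⟨y, hy, rfl⟩ := hz'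
      exact hz p hp y hy)
    (fun z hz' => by
      obtain ⟨y, hy, rfl⟩ := hz'
      exact hEx y hy) hG
  rwa [e.finrank_map_eq] at key

end Pool.Agent.Lib.MP_4f0d88_nt
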