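import Pool.Agent.Lib.MP_4f0d88_nt.PlI
import Pool.Agent.Lib.MP_4f0d88_nt.PlT
import Pool.Agent.Lib.MP_4f0d88_nt.PcD

/-! The dichotomy: many high primes, or many cheap coordinates. -/

set_option autoImplicit false

namespace Pool.Agent.Lib.MP_4f0d88_nt

open Finset Module

theorem greedy {V : Type} [Fintype V] (W : Submodule ℝ (V → ℝ)) (J : Finset V) (k : ℕ) :
    ∃ S ⊆ J, S.card ≤ k ∧
      (finrank ℝ ↥(W ⊓ Zs S) + k ≤ finrank ℝ W ∨ W ⊓ Zs S ≤ Zs J) := by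
  classical
  induction k with
  | zero => exact ⟨∅, empty_subset _, le_rfl, Or.inl (Submodule.finrank_mono inf_le_left)⟩
  | succ k ih =>
    obtain ⟨S, hS, hk, h⟩ := ih
    by_cases h' : W ⊓ Zs S ≤ Zs J
    · exact ⟨S, hS, by omega, Or.inr h'⟩
    obtain ⟨z, hz, hzJ⟩ := SetLike.not_le_iff_exists.1 h'
    rw [mem_Zs] at hzJ
    push Not at hzJ
    obtain ⟨v, hv, hzv⟩ := hzJ
    refine ⟨insert v S, insert_subset hv hS, (card_insert_le _ _).trans (by omega), Or.inl ?_⟩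
    have h1 : W ⊓ Zs (insert v S) < W ⊓ Zs S := SetLike.lt_iff_le_and_exists.2
      ⟨inf_le_inf_left _ fun y hy x hx => hy x (mem_insert_of_mem hx), z, hz,
        fun h2 => hzv (h2.2 v (mem_insert_self _ _))⟩
    have h2 := Submodule.finrank_lt_finrank_of_lt h1
    have h3 := h.resolve_right h'
    omega

theorem sub_prod {X Y : ℕ} (hX : 1 ≤ X) (hY : 1 ≤ Y) (s : Finset ℕ) (h : ∀ p ∈ s, p ≤ X)
    (hs : Y ≤ ∏ p ∈ s, p) : ∃ t ⊆ s, Y ≤ ∏ p ∈ t, p ∧ ∏ p ∈ t, p ≤ X * Y := by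
  induction s using Finset.induction_on with
  | empty => exact ⟨∅, Subset.rfl, hs, Nat.mul_pos hX hY⟩
  | insert a s ha ih =>
    by_cases h1 : Y ≤ ∏ p ∈ s, p
    · obtain ⟨t, ht, h2⟩ := ih (fun p hp => h p (mem_insert_of_mem hp)) h1
      exact ⟨t, ht.trans (subset_insert _ _), h2⟩
    · refine ⟨_, Subset.rfl, hs, ?_⟩
      rw [prod_insert ha]
      exact Nat.mul_le_mul (h a (mem_insert_self _ _)) (by omega)

open Classical in
theorem log_pt (P : ℕ → Prop) {d C : ℕ} (hC : C ≠ 0) (hd : d ∣ C) :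
    Real.log (pt P d) = ∑ p ∈ C.primeFactors.filter P, (d.factorization p : ℝ) * Real.log p := by
  unfold pt
  rw [Nat.cast_prod, Real.log_prod fun p hp => by
    exact_mod_cast pow_ne_zero _ (Nat.prime_of_mem_primeFactors (mem_filter.1 hp).1).ne_zero]
  simp only [Nat.cast_pow, Real.log_pow]
  refine sum_subset (filter_subset_filter _ (Nat.primeFactors_mono hd hC)) fun p hp hn => ?_
  have : d.factorization p = 0 := by
    rw [← Finsupp.notMem_support_iff, Nat.support_factorization]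
    exact fun h => hn (mem_filter.2 ⟨h, (mem_filter.1 hp).2⟩)
  simp [this]

theorem ee_eq {N : ℕ} (o : Fin N) (s : Vx N → ℤ) (v : Vx N) : ∃ i j, ee o s v = dz s i j := by
  cases v with
  | inl i => exact ⟨i, o, rfl⟩
  | inr j => exact ⟨o, j, rfl⟩

theorem not_few {N X : ℕ} (o : Fin N) (hX : 1 < X) {s : Vx N → ℤ} (hs : Sl X s)
    (D : Set (Vx N → ℤ)) (P : ℕ → Prop)
    (hP : ∀ p, P p → 4 * rk ℝ (phi ℤ (prs s p) '' D) ≤ rk ℝ D) (W0 : Submodule ℝ (Vx N → ℝ))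
    (hW : W0 ≤ sp ℝ D) {k : ℕ} (hk : 8 * k ≤ rk ℝ D + 7) (hk' : rk ℝ D ≤ 8 * k)
    (h0 : ∀ z ∈ W0, ∀ v, pt P (ee o s v) ^ k ≤ X ^ 4 → z v = 0) :
    finrank ℝ W0 + k ≤ rk ℝ D := by
  classical
  by_contra hlt
  have hle : finrank ℝ W0 ≤ rk ℝ D := Submodule.finrank_mono hW
  obtain ⟨-, C, hC, hcol, hrow⟩ := id hs
  have hdv : ∀ i j, dz s i j ∣ C := fun i j => hrow i ▸ dvd_prod_of_mem _ (mem_univ j)
  set Q := C.primeFactors.filter P with hQ
  have hlog : ∀ p : ℕ, 0 ≤ Real.log p := fun p => Real.log_natCast_nonneg p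
  let w : ℕ → Fin N → Fin N → ℝ := fun p i j => ((dz s i j).factorization p : ℝ) * Real.log p
  let g : ℕ → ℝ := fun p => (C.factorization p : ℝ) * Real.log p
  have h1 : ∀ p i, ∑ j, w p i j = g p := fun p i => by
    simp only [w, g]
    rw [← sum_mul, ← hrow i, Nat.factorization_prod fun j _ => hs.dz_ne i j,
      Finsupp.finsetSum_apply, Nat.cast_sum]
  have h2 : ∀ p j, ∑ i, w p i j = g p := fun p j => by
    simp only [w, g]
    rw [← sum_mul, ← hcol j, Nat.factorization_prod fun i _ => hs.dz_ne i j,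
      Finsupp.finsetSum_apply, Nat.cast_sum]
  have h3 : ∀ i j, Real.log (pt P (dz s i j)) = ∑ p ∈ Q, w p i j := fun i j =>
    log_pt P hC (hdv i j)
  have h4 : ∀ i, ∑ j, Real.log (pt P (dz s i j)) = ∑ p ∈ Q, g p := fun i => by
    simp only [h3]
    rw [sum_comm]
    exact sum_congr rfl fun p _ => h1 p i
  have h5 : ∀ i j, pt P (dz s i j) ≤ X := fun i j =>
    (pt_le P (hs.dz_ne i j)).trans (hs.dz_le i j)
  have hne : W0 ≠ ⊥ := by
    rintro rfl
    rw [finrank_bot] at hlt hle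
    omega
  obtain ⟨z, hz, hz0⟩ := Submodule.exists_mem_ne_zero_of_ne_bot hne
  obtain ⟨v, hv⟩ := Function.ne_iff.1 hz0
  have h6 := not_le.1 fun h => hv (h0 z hz v h)
  obtain ⟨i, j, hij⟩ := ee_eq o s v
  rw [hij] at h6
  have h7 : 4 < k :=
    (Nat.pow_lt_pow_iff_right hX).1 (h6.trans_le (Nat.pow_le_pow_left (h5 i j) k))
  have hG : 0 < ∑ p ∈ Q, g p := by
    rw [← h4 i]
    refine lt_of_lt_of_le (Real.log_pos ?_)
      (single_le_sum (f := fun j => Real.log (pt P (dz s i j))) (fun _ _ => hlog _) (mem_univ j))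
    have : 1 < pt P (dz s i j) ^ k := lt_of_le_of_lt (Nat.one_le_pow _ _ (by omega)) h6
    exact_mod_cast (Nat.one_lt_pow_iff (by omega)).1 this
  set Ex := univ.filter fun j => X ^ 4 < pt P (dz s o j) ^ k with hEx
  have key := trace o.pos W0 Q w g (fun p => rk ℝ (phi ℤ (prs s p) '' D))
    (fun p => W0 ⊓ LinearMap.ker (phi ℝ (prs s p))) (Real.log X) Ex
    (fun p _ i j => mul_nonneg (Nat.cast_nonneg _) (hlog p)) (fun p _ => h1 p) (fun p _ => h2 p)
    (fun i j => by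
      rw [← h3]
      exact Real.log_le_log (by exact_mod_cast Nat.pos_of_ne_zero (pt_ne_zero _ _))
        (by exact_mod_cast h5 i j))
    (fun p _ => inf_le_left)
    (fun p _ => by
      have a1 := finrank_inf_ker W0 (phi ℝ (prs s p))
      have a2 := Submodule.finrank_mono (Submodule.map_mono (f := phi ℝ (prs s p)) hW)
      rw [sp_map] at a2
      unfold rk
      omega)
    (fun p _ z hz i j hw => by
      have a1 : (i, j) ∈ prs s p := mem_filter.2 ⟨mem_univ _, by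
        by_contra hn
        exact hw (by simp only [w]; rw [Nat.factorization_eq_zero_of_not_dvd hn]; simp)⟩
      have a2 := congrFun (LinearMap.mem_ker.1 hz.2) (i, j)
      rw [phi_apply, if_pos a1] at a2
      exact (sub_eq_zero.1 a2).symm)
    (fun z hz j hj => h0 z hz (.inr j) (not_lt.1 fun h => hj (mem_filter.2 ⟨mem_univ _, h⟩)))
    hG
  have b1 : 4 * Real.log X * Ex.card ≤ k * ∑ p ∈ Q, g p := by
    rw [← h4 o, mul_sum, mul_comm, ← nsmul_eq_mul]
    refine (card_nsmul_le_sum Ex (fun j => k * Real.log (pt P (dz s o j))) _ fun j hj => ?_).trans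
      (sum_le_sum_of_subset_of_nonneg (subset_univ _) fun j _ _ =>
        mul_nonneg (Nat.cast_nonneg _) (hlog _))
    have := Real.log_le_log (x := (X : ℝ) ^ 4) (y := (pt P (dz s o j) : ℝ) ^ k) (by positivity)
      (by exact_mod_cast (mem_filter.1 hj).2.le)
    simpa only [Real.log_pow, Nat.cast_ofNat] using this
  have b2 : ∑ p ∈ Q, (rk ℝ (phi ℤ (prs s p) '' D) : ℝ) * g p ≤
      (rk ℝ D : ℝ) / 4 * ∑ p ∈ Q, g p := by
    rw [mul_sum]
    refine sum_le_sum fun p hp => mul_le_mul_of_nonneg_right ?_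
      (mul_nonneg (Nat.cast_nonneg _) (hlog p))
    have : (4 : ℝ) * rk ℝ (phi ℤ (prs s p) '' D) ≤ rk ℝ D := by
      exact_mod_cast hP p (mem_filter.1 hp).2
    linarith
  have b3 : (3 * finrank ℝ W0 : ℝ) ≤ 4 * k + 2 * rk ℝ D := by
    refine le_of_mul_le_mul_right ?_ hG
    linarith
  have b4 : 3 * finrank ℝ W0 ≤ 4 * k + 2 * rk ℝ D := by exact_mod_cast b3
  omega

theorem dich {N X M : ℕ} (o : Fin N) (hX : 4 * N ^ 2 ≤ X) {S : Finset (Vx N → ℤ)}
    (hS : ∀ s ∈ S, Sl X s) {s : Vx N → ℤ} (hs : s ∈ S) :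
    ∃ q : ℕ, q ≠ 0 ∧ q ≤ X ^ 25 ∧
      ((Squarefree q ∧ X ^ 21 ≤ q ∧ ∀ p : ℕ, p.Prime → p ∣ q →
          ¬ p ∣ M ∧ rk ℝ (Df S) ≤ 4 * rk ℝ (phi ℤ (prs s p) '' Df S)) ∨
        ∃ J : Finset (Vx N), 8 * finrank ℝ ↥(sp ℝ (Df S) ⊓ Zs J) ≤ 7 * rk ℝ (Df S) ∧
          ∀ v ∈ J, ∀ p : ℕ, p.Prime → p ∣ ee o s v → p ∣ M * q) := by
  classical
  have hX1 : 1 < X := by have := o.pos; nlinarith
  have hl := hS s hs
  obtain ⟨-, C, hC, hcol, hrow⟩ := id hl
  set H := C.primeFactors.filter fun p =>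
    ¬ p ∣ M ∧ rk ℝ (Df S) ≤ 4 * rk ℝ (phi ℤ (prs s p) '' Df S) with hH
  have hp : ∀ p ∈ H, p.Prime := fun p hp => Nat.prime_of_mem_primeFactors (mem_filter.1 hp).1
  by_cases h : X ^ 21 ≤ ∏ p ∈ H, p
  · obtain ⟨t, ht, h1, h2⟩ := sub_prod hX1.le (Nat.one_le_pow _ _ (by omega)) H (fun p hpH => by
      have := Nat.dvd_of_mem_primeFactors (mem_filter.1 hpH).1
      rw [← hrow o] at this
      obtain ⟨j, -, hj⟩ := (hp p hpH).prime.exists_mem_finset_dvd this
      exact (Nat.le_of_dvd (Nat.pos_of_ne_zero (hl.dz_ne o j)) hj).trans (hl.dz_le o j)) h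
    refine ⟨∏ p ∈ t, p, prod_ne_zero_iff.2 fun p h => (hp p (ht h)).ne_zero, h2.trans ?_,
      Or.inl ⟨?_, h1, fun p pp hd => ?_⟩⟩
    · rw [← pow_succ']
      exact Nat.pow_le_pow_right hX1.le (by norm_num)
    · refine Finset.squarefree_prod_of_pairwise_isCoprime (fun a ha b hb hab => ?_)
        fun p h => (hp p (ht h)).squarefree
      exact Nat.coprime_iff_isRelPrime.1 ((Nat.coprime_primes (hp a (ht ha)) (hp b (ht hb))).2 hab)
    · obtain ⟨a, ha, hpa⟩ := pp.prime.exists_mem_finset_dvd hd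
      rw [(Nat.prime_dvd_prime_iff_eq pp (hp a (ht ha))).1 hpa]
      exact (mem_filter.1 (ht ha)).2
  · let P : ℕ → Prop := fun p =>
      ¬ p ∣ M ∧ ¬ rk ℝ (Df S) ≤ 4 * rk ℝ (phi ℤ (prs s p) '' Df S)
    set k := (rk ℝ (Df S) + 7) / 8 with hk
    obtain ⟨J, hJ, hc, h1⟩ :=
      greedy (sp ℝ (Df S)) (univ.filter fun v => pt P (ee o s v) ^ k ≤ X ^ 4) k
    have h2 : finrank ℝ ↥(sp ℝ (Df S) ⊓ Zs J) + k ≤ rk ℝ (Df S) := by
      refine h1.elim id fun h1 => not_few o hX1 hl _ P (fun p hp => ?_) _ inf_le_left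
        (by omega) (by omega) fun z hz v hv => h1 hz v (mem_filter.2 ⟨mem_univ _, hv⟩)
      have := hp.2
      omega
    have h3 : ∏ v ∈ J, pt P (ee o s v) ≤ X ^ 4 := by
      rcases Nat.eq_zero_or_pos k with h0 | h0
      · rw [card_eq_zero.1 (by omega : J.card = 0), prod_empty]
        exact Nat.one_le_pow _ _ (by omega)
      · rw [← Nat.pow_le_pow_iff_left h0.ne', ← prod_pow]
        exact (prod_le_pow_card _ _ _ fun v hv => (mem_filter.1 (hJ hv)).2).trans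
          (Nat.pow_le_pow_right (by positivity) hc)
    refine ⟨(∏ p ∈ H, p) * ∏ v ∈ J, pt P (ee o s v), mul_ne_zero
      (prod_ne_zero_iff.2 fun p h => (hp p h).ne_zero)
      (prod_ne_zero_iff.2 fun v _ => pt_ne_zero _ _),
      (Nat.mul_le_mul (not_le.1 h).le h3).trans (by rw [← pow_add]),
      Or.inr ⟨J, by omega, fun v hv p pp hd => ?_⟩⟩
    by_cases a1 : p ∣ M
    · exact a1.mul_right _
    obtain ⟨i, j, hij⟩ := ee_eq o s v
    by_cases a2 : rk ℝ (Df S) ≤ 4 * rk ℝ (phi ℤ (prs s p) '' Df S)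
    · refine ((dvd_prod_of_mem (fun p => p) (mem_filter.2 ⟨Nat.mem_primeFactors.2
        ⟨pp, ?_, hC⟩, a1, a2⟩)).mul_right _).mul_left _
      rw [hij] at hd
      exact hd.trans (hrow i ▸ dvd_prod_of_mem _ (mem_univ j))
    · exact ((((prime_dvd_pt P (hij ▸ hl.dz_ne i j) pp).2 ⟨⟨a1, a2⟩, hd⟩).trans
        (dvd_prod_of_mem (fun v => pt P (ee o s v)) hv)).mul_left _).mul_left _

end Pool.Agent.Lib.MP_4f0d88_nt
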