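import Pool.Agent.Lib.MP_4f0d88_nt.PlR

/-! Gram determinants detect the loss of rank modulo a prime. -/

set_option autoImplicit false

namespace Pool.Agent.Lib.MP_4f0d88_nt

open Finset Module Matrix

theorem pow_dvd_det {ι : Type} [Fintype ι] [DecidableEq ι] (A : Matrix ι ι ℤ) (hA : A.det ≠ 0)
    (p : ℕ) [Fact p.Prime] (U : Submodule (ZMod p) (ι → ZMod p))
    (hU : ∀ x : ι → ℤ, (fun i => (((A *ᵥ x) i : ℤ) : ZMod p)) ∈ U) :
    p ^ (Fintype.card ι - finrank (ZMod p) U) ∣ A.det.natAbs := by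
  have hinj : Function.Injective (Matrix.toLin' A) := by
    rw [← LinearMap.ker_eq_bot, LinearMap.ker_eq_bot']
    exact fun x hx => Matrix.eq_zero_of_mulVec_eq_zero hA hx
  have h1 := Submodule.natAbs_det_equiv (LinearMap.range (Matrix.toLin' A))
    (LinearEquiv.ofInjective _ hinj)
  have h2 : (LinearMap.range (Matrix.toLin' A)).subtype ∘ₗ AddMonoidHom.toIntLinearMap
      (LinearEquiv.ofInjective _ hinj : (ι → ℤ) →+ LinearMap.range (Matrix.toLin' A)) =
      Matrix.toLin' A := LinearMap.ext fun x => rfl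
  rw [h2, LinearMap.det_toLin'] at h1
  let r : (ι → ℤ) →+ (ι → ZMod p) := (Int.castAddHom (ZMod p)).compLeft ι
  let f : (ι → ℤ) →+ ((ι → ZMod p) ⧸ U) := U.mkQ.toAddMonoidHom.comp r
  have hf : Function.Surjective f := by
    refine U.mkQ_surjective.comp (g := U.mkQ) (f := r) fun y => ?_
    choose x hx using fun i => ZMod.intCast_surjective (y i)
    exact ⟨x, funext hx⟩
  have h3 : (LinearMap.range (Matrix.toLin' A)).toAddSubgroup ≤ f.ker := by
    rintro _ ⟨x, rfl⟩
    exact (Submodule.Quotient.mk_eq_zero U).2 (hU x)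
  have h4 := AddSubgroup.index_dvd_of_le h3
  rw [AddSubgroup.index_ker, AddMonoidHom.range_eq_top.2 hf, AddSubgroup.card_top,
    Module.natCard_eq_pow_finrank (K := ZMod p), Nat.card_zmod] at h4
  have h5 := U.finrank_quotient_add_finrank
  rw [finrank_fintype_fun_eq_card] at h5
  rw [h1, ← h5, Nat.add_sub_cancel]
  exact h4

theorem exists_gram {V : Type} [Fintype V] (D : Set (V → ℤ)) (Y : ℕ)
    (hY : ∀ z ∈ D, ∀ v, |z v| ≤ Y) :
    ∃ G : ℕ, G ≠ 0 ∧ G ≤ (Fintype.card V * Y) ^ (2 * rk ℝ D) ∧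
      ∀ (p : ℕ) [Fact p.Prime], p ^ (rk ℝ D - rk (ZMod p) D) ∣ G := by
  obtain ⟨f, hf, hl⟩ := exists_fam ℝ D
  have hr := rk_le_card ℝ D
  have hz : LinearIndependent ℤ f := (linearIndependent_algebraMap_comp_iff (S := ℝ)).1 hl
  generalize rk ℝ D = r at *
  let F : Matrix (Fin r) V ℤ := Matrix.of f
  have hdet : (F * Fᵀ).det ≠ 0 := by
    intro h0
    obtain ⟨x, hx, hx0⟩ := Matrix.exists_mulVec_eq_zero_iff.2 h0
    rw [← Matrix.mulVec_mulVec] at hx0
    have h1 : (Fᵀ *ᵥ x) ⬝ᵥ (Fᵀ *ᵥ x) = 0 := by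
      rw [Matrix.dotProduct_mulVec, Matrix.vecMul_transpose, hx0, zero_dotProduct]
    have h2 := dotProduct_self_eq_zero.1 h1
    refine hx (funext (Fintype.linearIndependent_iff.1 hz x ?_))
    ext v
    have := congrFun h2 v
    simpa [Matrix.mulVec, dotProduct, F, Finset.sum_apply, mul_comm] using this
  refine ⟨(F * Fᵀ).det.natAbs, by simpa using hdet, ?_, fun p _ => ?_⟩
  · have h1 : ∀ i j, AbsoluteValue.abs ((F * Fᵀ) i j) ≤ ((Fintype.card V * Y ^ 2 : ℕ) : ℤ) := by
      intro i j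
      rw [AbsoluteValue.abs_apply, Matrix.mul_apply]
      refine (abs_sum_le_sum_abs _ _).trans ?_
      refine (sum_le_card_nsmul _ _ ((Y : ℤ) ^ 2) fun v _ => ?_).trans (by simp)
      rw [abs_mul, sq]
      exact mul_le_mul (hY _ (hf i) v) (hY _ (hf j) v) (abs_nonneg _) (by positivity)
    have h2 := Matrix.det_le h1
    rw [AbsoluteValue.abs_apply, ← Int.natCast_natAbs, Fintype.card_fin, nsmul_eq_mul] at h2
    have h3 : (F * Fᵀ).det.natAbs ≤ r.factorial * (Fintype.card V * Y ^ 2) ^ r := by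
      exact_mod_cast h2
    refine h3.trans ((Nat.mul_le_mul_right _ ((Nat.factorial_le_pow r).trans
      (Nat.pow_le_pow_left hr r))).trans (le_of_eq ?_))
    rw [← mul_pow, pow_mul]
    congr 1
    ring
  · let ψ := Matrix.mulVecLin (F.map (Int.castRingHom (ZMod p)))
    have h1 := pow_dvd_det (F * Fᵀ) hdet p ((sp (ZMod p) D).map ψ) fun x => by
      refine ⟨∑ i, (x i : ZMod p) • fun v => ((f i v : ℤ) : ZMod p), Submodule.sum_mem _ fun i _ =>
        Submodule.smul_mem _ _ (Submodule.subset_span ⟨f i, hf i, rfl⟩), ?_⟩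
      ext k
      rw [← Matrix.mulVec_mulVec]
      simp [ψ, F, Matrix.mulVec, dotProduct, Finset.sum_apply, Finset.mul_sum]
      rw [sum_comm]
      exact sum_congr rfl fun _ _ => sum_congr rfl fun _ _ => by ring
    rw [Fintype.card_fin] at h1
    refine (pow_dvd_pow p ?_).trans h1
    have := Submodule.finrank_map_le ψ (sp (ZMod p) D)
    unfold rk
    omega

end Pool.Agent.Lib.MP_4f0d88_nt
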