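import Pool.Agent.Lib.MP_4f0d88_nt.PlG

/-! The exceptional modulus of a class of solutions, and the case of many high primes. -/

set_option autoImplicit false

namespace Pool.Agent.Lib.MP_4f0d88_nt

open Finset Module

theorem Df_abs {N X : ℕ} {S : Finset (Vx N → ℤ)} (hS : ∀ s ∈ S, Sl X s) :
    ∀ z ∈ Df S, ∀ v, |z v| ≤ X := by
  rintro _ ⟨s, hs, t, ht, rfl⟩ v
  have h1 := (hS s hs).1 v
  have h2 := (hS t ht).1 v
  rw [Pi.sub_apply, abs_le]
  omega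

theorem Df_mono {V : Type} {S T : Finset (V → ℤ)} (h : T ⊆ S) : Df T ⊆ Df S := by
  rintro _ ⟨s, hs, t, ht, rfl⟩
  exact ⟨s, h hs, t, h ht, rfl⟩

theorem exists_M {N X : ℕ} (hN : 0 < N) (hX : 4 * N ^ 2 ≤ X) (S : Finset (Vx N → ℤ))
    (hS : ∀ s ∈ S, Sl X s) :
    ∃ M : ℕ, M ≠ 0 ∧ M ≤ X ^ (4 * (N * N) * 2 ^ (N * N)) ∧
      ∀ π, ∀ (p : ℕ) [Fact p.Prime], ¬ p ∣ M →
        rk ℝ (phi ℤ π '' Df S) ≤ rk (ZMod p) (phi ℤ π '' Df S) := by
  have h : ∀ π : Finset (Fin N × Fin N), ∀ z ∈ phi ℤ π '' Df S, ∀ e, |z e| ≤ ((2 * X : ℕ) : ℤ) := by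
    rintro π _ ⟨z, hz, rfl⟩ e
    have h1 := abs_le.1 (Df_abs hS z hz (.inr e.2))
    have h2 := abs_le.1 (Df_abs hS z hz (.inl e.1))
    rw [phi_apply, abs_le]
    split_ifs <;> omega
  choose G h0 h1 h2 using fun π => exists_gram _ (2 * X) (h π)
  have hX1 : 1 ≤ X := le_trans (by nlinarith) hX
  refine ⟨∏ π, G π, prod_ne_zero_iff.2 fun π _ => h0 π, ?_, fun π p hp hM => ?_⟩
  · refine (prod_le_pow_card _ _ (X ^ (4 * (N * N))) fun π _ => (h1 π).trans ?_).trans ?_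
    · have h3 := rk_le_card ℝ (phi ℤ π '' Df S)
      simp only [Fintype.card_prod, Fintype.card_fin] at h3 ⊢
      refine (Nat.pow_le_pow_left (show N * N * (2 * X) ≤ X ^ 2 by nlinarith) _).trans ?_
      rw [← pow_mul]
      exact Nat.pow_le_pow_right hX1 (by omega)
    · rw [← pow_mul]
      simp
  · by_contra hlt
    exact hM (((dvd_pow_self p (by omega)).trans (h2 π p)).trans (dvd_prod_of_mem G (mem_univ π)))

theorem caseI {N X : ℕ} (hN : 0 < N) (hX : 4 * N ^ 2 ≤ X) {S T : Finset (Vx N → ℤ)}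
    (hS : ∀ s ∈ S, Sl X s) (hT : T ⊆ S) {q : ℕ} (hq : Squarefree q) (hqX : X ^ 21 ≤ q)
    (π : ℕ → Finset (Fin N × Fin N))
    (h1 : ∀ (p : ℕ) [Fact p.Prime], p ∣ q →
      rk ℝ (Df S) ≤ 4 * rk (ZMod p) (phi ℤ (π p) '' Df S))
    (h2 : ∀ p : ℕ, p.Prime → p ∣ q → ∀ s ∈ T, ∀ e ∈ π p, p ∣ dz s e.1 e.2) :
    8 * rk ℝ (Df T) ≤ 7 * rk ℝ (Df S) := by
  obtain ⟨G, h0, hG, hp⟩ := exists_gram (Df T) X (Df_abs fun s hs => hS s (hT hs))
  have hd : q ^ (rk ℝ (Df T) - 3 * rk ℝ (Df S) / 4) ∣ G := by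
    refine (Nat.factorization_prime_le_iff_dvd (pow_ne_zero _ hq.ne_zero) h0).1 fun p pp => ?_
    rw [Nat.factorization_pow, Finsupp.smul_apply, smul_eq_mul]
    by_cases hpq : p ∣ q
    · have := Fact.mk pp
      have h3 := rk_add_le (ZMod p) (π p) (Df_mono hT) (by
        rintro _ ⟨s, hs, t, ht, rfl⟩ e
        rw [ZMod.intCast_zmod_eq_zero_iff_dvd, phi_apply]
        split_ifs with he
        · have := dvd_sub (Int.natCast_dvd.2 (h2 p pp hpq s hs e he))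
            (Int.natCast_dvd.2 (h2 p pp hpq t ht e he))
          rw [Pi.sub_apply, Pi.sub_apply, sub_sub_sub_comm]
          exact this
        · exact dvd_zero _)
      have h4 := rk_mod_le p (Df S)
      have h5 := h1 p hpq
      have h6 := (pp.pow_dvd_iff_le_factorization h0).1 (hp p)
      have h7 := Nat.mul_le_mul_left (rk ℝ (Df T) - 3 * rk ℝ (Df S) / 4)
        (hq.natFactorization_le_one p)
      omega
    · rw [Nat.factorization_eq_zero_of_not_dvd hpq]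
      simp
  have h3 : X ^ (21 * (rk ℝ (Df T) - 3 * rk ℝ (Df S) / 4)) ≤ X ^ (3 * rk ℝ (Df T)) := by
    rw [pow_mul, pow_mul]
    refine (Nat.pow_le_pow_left hqX _).trans
      ((Nat.le_of_dvd (Nat.pos_of_ne_zero h0) hd).trans (hG.trans ?_))
    rw [pow_mul]
    refine Nat.pow_le_pow_left ?_ _
    simp only [Fintype.card_sum, Fintype.card_fin]
    calc ((N + N) * X) ^ 2 = 4 * N ^ 2 * X ^ 2 := by ring
      _ ≤ X * X ^ 2 := Nat.mul_le_mul_right _ hX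
      _ = X ^ 3 := by ring
  have h4 := (Nat.pow_le_pow_iff_right (show 1 < X by nlinarith)).1 h3
  omega

end Pool.Agent.Lib.MP_4f0d88_nt
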