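import Pool.Agent.Lib.MP_4f0d88_nt.PlD

/-! Ranks of sets of integer vectors over the reals and modulo a prime. -/

set_option autoImplicit false

namespace Pool.Agent.Lib.MP_4f0d88_nt

open Finset Module

theorem exists_fam (R : Type) [Field R] {V : Type} [Fintype V] (D : Set (V → ℤ)) :
    ∃ f : Fin (rk R D) → V → ℤ, (∀ i, f i ∈ D) ∧
      LinearIndependent R (fun i v => ((f i v : ℤ) : R)) := by
  obtain ⟨g, hg, -, hl⟩ :=
    Submodule.exists_fun_fin_finrank_span_eq R ((fun z v => ((z v : ℤ) : R)) '' D)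
  choose f hf hfg using hg
  have : (fun i v => ((f i v : ℤ) : R)) = g := funext hfg
  subst this
  exact ⟨f, hf, hl⟩

theorem card_le_rk (R : Type) [Field R] {V : Type} [Fintype V] {D : Set (V → ℤ)} {ι : Type}
    [Fintype ι] (f : ι → V → ℤ) (hf : ∀ i, f i ∈ D)
    (hl : LinearIndependent R (fun i v => ((f i v : ℤ) : R))) : Fintype.card ι ≤ rk R D := by
  rw [← finrank_span_eq_card hl]
  refine Submodule.finrank_mono (Submodule.span_mono ?_)
  rintro _ ⟨i, rfl⟩
  exact ⟨f i, hf i, rfl⟩

theorem li_int {ι V : Type} [Fintype ι] (p : ℕ) [hp : Fact p.Prime] (z : ι → V → ℤ)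
    (h : LinearIndependent (ZMod p) (fun i v => ((z i v : ℤ) : ZMod p))) :
    LinearIndependent ℤ z := by
  rw [Fintype.linearIndependent_iff] at h ⊢
  have key : ∀ n : ℕ, ∀ c : ι → ℤ, ∑ i, c i • z i = 0 → ∀ i, (p : ℤ) ^ n ∣ c i := by
    intro n
    induction n with
    | zero => simp
    | succ n ih =>
      intro c hc i
      have h1 : ∀ i, (p : ℤ) ∣ c i := fun i =>
        (ZMod.intCast_zmod_eq_zero_iff_dvd _ _).1 (h (fun i => (c i : ZMod p)) (by
          ext v
          have := congrArg (fun x : ℤ => (x : ZMod p)) (congrFun hc v)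
          simpa [Finset.sum_apply] using this) i)
      choose d hd using h1
      have h2 : ∑ i, d i • z i = 0 := by
        have h3 : (p : ℤ) • ∑ i, d i • z i = 0 := by
          rw [smul_sum, ← hc]
          exact sum_congr rfl fun i _ => by rw [hd, mul_smul]
        exact (smul_eq_zero.1 h3).resolve_left (by exact_mod_cast hp.out.ne_zero)
      rw [hd, pow_succ']
      exact mul_dvd_mul_left _ (ih d h2 i)
  intro c hc i
  refine Int.eq_zero_of_abs_lt_dvd (key (c i).natAbs c hc i) ?_
  rw [← Int.natCast_natAbs]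
  exact_mod_cast Nat.lt_pow_self hp.out.one_lt

theorem rk_mod_le (p : ℕ) [Fact p.Prime] {V : Type} [Fintype V] (D : Set (V → ℤ)) :
    rk (ZMod p) D ≤ rk ℝ D := by
  obtain ⟨f, hf, hl⟩ := exists_fam (ZMod p) D
  have h := (linearIndependent_algebraMap_comp_iff (S := ℝ)).2 (li_int p f hl)
  simpa using card_le_rk ℝ f hf h

theorem rk_le_card (R : Type) [Field R] {V : Type} [Fintype V] (D : Set (V → ℤ)) :
    rk R D ≤ Fintype.card V := by
  have := Submodule.finrank_le (sp R D)
  rwa [finrank_fintype_fun_eq_card] at this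

theorem phi_cast (R : Type) [Field R] {N : ℕ} (π : Finset (Fin N × Fin N)) (z : Vx N → ℤ) :
    phi R π (fun v => ((z v : ℤ) : R)) = fun e => ((phi ℤ π z e : ℤ) : R) := by
  ext e
  simp only [phi_apply]
  split_ifs <;> simp

theorem sp_map (R : Type) [Field R] {N : ℕ} (π : Finset (Fin N × Fin N)) (D : Set (Vx N → ℤ)) :
    (sp R D).map (phi R π) = sp R (phi ℤ π '' D) := by
  unfold sp
  rw [Submodule.map_span, Set.image_image, Set.image_image]
  simp only [phi_cast]

theorem finrank_inf_ker {R A B : Type} [Field R] [AddCommGroup A] [Module R A] [AddCommGroup B]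
    [Module R B] [FiniteDimensional R A] (W : Submodule R A) (f : A →ₗ[R] B) :
    finrank R (W.map f) + finrank R ↥(W ⊓ LinearMap.ker f) = finrank R W := by
  have h := LinearMap.finrank_range_add_finrank_ker (f.domRestrict W)
  rw [LinearMap.range_domRestrict, LinearMap.ker_domRestrict] at h
  rw [← h, ← Submodule.map_comap_subtype, Submodule.finrank_map_subtype_eq]

theorem rk_add_le (R : Type) [Field R] {N : ℕ} (π : Finset (Fin N × Fin N))
    {D' D : Set (Vx N → ℤ)} (h : D' ⊆ D)
    (h0 : ∀ z ∈ D', ∀ e, ((phi ℤ π z e : ℤ) : R) = 0) :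
    rk R (phi ℤ π '' D) + rk R D' ≤ rk R D := by
  have h1 := finrank_inf_ker (sp R D) (phi R π)
  rw [sp_map] at h1
  have h2 : sp R D' ≤ sp R D ⊓ LinearMap.ker (phi R π) := by
    refine le_inf (Submodule.span_mono (Set.image_mono h)) (Submodule.span_le.2 ?_)
    rintro _ ⟨z, hz, rfl⟩
    show phi R π _ = 0
    rw [phi_cast]
    exact funext (h0 z hz)
  have h3 := Submodule.finrank_mono h2
  unfold rk
  omega

end Pool.Agent.Lib.MP_4f0d88_nt
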