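import Pool.Agent.Lib.MP_4f0d88_nt.PlC
import Pool.Agent.Lib.MP_4f0d88_nt.PcZ

/-! The splitting step, the induction on the dimension and the final count. -/

set_option autoImplicit false

namespace Pool.Agent.Lib.MP_4f0d88_nt

open Finset Module

/-- A box size, a class of solutions and a member of the class. -/
abbrev Pt (N : ℕ) := (ℕ × Finset (Vx N → ℤ)) × (Vx N → ℤ)

/-- The pointed classes that need at most `k` rounds. -/
def Fam (N k X : ℕ) (x : Pt N) : Prop :=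
  x.1.1 = X ∧ 4 * N ^ 2 ≤ X ∧ (∀ t ∈ x.1.2, Sl X t) ∧ x.2 ∈ x.1.2 ∧
    rk ℝ (Df x.1.2) * 7 ^ k < 8 ^ k

/-- The signed distance from the entry `v` to the base entry on the other side. -/
def sg {N : ℕ} (o : Fin N) (s : Vx N → ℤ) : Vx N → ℤ
  | .inl i => s (.inr o) - s (.inl i)
  | .inr j => s (.inr j) - s (.inl o)

theorem sg_natAbs {N : ℕ} (o : Fin N) (s : Vx N → ℤ) (v : Vx N) :
    (sg o s v).natAbs = ee o s v := by
  cases v <;> rfl

theorem Sl.ee_ne {N X : ℕ} {s : Vx N → ℤ} (h : Sl X s) (o : Fin N) (v : Vx N) : ee o s v ≠ 0 := by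
  cases v <;> exact h.dz_ne _ _

theorem Sl.ee_le {N X : ℕ} {s : Vx N → ℤ} (h : Sl X s) (o : Fin N) (v : Vx N) : ee o s v ≤ X := by
  cases v <;> exact h.dz_le _ _

theorem cost_zero (N : ℕ) : Cost (Fam N 0) Prod.fst Prod.snd 0 := by
  refine Cost.det fun X x x' hx hx' e => ?_
  have h0 : finrank ℝ (sp ℝ (Df x.1.2)) = 0 := by
    have := hx.2.2.2.2
    simpa [rk] using this
  have h1 : (fun v => (((x.2 - x'.2) v : ℤ) : ℝ)) ∈ sp ℝ (Df x.1.2) :=
    Submodule.subset_span ⟨_, ⟨_, hx.2.2.2.1, _, e ▸ hx'.2.2.2.1, rfl⟩, rfl⟩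
  rw [Submodule.finrank_eq_zero.1 h0, Submodule.mem_bot] at h1
  funext v
  have h2 : (((x.2 - x'.2) v : ℤ) : ℝ) = 0 := congrFun h1 v
  have h3 : (x.2 - x'.2) v = 0 := by exact_mod_cast h2
  exact sub_eq_zero.1 h3

theorem cost_step {N : ℕ} (hN : 0 < N) (k : ℕ) (e : ℝ)
    (ih : Cost (Fam N k) Prod.fst Prod.snd e) :
    Cost (Fam N (k + 1)) Prod.fst Prod.snd (27 + e) := by
  classical
  set o : Fin N := ⟨0, hN⟩
  choose! M hM0 hM1 hM2 using fun (y : ℕ × Finset (Vx N → ℤ))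
    (h : 4 * N ^ 2 ≤ y.1 ∧ ∀ s ∈ y.2, Sl y.1 s) => exists_M hN h.1 y.2 h.2
  have hc : ∀ X x, Fam N (k + 1) X x → 4 * N ^ 2 ≤ x.1.1 ∧ ∀ s ∈ x.1.2, Sl x.1.1 s :=
    fun X x h => h.1.symm ▸ ⟨h.2.1, h.2.2.1⟩
  choose! q hq0 hq1 hq2 using fun (x : Pt N)
    (h : (4 * N ^ 2 ≤ x.1.1 ∧ ∀ s ∈ x.1.2, Sl x.1.1 s) ∧ x.2 ∈ x.1.2) =>
      dich (M := M x.1) o h.1.1 h.1.2 h.2
  have hd := fun X x (h : Fam N (k + 1) X x) => And.intro (hc X x h) h.2.2.2.1
  have hs : ∀ X x, Fam N (k + 1) X x → Sl X x.2 := fun X x h => h.2.2.1 _ h.2.2.2.1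
  set g1 : Pt N → ℕ × ℤ × ℤ := fun x => (q x, x.2 (.inl o), x.2 (.inr o)) with hg1
  set ga : Fin N × Fin N → Pt N → ℕ := fun a x => Nat.gcd (dz x.2 a.1 a.2) (q x) with hga
  set gb : Vx N → Pt N → Option ℤ := fun v x =>
    if ∀ p : ℕ, p.Prime → p ∣ ee o x.2 v → p ∣ M x.1 * q x then some (x.2 v) else none with hgb
  have c1 : Cost (Fam N (k + 1)) Prod.fst g1 27 := by
    have a1 : Cost (Fam N (k + 1)) Prod.fst q 25 :=
      Cost.range (by norm_num) fun X x _ h => by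
        have := hq1 x (hd X x h)
        rw [h.1] at this
        exact_mod_cast this
    have a2 : ∀ v, Cost (Fam N (k + 1)) Prod.fst (fun x => x.2 v) 1 := fun v =>
      Cost.box fun X x h => (hs X x h).1 v
    exact (a1.pair ((a2 _).pair (a2 _))).mono (by norm_num)
  have bq : Bd (Fam N (k + 1)) q := ⟨25, fun X x _ h => h.1 ▸ hq1 x (hd X x h)⟩
  have bM : Bd (Fam N (k + 1)) fun x => M x.1 := ⟨_, fun X x _ h => h.1 ▸ hM1 x.1 (hc X x h)⟩
  have c2 : ∀ a, Cost (Fam N (k + 1)) (fun x => (x.1, g1 x)) (ga a) 0 := fun a =>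
    Cost.freeN (n := q) (Cost.det fun _ _ _ _ _ c => congrArg (fun y => y.2.1) c) bq
      (bq.of_le fun X x h => Nat.gcd_le_right _ (Nat.pos_of_ne_zero (hq0 x (hd X x h))))
      fun X x h => ⟨hq0 x (hd X x h), Nat.gcd_ne_zero_right (hq0 x (hd X x h)),
        fun p _ hp => hp.trans (Nat.gcd_dvd_right _ _)⟩
  have c3 : ∀ v, Cost (Fam N (k + 1)) (fun x => (x.1, g1 x)) (gb v) 0 := by
    intro v
    have a1 : Cost (Fam N (k + 1)) (fun x => (x.1, g1 x)) (fun x =>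
        if ∀ p : ℕ, p.Prime → p ∣ ee o x.2 v → p ∣ M x.1 * q x then sg o x.2 v else 1) 0 := by
      refine Cost.free (n := fun x => M x.1 * q x) (Cost.det fun _ x x' _ _ c => ?_) (bM.mul bq)
        ⟨1, fun X x hX h => ?_⟩ fun X x h => ⟨mul_ne_zero (hM0 x.1 (hc X x h)) (hq0 x (hd X x h)),
          ?_, ?_⟩
      · have c0 : x.1 = x'.1 := (Prod.ext_iff.1 c).1
        rw [c0, show q x = q x' from congrArg (fun y => y.2.1) c]
      · beta_reduce
        split_ifs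
        · rw [sg_natAbs, pow_one]; exact (hs X x h).ee_le o v
        · simpa using hX
      · split_ifs
        · rw [sg_natAbs]; exact (hs X x h).ee_ne o v
        · simp
      · split_ifs with hh
        · rw [sg_natAbs]; exact hh
        · intro p hp h1
          exact absurd (Nat.dvd_one.1 h1) hp.ne_one
    have a2 : Cost (Fam N (k + 1)) (fun x => (x.1, g1 x)) (fun x =>
        decide (∀ p : ℕ, p.Prime → p ∣ ee o x.2 v → p ∣ M x.1 * q x)) 0 :=
      Cost.fin univ fun _ _ _ => mem_univ _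
    refine (a1.pair0 a2).dep fun X x x' _ _ c d => ?_
    have d1 := congrArg Prod.fst d
    have d2 := decide_eq_decide.1 (congrArg Prod.snd d)
    have e1 : x.2 (.inl o) = x'.2 (.inl o) := congrArg (fun y => y.2.2.1) c
    have e2 : x.2 (.inr o) = x'.2 (.inr o) := congrArg (fun y => y.2.2.2) c
    simp only [hgb]
    by_cases hh : ∀ p : ℕ, p.Prime → p ∣ ee o x.2 v → p ∣ M x.1 * q x
    · simp only [if_pos hh, if_pos (d2.1 hh)] at d1 ⊢
      cases v <;> simp only [sg] at d1 <;> congr 1 <;> omega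
    · rw [if_neg hh, if_neg fun h => hh (d2.2 h)]
  set dat := fun x : Pt N => (g1 x, (fun a => ga a x), fun v => gb v x) with hdat
  have c4 : Cost (Fam N (k + 1)) Prod.fst dat (27 + 0) :=
    c1.trans (((Cost.pi0 c2).pair0 (Cost.pi0 c3)).dep fun _ _ _ _ _ c d =>
      Prod.ext (congrArg Prod.snd c) d)
  rw [add_zero] at c4
  set ψ : Pt N → Pt N := fun x => ((x.1.1, x.1.2.filter fun t => dat (x.1, t) = dat x), x.2)
    with hψ
  have key : ∀ X x, 1 ≤ X → Fam N (k + 1) X x → Fam N k X (ψ x) := by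
    intro X x _ h
    set T := x.1.2.filter fun t => dat (x.1, t) = dat x with hT
    have hTS : T ⊆ x.1.2 := filter_subset _ _
    refine ⟨h.1, h.2.1, fun t ht => h.2.2.1 t (hTS ht), mem_filter.2 ⟨h.2.2.2.1, rfl⟩, ?_⟩
    have hr : 8 * rk ℝ (Df T) ≤ 7 * rk ℝ (Df x.1.2) := by
      rcases hq2 x (hd X x h) with ⟨a1, a2, a3⟩ | ⟨J, a1, a2⟩
      · refine caseI hN (hc X x h).1 (hc X x h).2 hTS a1 a2 (prs x.2) (fun p hp hpq => ?_)
          fun p hp hpq t ht a ha => ?_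
        · exact (a3 p hp.out hpq).2.trans
            (Nat.mul_le_mul_left _ (hM2 x.1 (hc X x h) _ p (a3 p hp.out hpq).1))
        · have b1 : ga a (x.1, t) = ga a x :=
            congrFun (congrArg (fun y => y.2.1) (mem_filter.1 ht).2) a
          have b2 : p ∣ ga a x := Nat.dvd_gcd (mem_filter.1 ha).2 hpq
          exact (b1 ▸ b2).trans (Nat.gcd_dvd_left _ _)
      · refine le_trans (Nat.mul_le_mul_left _ (Submodule.finrank_mono (le_inf
          (Submodule.span_mono (Set.image_mono (Df_mono hTS))) (Submodule.span_le.2 ?_)))) a1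
        rintro _ ⟨_, ⟨t, ht, t', ht', rfl⟩, rfl⟩ v hv
        have b : ∀ t ∈ T, t v = x.2 v := by
          intro t ht
          have b1 : gb v (x.1, t) = gb v x :=
            congrFun (congrArg (fun y => y.2.2) (mem_filter.1 ht).2) v
          simp only [hgb, if_pos (a2 v hv)] at b1
          split_ifs at b1
          exact Option.some.inj b1
        simp [b t ht, b t' ht']
    have h8 := h.2.2.2.2
    show rk ℝ (Df T) * 7 ^ k < 8 ^ k
    rw [pow_succ, pow_succ] at h8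
    have := Nat.mul_le_mul_right (7 ^ k) hr
    nlinarith
  refine c4.trans ((ih.comap ψ key).weak fun X x x' _ _ c => ?_)
  have c0 : x.1 = x'.1 := (Prod.ext_iff.1 c).1
  simp only [hψ]
  rw [c0, show dat x = dat x' from (Prod.ext_iff.1 c).2]

theorem cost_all {N : ℕ} (hN : 0 < N) (k : ℕ) : Cost (Fam N k) Prod.fst Prod.snd (27 * k) := by
  induction k with
  | zero => simpa using cost_zero N
  | succ k ih => exact (cost_step hN k _ ih).mono (by push_cast; linarith)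

theorem count (N k : ℕ) (hN : 0 < N) (hk : 2 * N * 7 ^ k < 8 ^ k) : ∃ c : ℝ, 0 < c ∧
    ∀ X : ℕ, 1 ≤ X → ∀ S : Finset (Vx N → ℤ), (∀ s ∈ S, Sl X s) →
      (S.card : ℝ) ≤ c * (X : ℝ) ^ (28 * k) := by
  obtain ⟨C, hC, H⟩ := cost_all hN k 1 one_pos
  set B := Fintype.piFinset fun _ : Vx N => Icc (0 : ℤ) (4 * N ^ 2 : ℕ) with hB
  refine ⟨C + B.card, by positivity, fun X hX S hS => ?_⟩
  have hX1 : (1 : ℝ) ≤ X := by exact_mod_cast hX
  have h1 : (1 : ℝ) ≤ (X : ℝ) ^ (28 * k) := one_le_pow₀ hX1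
  by_cases h : 4 * N ^ 2 ≤ X
  · have h2 := H X hX (X, S) S fun z hz => ⟨((X, S), z), ⟨rfl, h, hS, hz, by
      refine lt_of_le_of_lt (Nat.mul_le_mul_right _ ?_) hk
      simpa [two_mul] using rk_le_card ℝ (Df S)⟩, rfl, rfl⟩
    have hk0 : 1 ≤ k := by
      rcases k with _ | k
      · simp at hk; omega
      · omega
    have h3 : (X : ℝ) ^ (27 * (k : ℝ) + 1) ≤ (X : ℝ) ^ (28 * k) := by
      rw [← Real.rpow_natCast]
      refine Real.rpow_le_rpow_of_exponent_le hX1 ?_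
      have : (1 : ℝ) ≤ k := by exact_mod_cast hk0
      push_cast
      linarith
    have h4 : (0 : ℝ) ≤ B.card := Nat.cast_nonneg _
    nlinarith
  · have h2 : S.card ≤ B.card := card_le_card fun s hs => Fintype.mem_piFinset.2 fun v =>
      mem_Icc.2 ⟨((hS s hs).1 v).1, ((hS s hs).1 v).2.trans (by exact_mod_cast (not_le.1 h).le)⟩
    have h3 : (S.card : ℝ) ≤ B.card := by exact_mod_cast h2
    have h4 : (0 : ℝ) ≤ B.card := Nat.cast_nonneg _
    nlinarith

end Pool.Agent.Lib.MP_4f0d88_nt
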