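import Pool.Agent.Lib.MP_4f0d88_nt.PnL
import Pool.Agent.Lib.MP_4f0d88_nt.PcD
import Pool.Agent.Lib.MP_4f0d88_nt.PcZ

/-! Near ideal solutions: definitions, polynomial facts and the finite parameters. -/

set_option autoImplicit false

namespace Pool.Agent.Lib.MP_4f0d88_nt

open Finset Polynomial

/-- The monic polynomial with the given roots. -/
noncomputable def pl {N : ℕ} (a : Fin N → ℤ) : ℤ[X] := ∏ i, (X - C (a i))

/-- Entries in `[0, B]` and the two polynomials differ in degree less than `m`. -/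
def Nd {N : ℕ} (m B : ℕ) (x : Pr N) : Prop :=
  (∀ i, 0 ≤ x.1 i ∧ x.1 i ≤ B) ∧ (∀ j, 0 ≤ x.2 j ∧ x.2 j ≤ B) ∧ (pl x.1 - pl x.2).degree < m

/-- As before, with no common entry. -/
def Pm {N : ℕ} (m B : ℕ) (x : Pr N) : Prop := Nd m B x ∧ ∀ i j, dd x i j ≠ 0

/-- The values of the first polynomial at the chosen entries of `b`. -/
def wv {N r : ℕ} (ρ : Fin r → Fin N) (x : Pr N) : Fin r → ℤ := fun j => ∏ i, (x.2 (ρ j) - x.1 i)

/-- The value vectors of the class of `x` after `n` steps. -/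
def cl {N r : ℕ} (m : ℕ) (ρ : Fin r → Fin N) (B : ℕ) (x : Pr N) (n : ℕ) : Set (Fin r → ℤ) :=
  {w | ∃ y : Pr N, Pm m B y ∧ y.2 ∘ ρ = x.2 ∘ ρ ∧ (∀ i : Fin N, i.val < n → y.1 i = x.1 i) ∧
    w = wv ρ y}

/-- The known integer at step `n`. -/
noncomputable def kv {N r : ℕ} (m : ℕ) (ρ : Fin r → Fin N) (B : ℕ) (x : Pr N) (n : ℕ) : ℕ :=
  del ρ x * ∏ j, (Classical.epsilon (· ∈ cl m ρ B x n) j).natAbs

/-- The unknown part of a distance. -/
noncomputable def uv {N r : ℕ} (m : ℕ) (ρ : Fin r → Fin N) (B : ℕ) (x : Pr N) (i : Fin N)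
    (j : Fin r) : ℕ := pt (fun p => ¬ p ∣ kv m ρ B x i.val) (dd x i (ρ j))

theorem eval_pl {N : ℕ} (a : Fin N → ℤ) (t : ℤ) : (pl a).eval t = ∏ i, (t - a i) := by
  simp [pl, eval_prod]

theorem Nd.dd_le {N m B : ℕ} {x : Pr N} (h : Nd m B x) (i j : Fin N) : dd x i j ≤ B := by
  have h1 := h.1 i
  have h2 := h.2.1 j
  unfold dd
  omega

theorem Nd.swap {N m B : ℕ} {x : Pr N} (h : Nd m B x) : Nd m B x.swap :=
  ⟨h.2.1, h.1, by rw [← neg_sub, degree_neg]; exact h.2.2⟩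

theorem Pm.swap {N m B : ℕ} {x : Pr N} (h : Pm m B x) : Pm m B x.swap :=
  ⟨h.1.swap, fun i j => by have := h.2 j i; simp only [dd, Prod.snd_swap, Prod.fst_swap] at *; omega⟩

theorem wv_natAbs {N r : ℕ} (ρ : Fin r → Fin N) (x : Pr N) (j : Fin r) :
    (wv ρ x j).natAbs = ∏ i, dd x i (ρ j) := map_prod Int.natAbsHom _ _

theorem wv_le {N r m B : ℕ} (ρ : Fin r → Fin N) {x : Pr N} (h : Nd m B x) (j : Fin r) :
    (wv ρ x j).natAbs ≤ B ^ N := by
  rw [wv_natAbs]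
  simpa using prod_le_pow_card univ _ B fun i _ => h.dd_le i (ρ j)

theorem wv_ne {N r m B : ℕ} (ρ : Fin r → Fin N) {x : Pr N} (h : Pm m B x) (j : Fin r) :
    (wv ρ x j).natAbs ≠ 0 := by
  rw [wv_natAbs]
  exact prod_ne_zero_iff.2 fun i _ => h.2 i _

/-- One side and `m` entries of the other side determine the second polynomial. -/
theorem pl_eq {N m B : ℕ} {x y : Pr N} (hx : Nd m B x) (hy : Nd m B y) (h1 : x.1 = y.1)
    (A : Finset (Fin N)) (hA : m ≤ A.card) (h2 : ∀ j ∈ A, x.2 j = y.2 j) : pl x.2 = pl y.2 := by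
  have d1 : ∏ j ∈ A, (X - C (x.2 j)) ∣ pl x.2 - pl y.2 := by
    refine dvd_sub (prod_dvd_prod_of_subset _ _ _ (subset_univ A)) ?_
    rw [prod_congr rfl fun j hj => by rw [h2 j hj]]
    exact prod_dvd_prod_of_subset _ _ _ (subset_univ A)
  refine sub_eq_zero.1 (eq_zero_of_dvd_of_degree_lt d1 ?_)
  have e : pl x.2 - pl y.2 = (pl y.1 - pl y.2) - (pl x.1 - pl x.2) := by rw [h1]; ring
  rw [e, degree_prod]
  simp only [degree_X_sub_C, sum_const, nsmul_eq_mul, mul_one]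
  exact ((degree_sub_le _ _).trans_lt (max_lt hy.2.2 hx.2.2)).trans_le (by exact_mod_cast hA)

theorem cl_inj {N r m B : ℕ} (hm : m ≤ r) {ρ : Fin r → Fin N} {x : Pr N}
    (hρ : Function.Injective (x.2 ∘ ρ)) (n : ℕ) :
    ∀ w ∈ sp ℚ (cl m ρ B x n), (∀ j : Fin m, w (j.castLE hm) = 0) → w = 0 := by
  have key : ∀ w ∈ sp ℚ (cl m ρ B x n), ∃ L ∈ degreeLT ℚ m, ∀ j, w j = L.eval (x.2 (ρ j) : ℚ) := by
    intro w hw
    induction hw using Submodule.span_induction with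
    | mem w hw =>
      obtain ⟨_, ⟨y, hy, h1, -, rfl⟩, rfl⟩ := hw
      refine ⟨(pl y.1 - pl y.2).map (Int.castRingHom ℚ),
        mem_degreeLT.2 (degree_map_le.trans_lt hy.1.2.2), fun j => ?_⟩
      have e : x.2 (ρ j) = y.2 (ρ j) := (congrFun h1 j).symm
      rw [e, eval_intCast_map, Int.cast_id, eval_sub, eval_pl, eval_pl,
        prod_eq_zero (f := fun l => (y.2 (ρ j) : ℤ) - y.2 l) (mem_univ (ρ j)) (sub_self _), sub_zero]
      rfl
    | zero => exact ⟨0, Submodule.zero_mem _, fun j => by simp⟩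
    | add a b _ _ ha hb =>
      obtain ⟨L, h1, h2⟩ := ha
      obtain ⟨M, h3, h4⟩ := hb
      exact ⟨L + M, Submodule.add_mem _ h1 h3, fun j => by simp [h2, h4]⟩
    | smul c a _ ha =>
      obtain ⟨L, h1, h2⟩ := ha
      exact ⟨c • L, Submodule.smul_mem _ c h1, fun j => by simp [h2]⟩
  intro w hw h0
  obtain ⟨L, h1, h2⟩ := key w hw
  have : L = 0 := by
    refine eq_zero_of_degree_lt_of_eval_index_eq_zero (v := fun j : Fin m =>
      (x.2 (ρ (j.castLE hm)) : ℚ)) univ (fun a _ b _ e => ?_) (by simpa using mem_degreeLT.1 h1)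
      fun j _ => by rw [← h2, h0]
    exact Fin.castLE_injective hm (hρ (Int.cast_injective (α := ℚ) e))
  funext j
  simp [h2, this]

theorem eps_mem {N r m B : ℕ} (ρ : Fin r → Fin N) {x : Pr N} (h : Pm m B x) (n : ℕ) :
    Classical.epsilon (· ∈ cl m ρ B x n) ∈ cl m ρ B x n :=
  Classical.epsilon_spec (p := (· ∈ cl m ρ B x n)) ⟨_, x, h, rfl, fun _ _ => rfl, rfl⟩

theorem kv_ne {N r m B : ℕ} {ρ : Fin r → Fin N} {x : Pr N} (h : Pm m B x)
    (hρ : Function.Injective (x.2 ∘ ρ)) (n : ℕ) : kv m ρ B x n ≠ 0 := by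
  refine mul_ne_zero (del_ne hρ) (prod_ne_zero_iff.2 fun j _ => ?_)
  obtain ⟨y, hy, -, -, e⟩ := eps_mem ρ h n
  rw [e]
  exact wv_ne ρ hy j

theorem exists_par {N r m B : ℕ} (hr : 0 < r) (hm : m ≤ r) {ρ : Fin r → Fin N} {x : Pr N}
    (h : Pm m B x) (hρ : Function.Injective (x.2 ∘ ρ)) :
    ∃ (J : Fin N → Fin r) (A : Finset (Fin N)), A.card + 1 ≤ m ∧
      (∏ i ∈ Aᶜ, uv m ρ B x i (J i)) ^ r ≤ (2 * (N * (r * B ^ N)) + 1) ^ m := by
  classical
  haveI : Nonempty (Fin r) := ⟨⟨0, hr⟩⟩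
  choose J hJ using fun i : Fin N => exists_min_image univ (uv m ρ B x i) univ_nonempty
  obtain ⟨A, -, h1, h2⟩ := chain (cl m ρ B x)
    (fun n w ⟨y, a, b, c, d⟩ => ⟨y, a, b, fun i hi => c i (by omega), d⟩) (Y := B ^ N)
    (fun n w ⟨y, a, _, _, d⟩ j => by
      have := wv_le ρ a.1 j
      rw [d]; zify at this; exact_mod_cast this)
    (fun n => Classical.epsilon (· ∈ cl m ρ B x n)) (eps_mem ρ h)
    (fun n j => if hn : n < N then uv m ρ B x ⟨n, hn⟩ j else 1)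
    (fun n j j' hj => by
      beta_reduce
      split_ifs with hn
      · refine Nat.coprime_of_dvd fun p hp a b => ?_
        have a' := (prime_dvd_pt _ (h.2 _ _) hp).1 a
        have b' := (prime_dvd_pt _ (h.2 _ _) hp).1 b
        exact a'.1 ((dvd_del ρ x _ hj.symm a'.2 b'.2).mul_right _)
      · simp)
    (fun n j => by
      split_ifs with hn
      · refine Nat.coprime_of_dvd fun p hp a b => ((prime_dvd_pt _ (h.2 _ _) hp).1 a).1 ?_
        exact (b.trans (dvd_prod_of_mem (fun j =>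
          (Classical.epsilon (· ∈ cl m ρ B x n) j).natAbs) (mem_univ j))).mul_left _
      · simp)
    (fun n w ⟨y, a, b, c, d⟩ j => by
      split_ifs with hn
      · rw [d, Int.natCast_dvd, wv_natAbs]
        refine ((pt_dvd _ (h.2 _ _)).trans (dvd_of_eq ?_)).trans
          (dvd_prod_of_mem _ (mem_univ ⟨n, hn⟩))
        have e : y.2 (ρ j) = x.2 (ρ j) := congrFun b j
        simp only [dd, e, c ⟨n, hn⟩ (Nat.lt_succ_self n)]
      · simp) N
  have h3 := rk_le_of hm (cl_inj (B := B) hm hρ 0)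
  have h4 : 0 < rk ℚ (cl m ρ B x N) := by
    refine Nat.pos_of_ne_zero fun h0 => wv_ne ρ h ⟨0, hr⟩ ?_
    have a : (fun j => (wv ρ x j : ℚ)) ∈ sp ℚ (cl m ρ B x N) :=
      Submodule.subset_span ⟨_, ⟨x, h, rfl, fun _ _ => rfl, rfl⟩, rfl⟩
    rw [Submodule.finrank_eq_zero.1 h0, Submodule.mem_bot] at a
    have b : (wv ρ x ⟨0, hr⟩ : ℚ) = 0 := congrFun a _
    simpa using b
  have h5 := lat_le hm (D := cl m ρ B x 0) (fun w hw h0 => funext fun j => by
    have := congrFun (cl_inj hm hρ 0 _ (cast_mem_sp hw) fun j => by simp [h0 j]) j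
    simpa using this) (0 + N * (r * B ^ N))
  refine ⟨J, univ.filter fun i => i.val ∈ A, ?_, ?_⟩
  · have : (univ.filter fun i : Fin N => i.val ∈ A).card ≤ A.card :=
      card_le_card_of_injOn Fin.val (fun i hi => by simpa using hi) Fin.val_injective.injOn
    omega
  · have h6 := (Nat.le_mul_of_pos_right _ (lat_pos _ 0)).trans ((h2 0).trans h5)
    rw [zero_add] at h6
    refine le_trans ?_ h6
    rw [← prod_pow]
    refine (prod_le_prod' (g := fun i => ∏ j, uv m ρ B x i j) fun i _ => ?_).trans (le_of_eq ?_)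
    · simpa using pow_card_le_prod univ (uv m ρ B x i) _ (hJ i).2
    · refine prod_bij (fun i _ => i.val) (fun i hi => by simpa using hi)
        (fun _ _ _ _ e => Fin.val_injective e) (fun n hn => ?_) fun i _ => by simp
      obtain ⟨a, b⟩ := mem_sdiff.1 hn
      exact ⟨⟨n, mem_range.1 a⟩, by simpa using b, rfl⟩

end Pool.Agent.Lib.MP_4f0d88_nt
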