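import Pool.Agent.Lib.MP_4f0d88_nt.PlB
import Pool.Agent.Lib.MP_4f0d88_nt.PnP

/-! From sparse polynomials with a high order zero at one to near ideal pairs of tuples. -/

set_option autoImplicit false

open Polynomial Finset

namespace Pool.Agent.Lib.MP_4f0d88_nt

theorem esymm_eq_lt {n : ℕ} (K : ℕ) (a b : Fin n → ℤ)
    (h : ∀ k, 1 ≤ k → k < K → ∑ i, a i ^ k = ∑ i, b i ^ k) :
    ∀ k, k < K → (univ.val.map a).esymm k = (univ.val.map b).esymm k := by
  intro k
  induction k using Nat.strong_induction_on with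
  | _ k IH =>
    intro hk
    rcases Nat.eq_zero_or_pos k with rfl | hk0
    · simp [Multiset.esymm]
    have hk' : (k : ℤ) ≠ 0 := by omega
    have e := MvPolynomial.mul_esymm_eq_sum (Fin n) ℤ k
    have ea := congrArg (MvPolynomial.aeval a) e
    have eb := congrArg (MvPolynomial.aeval b) e
    simp only [map_mul, map_natCast, map_pow, map_neg, map_one, map_sum,
      MvPolynomial.aeval_esymm_eq_multiset_esymm, MvPolynomial.psum, MvPolynomial.aeval_X] at ea eb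
    apply mul_left_cancel₀ hk'
    rw [ea, eb]
    congr 1
    refine Finset.sum_congr rfl ?_
    rintro ⟨x, y⟩ hxy
    simp only [Finset.mem_filter, Finset.HasAntidiagonal.mem_antidiagonal] at hxy
    simp only
    rw [IH x hxy.2 (by omega), h y (by omega) (by omega)]

theorem degree_pl_sub {n : ℕ} (K : ℕ) (a b : Fin n → ℤ)
    (h : ∀ k, 1 ≤ k → k < K → ∑ i, a i ^ k = ∑ i, b i ^ k) :
    (pl a - pl b).degree < ((n + 1 - K : ℕ) : WithBot ℕ) := by
  have e : ∀ c : Fin n → ℤ, pl c = ((univ.val.map c).map fun a => X - C a).prod := fun c => by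
    rw [Multiset.map_map]; rfl
  have hc : ∀ c : Fin n → ℤ, (univ.val.map c).card = n := fun c => by simp
  rw [degree_lt_iff_coeff_zero]
  intro k hk
  rw [coeff_sub, e, e]
  by_cases hkn : k ≤ n
  · rw [Multiset.prod_X_sub_C_coeff _ (by rw [hc]; exact hkn),
      Multiset.prod_X_sub_C_coeff _ (by rw [hc]; exact hkn), hc, hc,
      esymm_eq_lt K a b h (n - k) (by omega), sub_self]
  · rw [coeff_eq_zero_of_natDegree_lt (by rw [natDegree_multiset_prod_X_sub_C_eq_card, hc]; omega),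
      coeff_eq_zero_of_natDegree_lt (by rw [natDegree_multiset_prod_X_sub_C_eq_card, hc]; omega),
      sub_self]

/-- The polynomial attached to a pair of tuples. -/
noncomputable def polyP {n : ℕ} (x : Pr n) : ℤ[X] :=
  ∑ i, X ^ (x.1 i).toNat - ∑ j, X ^ (x.2 j).toNat

theorem exists_pm (N s D : ℕ) (hN : 1 ≤ N) (P : ℤ[X]) (h0 : P ≠ 0)
    (hl : ∑ i ∈ P.support, |P.coeff i| ≤ 2 * (s : ℤ)) (hm : (X - 1) ^ N ∣ P)
    (hD : P.natDegree ≤ D) :
    ∃ n ∈ Icc N s, ∃ x : Pr n, Pm (n + 1 - N) D x ∧ polyP x = P := by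
  classical
  set A := ∑ i ∈ P.support, Multiset.replicate (P.coeff i).toNat i with hA
  set B := ∑ i ∈ P.support, Multiset.replicate (-P.coeff i).toNat i with hB
  have hsplit : ∀ {M : Type} [CommRing M] (f : ℕ → M),
      ∑ i ∈ P.support, (P.coeff i : M) * f i = (A.map f).sum - (B.map f).sum := by
    intro M _ f
    rw [hA, hB, map_sum_replicate, map_sum_replicate, ← Finset.sum_sub_distrib]
    refine Finset.sum_congr rfl fun i _ => ?_
    rw [← sub_mul]
    congr 1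
    conv_lhs => rw [← Int.toNat_sub_toNat_neg (P.coeff i)]
    rw [Int.cast_sub, Int.cast_natCast, Int.cast_natCast]
  have hpow : ∀ k, k < N → ∑ i ∈ P.support, P.coeff i * (i : ℤ) ^ k = 0 := by
    intro k hk
    have hd : (X - C (1 : ℤ)) ^ (k + 1) ∣ P := by
      rw [C_1]; exact (pow_dvd_pow _ (by omega)).trans hm
    rw [P.as_sum_support_C_mul_X_pow] at hd
    exact sum_pow_eq_zero k _ _ hd
  have hcA : (A.card : ℤ) = ∑ i ∈ P.support, ((P.coeff i).toNat : ℤ) := by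
    rw [hA, Multiset.card_sum, Nat.cast_sum]
    simp only [Multiset.card_replicate]
  have hcB : (B.card : ℤ) = ∑ i ∈ P.support, ((-P.coeff i).toNat : ℤ) := by
    rw [hB, Multiset.card_sum, Nat.cast_sum]
    simp only [Multiset.card_replicate]
  have hsum : (A.card : ℤ) + B.card ≤ 2 * s := by
    rw [hcA, hcB, ← Finset.sum_add_distrib]
    refine le_trans (le_of_eq (Finset.sum_congr rfl fun i _ => ?_)) hl
    rcases abs_cases (P.coeff i) with h | h <;> omega
  have hAB : (A.card : ℤ) = B.card := by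
    have e := hsplit (M := ℤ) (fun i => (i : ℤ) ^ 0)
    simp only [Int.cast_id] at e
    rw [hpow 0 (by omega)] at e
    simp at e
    linarith
  have hle : ∀ (c : ℕ → ℕ) (y : ℕ), y ∈ ∑ i ∈ P.support, Multiset.replicate (c i) i →
      y ≤ D ∧ c y ≠ 0 := by
    intro c y hy
    obtain ⟨i, hi, h⟩ := Multiset.mem_sum.1 hy
    obtain ⟨h1, rfl⟩ := Multiset.mem_replicate.1 h
    exact ⟨(le_natDegree_of_mem_supp _ hi).trans hD, h1⟩
  obtain ⟨n, hn⟩ : ∃ n, A.card = n := ⟨_, rfl⟩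
  obtain ⟨a, ha⟩ := exists_tuple A hn
  obtain ⟨b, hb⟩ := exists_tuple B (show B.card = n by omega)
  have ha' := fun i => hle (fun i => (P.coeff i).toNat) (a i)
    (hA ▸ ha ▸ Multiset.mem_map_of_mem a (mem_univ i))
  have hb' := fun i => hle (fun i => (-P.coeff i).toNat) (b i)
    (hB ▸ hb ▸ Multiset.mem_map_of_mem b (mem_univ i))
  have hs : ∀ {M : Type} [CommRing M] (f : ℕ → M),
      ∑ i ∈ P.support, (P.coeff i : M) * f i = ∑ i, f (a i) - ∑ j, f (b j) := by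
    intro M _ f
    rw [hsplit, ha, hb, Multiset.map_map, Multiset.map_map]
    rfl
  have hP : ∑ i, (X : ℤ[X]) ^ a i - ∑ j, X ^ b j = P := by
    rw [← hs (M := ℤ[X]) (fun i => X ^ i)]
    conv_rhs => rw [P.as_sum_support_C_mul_X_pow]
    simp
  have hne : ∀ i j, a i ≠ b j := fun i j e => by
    have h1 := (ha' i).2
    have h2 := (hb' j).2
    rw [← e] at h2
    omega
  have hdeg := degree_pl_sub N (fun i => (a i : ℤ)) (fun j => (b j : ℤ)) fun k _ hk => by
    have e := hs (M := ℤ) (fun i => (i : ℤ) ^ k)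
    simp only [Int.cast_id] at e
    rw [hpow k hk] at e
    linarith
  refine ⟨n, mem_Icc.2 ⟨?_, by omega⟩, (fun i => a i, fun j => b j),
    ⟨⟨fun i => ⟨Int.natCast_nonneg _, Int.ofNat_le.2 (ha' i).1⟩,
      fun j => ⟨Int.natCast_nonneg _, Int.ofNat_le.2 (hb' j).1⟩, hdeg⟩, fun i j => ?_⟩,
    by simpa [polyP] using hP⟩
  · by_contra hlt
    rw [show n + 1 - N = 0 by omega, Nat.cast_zero, Nat.WithBot.lt_zero_iff, degree_eq_bot,
      sub_eq_zero] at hdeg
    rcases Nat.eq_zero_or_pos n with rfl | hn0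
    · exact h0 (by simpa using hP.symm)
    have e := congrArg (eval (b ⟨0, hn0⟩ : ℤ)) hdeg
    rw [eval_pl, eval_pl, prod_eq_zero (f := fun l => (b ⟨0, hn0⟩ : ℤ) - b l) (mem_univ ⟨0, hn0⟩)
      (sub_self _)] at e
    obtain ⟨i, -, hi⟩ := prod_eq_zero_iff.1 e
    exact hne i ⟨0, hn0⟩ (by omega)
  · have := hne i j
    simp only [dd]
    omega

theorem near_of_cost
    (cost : ∀ n m r : ℕ, 0 < n → 0 < r → m ≤ r → m ≤ n →
      Cost (Pm (N := n) m) (fun _ => ()) id ((r : ℝ) + m * n / r + m - 1))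
    (N s : ℕ) (hN : 1 ≤ N) (ε : ℝ) (hε : 0 < ε) : ∃ c : ℝ, ∀ D : ℕ, 1 ≤ D → ∀ F : Finset ℤ[X],
      (∀ P ∈ F, P ≠ 0 ∧ P.natDegree ≤ D ∧ ∑ i ∈ P.support, |P.coeff i| ≤ 2 * (s : ℤ) ∧
        (X - 1) ^ N ∣ P) →
      (F.card : ℝ) ≤ c * (D : ℝ) ^ (2 * √(s * ((s : ℝ) - N + 1)) + ((s : ℝ) - N + 1) + ε) := by
  classical
  have key : ∀ n ∈ Icc N s, Cost (Pm (N := n) (n + 1 - N)) (fun _ => ()) id
      (2 * √(s * ((s : ℝ) - N + 1)) + ((s : ℝ) - N + 1)) := by
    intro n hn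
    obtain ⟨h1, h2⟩ := mem_Icc.1 hn
    obtain ⟨m, hm⟩ : ∃ m, n + 1 - N = m := ⟨_, rfl⟩
    rw [hm]
    have m1 : (1 : ℝ) ≤ m := by exact_mod_cast (show 1 ≤ m by omega)
    have m2 : (m : ℝ) ≤ n := by exact_mod_cast (show m ≤ n by omega)
    have m3 : (n : ℝ) ≤ s := by exact_mod_cast h2
    have m4 : (m : ℝ) ≤ s - N + 1 := by
      have : (m : ℝ) + N ≤ s + 1 := by exact_mod_cast (show m + N ≤ s + 1 by omega)
      linarith
    have a1 : (m : ℝ) ≤ √(m * n) := Real.le_sqrt_of_sq_le (by nlinarith)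
    have a2 := Nat.le_ceil (√((m : ℝ) * n))
    have a3 := Nat.ceil_lt_add_one (Real.sqrt_nonneg ((m : ℝ) * n))
    have a4 : √((m : ℝ) * n) ≤ √(s * ((s : ℝ) - N + 1)) := Real.sqrt_le_sqrt (by nlinarith)
    have a5 := Real.mul_self_sqrt (show 0 ≤ (m : ℝ) * n by nlinarith)
    have a6 : (m : ℝ) * n / ⌈√((m : ℝ) * n)⌉₊ ≤ √(m * n) := by
      rw [div_le_iff₀ (by linarith)]
      nlinarith
    refine (cost n m ⌈√((m : ℝ) * n)⌉₊ (by omega) ?_ ?_ (by omega)).mono (by linarith)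
    · exact Nat.ceil_pos.2 (by linarith)
    · exact_mod_cast a1.trans a2
  choose! C hC H using fun n hn => key n hn ε hε
  refine ⟨∑ n ∈ Icc N s, C n, fun D hD F hF => ?_⟩
  have h1 : F ⊆ (Icc N s).biUnion fun n =>
      F.filter fun P => ∃ x : Pr n, Pm (n + 1 - N) D x ∧ polyP x = P := by
    intro P hP
    obtain ⟨n, hn, h⟩ := exists_pm N s D hN P (hF P hP).1 (hF P hP).2.2.1 (hF P hP).2.2.2
      (hF P hP).2.1
    exact mem_biUnion.2 ⟨n, hn, mem_filter.2 ⟨hP, h⟩⟩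
  have h2 : (F.card : ℝ) ≤ ∑ n ∈ Icc N s,
      ((F.filter fun P => ∃ x : Pr n, Pm (n + 1 - N) D x ∧ polyP x = P).card : ℝ) := by
    exact_mod_cast (card_le_card h1).trans card_biUnion_le
  rw [sum_mul]
  refine h2.trans (sum_le_sum fun n hn => ?_)
  set G := F.filter fun P => ∃ x : Pr n, Pm (n + 1 - N) D x ∧ polyP x = P
  choose! w hw using fun P (hP : P ∈ G) => (mem_filter.1 hP).2
  rw [← card_image_of_injOn (f := w) fun P hP Q hQ e => by
    rw [← (hw P hP).2, ← (hw Q hQ).2, e]]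
  refine H n hn D hD () _ fun x hx => ?_
  obtain ⟨P, hP, rfl⟩ := mem_image.1 hx
  exact ⟨w P, (hw P hP).1, rfl, rfl⟩

end Pool.Agent.Lib.MP_4f0d88_nt
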