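import Pool.Agent.Lib.MP_4f0d88_nt.PlR

/-! Lattice points in boxes as a potential. -/

set_option autoImplicit false

namespace Pool.Agent.Lib.MP_4f0d88_nt

open Finset Module

open Classical in
/-- The points of the lattice spanned by `D` in the box of radius `R`. -/
noncomputable def lat {r : ℕ} (D : Set (Fin r → ℤ)) (R : ℕ) : Finset (Fin r → ℤ) :=
  (Fintype.piFinset fun _ => Icc (-(R : ℤ)) R).filter fun w => w ∈ Submodule.span ℤ D

theorem mem_lat {r : ℕ} {D : Set (Fin r → ℤ)} {R : ℕ} {w : Fin r → ℤ} :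
    w ∈ lat D R ↔ (∀ j, |w j| ≤ R) ∧ w ∈ Submodule.span ℤ D := by
  classical
  simp [lat, Fintype.mem_piFinset, abs_le]

theorem lat_pos {r : ℕ} (D : Set (Fin r → ℤ)) (R : ℕ) : 1 ≤ (lat D R).card :=
  card_pos.2 ⟨0, mem_lat.2 ⟨fun j => by simp, Submodule.zero_mem _⟩⟩

theorem lat_mono {r : ℕ} {D D' : Set (Fin r → ℤ)} (h : D' ⊆ D) {R R' : ℕ} (hR : R' ≤ R) :
    (lat D' R').card ≤ (lat D R).card :=
  card_le_card fun _ hw => mem_lat.2 ⟨fun j => ((mem_lat.1 hw).1 j).trans (by exact_mod_cast hR),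
    Submodule.span_mono h (mem_lat.1 hw).2⟩

theorem lat_step {r : ℕ} {D D' : Set (Fin r → ℤ)} (h : D' ⊆ D) {Y : ℕ}
    (hY : ∀ w ∈ D', ∀ j, |w j| ≤ Y) {e : Fin r → ℤ} (he : e ∈ D)
    (hsp : (fun j => (e j : ℚ)) ∈ sp ℚ D') (U : Fin r → ℕ)
    (hU : Pairwise fun j j' => Nat.Coprime (U j) (U j'))
    (hUe : ∀ j, Nat.Coprime (U j) (e j).natAbs) (hD : ∀ w ∈ D', ∀ j, (U j : ℤ) ∣ w j) (R : ℕ) :
    (∏ j, U j) * (lat D' R).card ≤ (lat D (R + r * Y)).card := by
  obtain ⟨g, hg, hsp', -⟩ :=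
    Submodule.exists_fun_fin_finrank_span_eq ℚ ((fun z v => ((z v : ℤ) : ℚ)) '' D')
  choose f hf hfg using hg
  have hn : finrank ℚ (Submodule.span ℚ ((fun (z : Fin r → ℤ) v => ((z v : ℤ) : ℚ)) '' D')) ≤ r := by
    have := rk_le_card ℚ D'
    rw [Fintype.card_fin] at this
    exact this
  rw [sp, ← hsp', Submodule.mem_span_range_iff_exists_fun] at hsp
  obtain ⟨x, hx⟩ := hsp
  set γ : ℕ → Fin r → ℤ := fun t => (t : ℤ) • e - ∑ k, ⌊(t : ℚ) * x k⌋ • f k with hγ
  have h1 : ∀ t j, |γ t j| ≤ r * Y := by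
    intro t j
    have e1 : ((γ t j : ℤ) : ℚ) = ∑ k, Int.fract ((t : ℚ) * x k) * (f k j : ℚ) := by
      have := congrFun hx j
      simp only [Finset.sum_apply, Pi.smul_apply, smul_eq_mul, ← hfg] at this
      simp only [hγ, Pi.sub_apply, Pi.smul_apply, Finset.sum_apply, smul_eq_mul, Int.cast_sub,
        Int.cast_mul, Int.cast_sum, Int.cast_natCast, ← this, mul_sum, ← sum_sub_distrib,
        Int.fract]
      exact sum_congr rfl fun k _ => by ring
    have e2 : |((γ t j : ℤ) : ℚ)| ≤ r * Y := by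
      rw [e1]
      refine (abs_sum_le_sum_abs _ _).trans ((sum_le_card_nsmul _ _ (Y : ℚ) fun k _ => ?_).trans ?_)
      · rw [abs_mul, abs_of_nonneg (Int.fract_nonneg _)]
        have : |(f k j : ℚ)| ≤ Y := by exact_mod_cast hY _ (hf k) j
        nlinarith [Int.fract_nonneg ((t : ℚ) * x k), Int.fract_lt_one ((t : ℚ) * x k),
          abs_nonneg (f k j : ℚ)]
      · rw [card_univ, Fintype.card_fin, nsmul_eq_mul]
        exact mul_le_mul_of_nonneg_right (by exact_mod_cast hn) (Nat.cast_nonneg _)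
    exact_mod_cast e2
  have h2 : ∀ w ∈ Submodule.span ℤ D', ∀ j, (U j : ℤ) ∣ w j := by
    intro w hw j
    induction hw using Submodule.span_induction with
    | mem w hw => exact hD w hw j
    | zero => simp
    | add a b _ _ ha hb => exact dvd_add ha hb
    | smul c a _ ha => exact ha.mul_left c
  have h3 : ∀ t : ℕ, ∑ k, ⌊(t : ℚ) * x k⌋ • f k ∈ Submodule.span ℤ D' := fun t =>
    Submodule.sum_mem _ fun k _ => Submodule.smul_mem _ _ (Submodule.subset_span (hf k))
  rw [← card_range (∏ j, U j), ← card_product]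
  refine card_le_card_of_injOn (fun p => γ p.1 + p.2) (fun p hp => ?_) fun p hp q hq e0 => ?_
  · have hp2 := mem_lat.1 (mem_product.1 hp).2
    refine mem_coe.2 (mem_lat.2 ⟨fun j => ?_, Submodule.add_mem _ (Submodule.sub_mem _
      (Submodule.smul_mem _ _ (Submodule.subset_span he)) (Submodule.span_mono h (h3 _)))
      (Submodule.span_mono h hp2.2)⟩)
    have := abs_add_le (γ p.1 j) (p.2 j)
    have := h1 p.1 j
    have := hp2.1 j
    push_cast
    rw [Pi.add_apply]
    linarith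
  · have hp1 := mem_range.1 (mem_product.1 hp).1
    have hq1 := mem_range.1 (mem_product.1 hq).1
    have hp2 := (mem_lat.1 (mem_product.1 hp).2).2
    have hq2 := (mem_lat.1 (mem_product.1 hq).2).2
    have e1 : ∀ j, U j ∣ ((p.1 : ℤ) - q.1).natAbs := by
      intro j
      refine (hUe j).dvd_of_dvd_mul_right ?_
      rw [← Int.natAbs_mul, ← Int.natCast_dvd]
      have e2 := congrFun e0 j
      simp only [hγ, Pi.add_apply, Pi.sub_apply, Pi.smul_apply, smul_eq_mul] at e2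
      have e3 := dvd_sub (dvd_add (h2 _ (h3 p.1) j) (h2 _ hq2 j))
        (dvd_add (h2 _ (h3 q.1) j) (h2 _ hp2 j))
      exact e3.trans (dvd_of_eq (by linear_combination -e2))
    have e4 : ∏ j, U j ∣ ((p.1 : ℤ) - q.1).natAbs :=
      Fintype.prod_dvd_of_isRelPrime (fun j j' hj => Nat.coprime_iff_isRelPrime.1 (hU hj)) e1
    have e5 : p.1 = q.1 := by
      have := Nat.eq_zero_of_dvd_of_lt e4 (by omega)
      omega
    refine Prod.ext e5 ?_
    simp only [e5] at e0
    exact add_left_cancel e0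

theorem lat_le {r m : ℕ} (hm : m ≤ r) {D : Set (Fin r → ℤ)}
    (h : ∀ w ∈ Submodule.span ℤ D, (∀ j : Fin m, w (j.castLE hm) = 0) → w = 0) (R : ℕ) :
    (lat D R).card ≤ (2 * R + 1) ^ m := by
  have : (Fintype.piFinset fun _ : Fin m => Icc (-(R : ℤ)) R).card = (2 * R + 1) ^ m := by
    rw [Fintype.card_piFinset, prod_const, card_univ, Fintype.card_fin, Int.card_Icc]
    congr 1
    omega
  rw [← this]
  refine card_le_card_of_injOn (fun w j => w (j.castLE hm)) (fun w hw => ?_) fun w hw v hv e => ?_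
  · exact mem_coe.2 (Fintype.mem_piFinset.2 fun j => mem_Icc.2 (abs_le.1 ((mem_lat.1 hw).1 _)))
  · exact sub_eq_zero.1 (h _ (Submodule.sub_mem _ (mem_lat.1 hw).2 (mem_lat.1 hv).2) fun j =>
      sub_eq_zero.2 (congrFun e j))

theorem rk_le_of {r m : ℕ} (hm : m ≤ r) {D : Set (Fin r → ℤ)}
    (h : ∀ w ∈ sp ℚ D, (∀ j : Fin m, w (j.castLE hm) = 0) → w = 0) : rk ℚ D ≤ m := by
  have := LinearMap.finrank_le_finrank_of_injective
    (f := (LinearMap.funLeft ℚ ℚ (Fin.castLE hm)).domRestrict (sp ℚ D))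
    ((injective_iff_map_eq_zero _).2 fun w hw => Subtype.ext (h w.1 w.2 fun j => congrFun hw j))
  simpa [rk] using this

theorem cast_mem_sp {r : ℕ} {D : Set (Fin r → ℤ)} {w : Fin r → ℤ} (hw : w ∈ Submodule.span ℤ D) :
    (fun j => (w j : ℚ)) ∈ sp ℚ D := by
  induction hw using Submodule.span_induction with
  | mem w hw => exact Submodule.subset_span ⟨w, hw, rfl⟩
  | zero => convert (sp ℚ D).zero_mem using 1; ext; simp
  | add a b _ _ ha hb => convert (sp ℚ D).add_mem ha hb using 1; ext; simp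
  | smul c a _ ha => convert (sp ℚ D).smul_mem (c : ℚ) ha using 1; ext; simp

/-- The chain of classes: few drops of rank, and a bounded product on the other steps. -/
theorem chain {r : ℕ} (D : ℕ → Set (Fin r → ℤ)) (hD : ∀ i, D (i + 1) ⊆ D i) {Y : ℕ}
    (hY : ∀ i, ∀ w ∈ D i, ∀ j, |w j| ≤ Y) (e : ℕ → Fin r → ℤ) (he : ∀ i, e i ∈ D i)
    (U : ℕ → Fin r → ℕ) (hU : ∀ i, Pairwise fun j j' => Nat.Coprime (U i j) (U i j'))
    (hUe : ∀ i j, Nat.Coprime (U i j) (e i j).natAbs)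
    (hd : ∀ i, ∀ w ∈ D (i + 1), ∀ j, (U i j : ℤ) ∣ w j) (n : ℕ) :
    ∃ A ⊆ range n, A.card + rk ℚ (D n) ≤ rk ℚ (D 0) ∧ ∀ R,
      (∏ i ∈ range n \ A, ∏ j, U i j) * (lat (D n) R).card ≤ (lat (D 0) (R + n * (r * Y))).card := by
  induction n with
  | zero => exact ⟨∅, empty_subset _, by simp, fun R => by simp⟩
  | succ n ih =>
    obtain ⟨A, hA, h1, h2⟩ := ih
    have hn : n ∉ A := fun h => by simpa using hA h
    have hs : sp ℚ (D (n + 1)) ≤ sp ℚ (D n) := Submodule.span_mono (Set.image_mono (hD n))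
    have hR : ∀ R, R + (n + 1) * (r * Y) = R + r * Y + n * (r * Y) := fun R => by ring
    by_cases h : (fun j => (e n j : ℚ)) ∈ sp ℚ (D (n + 1))
    · refine ⟨A, hA.trans (range_subset_range.2 n.le_succ),
        le_trans (Nat.add_le_add_left (Submodule.finrank_mono hs) _) h1, fun R => ?_⟩
      rw [range_add_one, insert_sdiff_of_notMem _ hn, prod_insert (by simp), mul_comm (∏ j, U n j),
        mul_assoc, hR]
      exact (Nat.mul_le_mul_left _ (lat_step (hD n) (hY _) (he n) h (U n) (hU n) (hUe n) (hd n)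
        R)).trans (h2 _)
    · have hlt : rk ℚ (D (n + 1)) < rk ℚ (D n) := Submodule.finrank_lt_finrank_of_lt
        (lt_of_le_of_ne hs fun h' => h (h' ▸ Submodule.subset_span ⟨_, he n, rfl⟩))
      refine ⟨insert n A, by rw [range_add_one]; exact insert_subset_insert _ hA, ?_, fun R => ?_⟩
      · rw [card_insert_of_notMem hn]; omega
      · rw [range_add_one, insert_sdiff_insert, sdiff_insert_of_notMem (by simp), hR]
        exact (Nat.mul_le_mul_left _ (lat_mono (hD n) (Nat.le_add_right _ _))).trans (h2 _)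

end Pool.Agent.Lib.MP_4f0d88_nt
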