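import Pool.Agent.Lib.MP_4f0d88_nt.PnP

/-! The count of near ideal solutions without common entries. -/

set_option autoImplicit false

namespace Pool.Agent.Lib.MP_4f0d88_nt

open Finset Polynomial

theorem Cost.rangeC {σ α : Type} {S : ℕ → σ → Prop} {f : σ → α} {g : σ → ℕ} {e : ℝ} (he : 0 ≤ e)
    (K : ℕ) (hK : 0 < K) (h : ∀ X x, 1 ≤ X → S X x → (g x : ℝ) ≤ K * (X : ℝ) ^ e) :
    Cost S f g e := by
  have a1 : Cost S f (fun x => g x / K) e := Cost.range he fun X x hX hx => by
    refine Nat.cast_div_le.trans ?_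
    rw [div_le_iff₀ (by exact_mod_cast hK), mul_comm]
    exact h X x hX hx
  have a2 : Cost S f (fun x => g x % K) 0 :=
    Cost.fin (Finset.range K) fun _ _ _ => mem_range.2 (Nat.mod_lt _ hK)
  have := (a1.pair a2).dep (h := g) fun _ x y _ _ _ c => by
    rw [← Nat.div_add_mod (g x) K, ← Nat.div_add_mod (g y) K,
      show g x / K = g y / K from congrArg Prod.fst c,
      show g x % K = g y % K from congrArg Prod.snd c]
  rwa [add_zero] at this

/-- The finish: one side and `m` entries of the other side are known. -/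
theorem finish {σ α : Type} {S : ℕ → σ → Prop} {f : σ → α} {N m : ℕ} (hN : 0 < N) (π : σ → Pr N)
    (hS : ∀ X x, S X x → Pm m X (π x)) (A : Finset (Fin N)) (hA : m ≤ A.card)
    (h1 : ∀ i, Cost S f (fun x => (π x).1 i) 0) (h2 : ∀ j ∈ A, Cost S f (fun x => (π x).2 j) 0) :
    Cost S f π 0 := by
  set o : Fin N := ⟨0, hN⟩
  have a1 := Cost.pi0 h1
  have a2 : Cost S f (fun x (j : A) => (π x).2 j) 0 := Cost.pi0 fun j : A => h2 j.1 j.2
  have a3 : Cost S f (fun x => ∏ j, dd (π x) o j) 0 := (a1.pair0 a2).dep fun X x y a b _ c => by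
    have c1 : (π x).1 = (π y).1 := (Prod.ext_iff.1 c).1
    have c2 := pl_eq (hS X x a).1 (hS X y b).1 c1 A hA fun j hj =>
      congrFun (congrArg Prod.snd c) ⟨j, hj⟩
    have e : ∀ z : Pr N, ∏ j, dd z o j = ((pl z.2).eval (z.1 o)).natAbs := fun z => by
      rw [eval_pl]
      refine Eq.trans (prod_congr rfl fun j _ => ?_) (map_prod Int.natAbsHom _ _).symm
      show _ = (z.1 o - z.2 j).natAbs
      unfold dd
      omega
    rw [e, e, c1, c2]
  have bd : ∀ i j, Bd S fun x => dd (π x) i j := fun i j =>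
    Bd.of_le_X fun X x h => (hS X x h).1.dd_le i j
  have a4 : ∀ j, Cost S f (fun x => (π x).2 j) 0 := fun j =>
    ((Cost.free (d := fun x => (π x).2 j - (π x).1 o) a3 (Bd.prod _ fun j _ => bd o j) (bd o j)
      fun X x h => ⟨prod_ne_zero_iff.2 fun j _ => (hS X x h).2 o j, (hS X x h).2 o j,
        fun p _ hp => hp.trans (dvd_prod_of_mem (dd (π x) o) (mem_univ j))⟩).pair0 (h1 o)).dep
      fun _ x y _ _ _ c => by
        have c1 := congrArg Prod.fst c
        have c2 := congrArg Prod.snd c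
        simp only at c1 c2
        omega
  exact (a1.pair0 (Cost.pi0 a4)).dep fun _ _ _ _ _ _ c =>
    Prod.ext (congrArg Prod.fst c) (congrArg Prod.snd c)

theorem cost_par {N r m : ℕ} (hN : 0 < N) (hr : 0 < r) (hm : m ≤ r) (ρ : Fin r → Fin N)
    (J : Fin N → Fin r) (A : Finset (Fin N)) :
    Cost (fun X (x : ℕ × Pr N) => x.1 = X ∧ Pm m X x.2 ∧ Function.Injective (x.2.2 ∘ ρ) ∧
      A.card + 1 ≤ m ∧ (∏ i ∈ Aᶜ, uv m ρ X x.2 i (J i)) ^ r ≤ (2 * (N * (r * X ^ N)) + 1) ^ m)
      Prod.fst Prod.snd (r + m * N / r + m - 1) := by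
  classical
  by_cases hA : A.card + 1 ≤ m
  swap
  · intro ε hε
    refine ⟨1, one_pos, fun X hX y T hT => ?_⟩
    rw [eq_empty_of_forall_notMem fun z hz => hA (hT z hz).choose_spec.1.2.2.2.1]
    simp only [card_empty, Nat.cast_zero]
    positivity
  set S := fun X (x : ℕ × Pr N) => x.1 = X ∧ Pm m X x.2 ∧ Function.Injective (x.2.2 ∘ ρ) ∧
      A.card + 1 ≤ m ∧ (∏ i ∈ Aᶜ, uv m ρ X x.2 i (J i)) ^ r ≤ (2 * (N * (r * X ^ N)) + 1) ^ m
    with hS
  set M : ℕ × Pr N → ℕ := fun x => ∏ i ∈ Aᶜ, uv m ρ x.1 x.2 i (J i) with hM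
  set g := fun x : ℕ × Pr N => ((fun j => x.2.2 (ρ j)), (fun i : A => x.2.1 i), M x) with hg
  have hr' : (0 : ℝ) < r := by exact_mod_cast hr
  have c1 : Cost S Prod.fst g (r + m * N / r + m - 1) := by
    have a1 := Cost.pi (S := S) (f := Prod.fst) (g := fun j x => x.2.2 (ρ j)) fun j =>
      Cost.box fun X x h => h.2.1.1.2.1 _
    have a2 := Cost.pi (S := S) (f := Prod.fst) (g := fun (i : A) x => x.2.1 i) fun i =>
      Cost.box fun X x h => h.2.1.1.1 _
    have a3 : Cost S Prod.fst M (m * N / r) := by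
      refine Cost.rangeC (by positivity) (2 * (N * r) + 1) (by omega) fun X x hX h => ?_
      have b1 := h.2.2.2.2
      have b2 : 2 * (N * (r * X ^ N)) + 1 ≤ (2 * (N * r) + 1) * X ^ N := by
        have := Nat.one_le_pow N X hX
        nlinarith
      have b3 : M x ^ r ≤ (2 * (N * r) + 1) ^ r * X ^ (m * N) := by
        rw [hM]
        simp only [h.1]
        refine b1.trans ((Nat.pow_le_pow_left b2 m).trans ?_)
        rw [mul_pow, ← pow_mul, mul_comm N m]
        exact Nat.mul_le_mul_right _ (Nat.pow_le_pow_right (by omega) hm)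
      refine le_of_pow_le_pow_left₀ hr.ne' (by positivity) ?_
      rw [mul_pow, ← Real.rpow_natCast (_ ^ _), ← Real.rpow_mul (Nat.cast_nonneg _),
        div_mul_cancel₀ _ hr'.ne', ← Nat.cast_mul, Real.rpow_natCast]
      exact_mod_cast b3
    refine (a1.pair (a2.pair a3)).mono ?_
    have : (A.card : ℝ) + 1 ≤ m := by exact_mod_cast hA
    simp only [Fintype.card_fin, Fintype.card_coe]
    linarith
  have bd : ∀ i j, Bd S fun x => dd x.2 i j := fun i j =>
    Bd.of_le_X fun X x h => h.2.1.1.dd_le i j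
  have bM : Bd S M := Bd.prod _ fun i _ =>
    (bd i (ρ (J i))).of_le fun X x h => pt_le _ (h.2.1.2 _ _)
  have bk : ∀ n, Bd S fun x => kv m ρ x.1 x.2 n := fun n => by
    refine Bd.mul (Bd.prod _ fun j _ => Bd.prod _ fun j' _ => Bd.of_le_X fun X x h => ?_)
      (Bd.prod _ fun j _ => ⟨N, fun X x _ h => ?_⟩)
    · have := h.2.1.1.2.1 (ρ j)
      have := h.2.1.1.2.1 (ρ j')
      omega
    · obtain ⟨y, hy, -, -, e⟩ := eps_mem ρ h.2.1 n
      simp only [h.1, e]
      exact wv_le ρ hy.1 j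
  have cb : ∀ j, Cost S (fun x => (x.1, g x)) (fun x => x.2.2 (ρ j)) 0 := fun j =>
    Cost.det fun _ _ _ _ _ c => congrFun (congrArg (fun y => y.2.1) c) j
  have ca : ∀ n, ∀ i : Fin N, i.val = n → Cost S (fun x => (x.1, g x)) (fun x => x.2.1 i) 0 := by
    intro n
    induction n using Nat.strong_induction_on with
    | _ n ih =>
      rintro i rfl
      by_cases hi : i ∈ A
      · exact Cost.det fun _ _ _ _ _ c => congrFun (congrArg (fun y => y.2.2.1) c) ⟨i, hi⟩
      have a1 : Cost S (fun x => (x.1, g x)) (fun x => kv m ρ x.1 x.2 i.val * M x) 0 := by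
        refine Cost.piOn (g := fun (l : Fin N) x => x.2.1 l) (fun l => l.val < i.val)
          (fun l hl => ih _ hl l rfl) fun X x y _ _ c d => ?_
        have c1 : x.1 = y.1 := (Prod.ext_iff.1 c).1
        have c2 : x.2.2 ∘ ρ = y.2.2 ∘ ρ := congrArg (fun y => y.2.1) c
        have c3 : M x = M y := congrArg (fun y => y.2.2.2) c
        have c4 : cl m ρ y.1 x.2 i.val = cl m ρ y.1 y.2 i.val := by
          unfold cl
          rw [c2]
          ext w
          exact exists_congr fun z => and_congr_right fun _ => and_congr_right fun _ =>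
            and_congr_left fun _ => forall_congr' fun l => forall_congr' fun hl => by rw [d l hl]
        have c5 : del ρ x.2 = del ρ y.2 := prod_congr rfl fun j _ => prod_congr rfl fun j' _ => by
          rw [show x.2.2 (ρ j) = y.2.2 (ρ j) from congrFun c2 j,
            show x.2.2 (ρ j') = y.2.2 (ρ j') from congrFun c2 j']
        simp only [kv, c1, c3, c4, c5]
      refine ((Cost.free (d := fun x : ℕ × Pr N => x.2.2 (ρ (J i)) - x.2.1 i) a1
        ((bk _).mul bM) (bd i (ρ (J i)))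
        fun X x h => ⟨mul_ne_zero (h.1 ▸ kv_ne h.2.1 h.2.2.1 _)
          (prod_ne_zero_iff.2 fun _ _ => pt_ne_zero _ _), h.2.1.2 _ _, fun p hp hd => ?_⟩).pair0
        (cb (J i))).dep fun _ x y _ _ _ c => ?_
      · by_cases hk : p ∣ kv m ρ x.1 x.2 i.val
        · exact hk.mul_right _
        · exact (((prime_dvd_pt _ (h.2.1.2 _ _) hp).2 ⟨hk, hd⟩).trans
            (dvd_prod_of_mem (fun i => uv m ρ x.1 x.2 i (J i)) (mem_compl.2 hi))).mul_left _
      · have c1 := congrArg Prod.fst c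
        have c2 := congrArg Prod.snd c
        simp only at c1 c2
        omega
  by_cases hρ : Function.Injective ρ
  swap
  · intro ε hε
    refine ⟨1, one_pos, fun X hX y T hT => ?_⟩
    rw [eq_empty_of_forall_notMem fun z hz => hρ (hT z hz).choose_spec.1.2.2.1.of_comp]
    simp only [card_empty, Nat.cast_zero]
    positivity
  have := c1.trans (finish hN Prod.snd (fun X x h => h.2.1) (univ.image ρ)
    (by rw [card_image_of_injective _ hρ]; simpa using hm) (fun i => ca _ i rfl) fun j hj => by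
      obtain ⟨l, -, rfl⟩ := mem_image.1 hj
      exact cb l)
  rwa [add_zero] at this

theorem few_or_many {N : ℕ} (r : ℕ) (b : Fin N → ℤ) :
    (∃ ρ : Fin r → Fin N, Function.Injective (b ∘ ρ)) ∨
      ∃ τ : Fin N → Fin N, (univ.image τ).card + 1 ≤ r ∧ ∀ j, b (τ j) = b j := by
  classical
  choose sec hsec using fun v : (univ.image b) => mem_image.1 v.2
  by_cases h : r ≤ (univ.image b).card
  · obtain ⟨e⟩ := Function.Embedding.nonempty_of_card_le (α := Fin r) (β := univ.image b)
      (by simpa using h)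
    refine Or.inl ⟨sec ∘ e, fun j l c => e.injective (Subtype.ext ?_)⟩
    simpa only [Function.comp, (hsec _).2] using c
  · refine Or.inr ⟨fun j => sec ⟨b j, mem_image_of_mem b (mem_univ j)⟩, ?_, fun j => (hsec _).2⟩
    have : (univ.image fun j => sec ⟨b j, mem_image_of_mem b (mem_univ j)⟩).card ≤
        (univ.image sec).card := card_le_card fun l hl => by
      obtain ⟨j, -, rfl⟩ := mem_image.1 hl
      exact mem_image_of_mem _ (mem_univ _)
    have h2 : (univ.image sec).card ≤ (univ.image b).card := card_image_le.trans (by simp)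
    omega

theorem cost_few {N r m : ℕ} (hN : 0 < N) (hm : m ≤ N) (τ : Fin N → Fin N) :
    Cost (fun X (x : Pr N) => Pm m X x ∧ (univ.image τ).card + 1 ≤ r ∧ ∀ j, x.2 (τ j) = x.2 j)
      (fun _ => ()) id (r + m - 1) := by
  classical
  by_cases hA : (univ.image τ).card + 1 ≤ r
  swap
  · intro ε hε
    refine ⟨1, one_pos, fun X hX y T hT => ?_⟩
    rw [eq_empty_of_forall_notMem fun z hz => hA (hT z hz).choose_spec.1.2.1]
    simp only [card_empty, Nat.cast_zero]
    positivity
  obtain ⟨A, -, hc⟩ := exists_subset_card_eq (s := (univ : Finset (Fin N))) (n := m)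
    (by simpa using hm)
  set S := fun X (x : Pr N) => Pm m X x ∧ (univ.image τ).card + 1 ≤ r ∧ ∀ j, x.2 (τ j) = x.2 j
  have a1 := Cost.pi (S := S) (f := fun _ => ()) (g := fun (j : univ.image τ) x => x.2 j)
    fun j => Cost.box fun X x h => h.1.1.2.1 _
  have a2 := Cost.pi (S := S) (f := fun _ => ()) (g := fun (i : A) x => x.1 i)
    fun i => Cost.box fun X x h => h.1.1.1 _
  have a3 := (a1.pair a2).trans (finish hN Prod.swap (fun X x h => h.1.swap) A hc.ge
    (fun j => Cost.det fun _ x y a b c => by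
      have := congrFun (congrArg (fun y => y.2.1) c) ⟨τ j, mem_image_of_mem _ (mem_univ j)⟩
      exact (a.2.2 j).symm.trans (this.trans (b.2.2 j)))
    fun i hi => Cost.det fun _ x y a b c => congrFun (congrArg (fun y => y.2.2) c) ⟨i, hi⟩)
  refine (a3.dep fun _ _ _ _ _ _ c => Prod.swap_injective c).mono ?_
  have : ((univ.image τ).card : ℝ) + 1 ≤ r := by exact_mod_cast hA
  simp only [Fintype.card_coe, hc]
  linarith

/-- The count of solutions without common entries. -/
theorem cost_pm (N m r : ℕ) (hN : 0 < N) (hr : 0 < r) (hm : m ≤ r) (hmN : m ≤ N) :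
    Cost (Pm (N := N) m) (fun _ => ()) id (r + m * N / r + m - 1) := by
  classical
  refine Cost.cases (κ := ((Fin r → Fin N) × (Fin N → Fin r) × Finset (Fin N)) ⊕ (Fin N → Fin N))
    (Sum.elim (fun k X x => Pm m X x ∧ Function.Injective (x.2 ∘ k.1) ∧ k.2.2.card + 1 ≤ m ∧
        (∏ i ∈ k.2.2ᶜ, uv m k.1 X x i (k.2.1 i)) ^ r ≤ (2 * (N * (r * X ^ N)) + 1) ^ m)
      fun τ X x => Pm m X x ∧ (univ.image τ).card + 1 ≤ r ∧ ∀ j, x.2 (τ j) = x.2 j)
    (fun k => ?_) fun X x _ h => ?_
  · rcases k with k | τ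
    · intro ε hε
      obtain ⟨C, hC, H⟩ := cost_par hN hr hm k.1 k.2.1 k.2.2 ε hε
      refine ⟨C, hC, fun X hX y T hT => H X hX X T fun z hz => ?_⟩
      obtain ⟨x, a, -, rfl⟩ := hT z hz
      exact ⟨(X, x), ⟨rfl, a⟩, rfl, rfl⟩
    · refine (cost_few hN hmN τ).mono ?_
      have : (0 : ℝ) ≤ m * N / r := by positivity
      linarith
  · rcases few_or_many r x.2 with ⟨ρ, hρ⟩ | ⟨τ, hτ⟩
    · obtain ⟨J, A, a⟩ := exists_par hr hm h hρ
      exact ⟨.inl (ρ, J, A), h, hρ, a⟩
    · exact ⟨.inr τ, h, hτ⟩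

end Pool.Agent.Lib.MP_4f0d88_nt
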