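import Mathlib

/-! The lacunary system `V H = X^p - a X`, `k V' = X H' - N H` over `ZMod p` has no solution
when `N + 2 ≤ p ≤ 2 N - 2`. -/

set_option autoImplicit false

open Polynomial

namespace Pool.Agent.Lib.MP_4f0d88_nt

theorem arith_final (p N g j : ℤ) (hg : 3 ≤ g) (hp : p + g = 2 * N + 1) (hN : g ∣ N) (hj : g ∣ j)
    (hj1 : 1 ≤ j) (hj2 : j + g ≤ N) (hd : p ∣ N * (j + 2) - j) : False := by
  obtain ⟨s, rfl⟩ := hN
  obtain ⟨k, rfl⟩ := hj
  obtain ⟨i0, hi0⟩ := hd
  have hk1 : 1 ≤ k := by
    by_contra h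
    have : k ≤ 0 := by omega
    nlinarith
  have hks : k + 1 ≤ s := by
    by_contra h
    have : s ≤ k := by omega
    nlinarith
  have hpe : p = g * (2 * s - 1) + 1 := by linarith
  set i := 2 * i0 - (g * k + 2) with hi
  have hD : g * k * (g - 3) + 2 * (g - 1) = i * p := by
    rw [hi, hpe]
    rw [hpe] at hi0
    linear_combination 2 * hi0
  have hp0 : 0 < p := by nlinarith
  have hi1 : 1 ≤ i := by
    by_contra h
    have h0 : i ≤ 0 := by omega
    have h1 : 0 ≤ g * k * (g - 3) := mul_nonneg (mul_nonneg (by omega) (by omega)) (by omega)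
    nlinarith
  have hm : i + 2 = g * (k * (g - 3) + 2 - i * (2 * s - 1)) := by
    rw [hpe] at hD
    linear_combination -hD
  set m := k * (g - 3) + 2 - i * (2 * s - 1) with hmdef
  have hm1 : 1 ≤ m := by
    by_contra h
    have : m ≤ 0 := by omega
    nlinarith
  have hig : g - 2 ≤ i := by nlinarith
  have h1 : k * (g - 3) ≤ (s - 1) * (g - 3) := by nlinarith
  have h2 : (g - 2) * (2 * s - 1) ≤ i * (2 * s - 1) := by nlinarith
  nlinarith

theorem natCast_ne_zero_of_lt {p : ℕ} [Fact p.Prime] {m : ℕ} (h0 : 0 < m) (h1 : m < p) :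
    (m : ZMod p) ≠ 0 := by
  intro h
  rw [ZMod.natCast_eq_zero_iff] at h
  exact absurd (Nat.le_of_dvd h0 h) (by omega)

theorem sys_false (p N : ℕ) [Fact p.Prime] (h1 : N + 2 ≤ p) (h2 : p + 2 ≤ 2 * N)
    (H V : (ZMod p)[X]) (hH : H.Monic) (hHd : H.natDegree = N) (hV : V.Monic)
    (hVd : V.natDegree + N = p) (α κ : ZMod p) (hα : α ≠ 0) (hκ : κ ≠ 0)
    (hprod : V * H = X ^ p - C α * X)
    (hode : C κ * derivative V = X * derivative H - C (N : ZMod p) * H) : False := by
  set d := V.natDegree with hd
  obtain ⟨g, hg⟩ : ∃ g, N + 1 = d + g := ⟨N + 1 - d, by omega⟩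
  have hg3 : 3 ≤ g := by omega
  have hd2 : 2 ≤ d := by omega
  have hc : ∀ i : ℕ, κ * (V.coeff (i + 1) * ((i : ZMod p) + 1)) =
      ((i : ZMod p) - N) * H.coeff i := by
    intro i
    have := congrArg (fun q => coeff q i) hode
    simp only [coeff_C_mul, coeff_sub, coeff_derivative] at this
    rw [this]
    cases i with
    | zero => simp
    | succ n => rw [coeff_X_mul, coeff_derivative]; push_cast; ring
  have hHN : H.coeff N = 1 := by rw [← hHd]; exact hH.coeff_natDegree
  have hVN : V.coeff d = 1 := hV.coeff_natDegree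
  have hrhs : ∀ n : ℕ, n ≠ p → n ≠ 1 → (V * H).coeff n = 0 := by
    intro n hn hn1
    rw [hprod, coeff_sub, coeff_X_pow, coeff_C_mul, coeff_X, if_neg hn, if_neg (Ne.symm hn1)]
    simp
  have hH' : ∀ j : ℕ, (∀ j' < j, ∀ i, i + j' = d → V.coeff i ≠ 0 → g ∣ j') →
      ∀ i, i + j = N → H.coeff i ≠ 0 → g ∣ j := by
    intro j IH i hij hi
    rcases Nat.eq_zero_or_pos j with rfl | hj
    · exact dvd_zero _
    have hne : ((i : ZMod p) - N) ≠ 0 := by
      rw [← hij]; push_cast
      have : (j : ZMod p) ≠ 0 := natCast_ne_zero_of_lt hj (by omega)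
      intro h; apply this; linear_combination -h
    have hv : V.coeff (i + 1) ≠ 0 := by
      intro h0
      have := hc i
      rw [h0] at this
      exact (mul_ne_zero hne hi) (by rw [← this]; ring)
    have hle : i + 1 ≤ d := le_natDegree_of_ne_zero hv
    have := IH (d - (i + 1)) (by omega) (i + 1) (by omega) hv
    have e : j = (d - (i + 1)) + g := by omega
    rw [e]; exact dvd_add this dvd_rfl
  have hVper : ∀ j : ℕ, ∀ i, i + j = d → V.coeff i ≠ 0 → g ∣ j := by
    intro j
    induction j using Nat.strong_induction_on with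
    | _ j IH =>
      intro i hij hi
      rcases Nat.eq_zero_or_pos j with rfl | hj
      · exact dvd_zero _
      by_contra hnd
      have h0 := hrhs (i + N) (by omega) (by omega)
      rw [coeff_mul, Finset.sum_eq_single (i, N)] at h0
      · simp only [hHN, mul_one] at h0; exact hi h0
      · rintro ⟨a, b⟩ hab hne
        rw [Finset.HasAntidiagonal.mem_antidiagonal] at hab
        simp only at hab ⊢
        by_contra hz
        have hva : V.coeff a ≠ 0 := left_ne_zero_of_mul hz
        have hhb : H.coeff b ≠ 0 := right_ne_zero_of_mul hz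
        have ha : a ≤ d := le_natDegree_of_ne_zero hva
        have hb : b ≤ N := hHd ▸ le_natDegree_of_ne_zero hhb
        have hbN : b ≠ N := by
          intro h; apply hne; subst h; congr 1; omega
        have e1 := IH (d - a) (by omega) a (by omega) hva
        have e2 := hH' (N - b) (fun j' hj' => IH j' (by omega)) b (by omega) hhb
        apply hnd
        have e : j = (d - a) + (N - b) := by omega
        rw [e]; exact dvd_add e1 e2
      · intro h; exact absurd (by simp) h
  have hHper : ∀ j i : ℕ, i + j = N → H.coeff i ≠ 0 → g ∣ j :=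
    fun j => hH' j (fun j' _ => hVper j')
  by_cases h0 : H.coeff 0 = 0
  · have hc1 : (V * H).coeff 1 = -α := by
      rw [hprod, coeff_sub, coeff_X_pow, coeff_C_mul, coeff_X, if_neg (by omega), if_pos rfl]
      simp
    rw [coeff_mul, Finset.Nat.antidiagonal_succ] at hc1
    simp [h0] at hc1
    have hne : V.coeff 0 * H.coeff 1 ≠ 0 := by rw [hc1]; exact neg_ne_zero.2 hα
    have e1 := hVper d 0 (by omega) (left_ne_zero_of_mul hne)
    have e2 := hHper (N - 1) 1 (by omega) (right_ne_zero_of_mul hne)
    have e3 : g ∣ 2 := by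
      have e : d + g = (N - 1) + 2 := by omega
      have : g ∣ (N - 1) + 2 := e ▸ dvd_add e1 dvd_rfl
      exact (Nat.dvd_add_right e2).1 this
    have := Nat.le_of_dvd (by norm_num) e3
    omega
  · have hv0 : V.coeff 0 = 0 := by
      have := hrhs 0 (by omega) (by omega)
      rw [mul_coeff_zero] at this
      exact (mul_eq_zero.1 this).resolve_right h0
    have hdel : H.coeff (d - 1) ≠ 0 := by
      intro hz
      have := hc (d - 1)
      rw [hz, show d - 1 + 1 = d by omega, hVN] at this
      have hd0 : ((d - 1 : ℕ) : ZMod p) + 1 ≠ 0 := by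
        have : ((d - 1 + 1 : ℕ) : ZMod p) ≠ 0 := natCast_ne_zero_of_lt (by omega) (by omega)
        simpa using this
      exact (mul_ne_zero hκ hd0) (by rw [← mul_zero (((d - 1 : ℕ) : ZMod p) - N), ← this]; ring)
    have hex : ∃ j, 1 ≤ j ∧ H.coeff j ≠ 0 := ⟨d - 1, by omega, hdel⟩
    classical
    set j := Nat.find hex with hjdef
    have hj : 1 ≤ j ∧ H.coeff j ≠ 0 := Nat.find_spec hex
    have hjle : j ≤ d - 1 := Nat.find_min' hex ⟨by omega, hdel⟩
    have hmin : ∀ b, 1 ≤ b → b < j → H.coeff b = 0 := by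
      intro b hb hbj
      by_contra hz
      exact Nat.find_min hex hbj ⟨hb, hz⟩
    have hs := hrhs (j + 1) (by omega) (by omega)
    have m1 : ((1, j) : ℕ × ℕ) ∈ Finset.HasAntidiagonal.antidiagonal (j + 1) := by
      simp [add_comm]
    have m2 : ((j + 1, 0) : ℕ × ℕ) ∈ Finset.HasAntidiagonal.antidiagonal (j + 1) := by simp
    rw [coeff_mul, Finset.sum_eq_add_of_mem (1, j) (j + 1, 0) m1 m2
      (by intro h; have := congrArg Prod.snd h; simp only at this; omega)] at hs
    · simp only at hs
      have c0 := hc 0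
      have cj := hc j
      simp only [Nat.cast_zero, zero_add, mul_one, zero_sub] at c0
      have key : (((N : ℤ) * (j + 2) - j : ℤ) : ZMod p) * (H.coeff 0 * H.coeff j) = 0 := by
        push_cast
        linear_combination (H.coeff 0) * cj - ((j : ZMod p) + 1) * κ * hs
          + ((j : ZMod p) + 1) * H.coeff j * c0
      have key2 := (mul_eq_zero.1 key).resolve_right (mul_ne_zero h0 hj.2)
      rw [ZMod.intCast_zmod_eq_zero_iff_dvd] at key2
      have e1 : g ∣ N := hHper N 0 (by omega) h0
      have e2 : g ∣ N - j := hHper (N - j) j (by omega) hj.2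
      have e3 : g ∣ j := by
        have e : N = (N - j) + j := by omega
        rw [e] at e1
        exact (Nat.dvd_add_right e2).1 e1
      exact arith_final p N g j (by exact_mod_cast hg3) (by omega) (by exact_mod_cast e1)
        (by exact_mod_cast e3) (by exact_mod_cast hj.1) (by omega) key2
    · rintro ⟨a, b⟩ hab ⟨hne1, hne2⟩
      rw [Finset.HasAntidiagonal.mem_antidiagonal] at hab
      simp only at hab ⊢
      rcases Nat.eq_zero_or_pos a with rfl | ha
      · rw [hv0, zero_mul]
      · have hb1 : b ≠ j := by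
          intro h; apply hne1; subst h; congr 1; omega
        have hb0 : b ≠ 0 := by
          intro h; apply hne2; subst h; congr 1
        rw [hmin b (by omega) (by omega), mul_zero]

end Pool.Agent.Lib.MP_4f0d88_nt
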